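import Pool.Agent.Helper18.HY.Rec

/-! Block HY-SEP: mean of `-log` of the separation, and isolation of a window at a level.

* `close`: `rec_cube` for `q = qd d`, `D = De d`, `N = NN`; `d.Low` (with `δ = 1`) gives `exp (-(l^(1/3))) ≤ B' k l` for all `l` (finitely many small `l`: `k l ≥ 1 / NN l > 0`), hence `De d l ≤ B N exp (l^(1/3))`.
* `lint_le`: `f ≤ a + b Σ_i 1{f > a + b i}`; integrate.
* `sep3`: `{sepd d k n p < ρ} ⊆ ⋃_{j ≤ n, j ≠ k} {dist (px d j p) (px d k p) < ρ}`, `qd_px`, `n + 1 ≤ 2 * 2^i` terms, each `≤ 2^(-T)` if `ρ = 2^(-A (i+2)(T + A (i+2)^2))`; `lm x > a` iff `x < exp (-a)` (or `x ≤ 0`). Use `lint_le` with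
  `a = log 2 * A (i+2)(i + 1 + A (i+2)^2)`, `b = log 2 * A (i+2)` (thresholds `T = i + 1 + m`, `m ∈ ℕ`).
* `iso_ae`: union over pairs `i' ≠ j' < n`, `T = 3 i`, `2 / NN l = 2^(-(l+2))`. -/

set_option autoImplicit false
open MeasureTheory Real Set
open scoped ENNReal

namespace Pool.Agent.Helper18.HY

open Pool.Agent.Helper18.UC (T2 rep toT nn)
open Pool.Agent.Helper18.FD (NN rr pr cl uu lm Bump k1 k2 NN_pos NN_ge)
open Pool.Agent.Helper95.PV (Ix Om PP lv rp tc inn out cel upd mv mu Pt rv)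

variable {d : Dat}

theorem close (hd : d.Ok) (hl : d.Low) :
    ∃ A : ℝ, 1 ≤ A ∧ ∀ j k : ℕ, 1 ≤ k → k ≤ 2 ^ j → ∀ T : ℝ, 0 ≤ T → ∀ ρ : ℝ, 0 < ρ →
      ρ ≤ (2 : ℝ) ^ (-(A * (j + 2) * (T + A * (j + 2) ^ 2))) → qd d k ρ ≤ (2 : ℝ) ^ (-T) := by
  have ha : 0 < |d.a| := lt_of_lt_of_le (by norm_num) hd.ha
  have haκ : 0 < |d.a| * d.κ := mul_pos ha hd.hκ
  obtain ⟨l0, hl0⟩ := Filter.eventually_atTop.1 (hl 1 one_pos)
  obtain ⟨B', hB'⟩ : ∃ B' : ℝ, B' = NN l0 := ⟨_, rfl⟩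
  have hB'1 : 1 ≤ B' := by rw [hB']; exact le_trans (by norm_num) (NN_ge l0)
  have hE : ∀ l : ℕ, 1 ≤ Real.exp ((l : ℝ) ^ (1 / 3 : ℝ)) := fun l =>
    Real.one_le_exp (Real.rpow_nonneg (Nat.cast_nonneg l) _)
  have hk : ∀ l : ℕ, 1 / d.k l ≤ B' * Real.exp ((l : ℝ) ^ (1 / 3 : ℝ)) := by
    intro l
    rcases le_total l0 l with h | h
    · have h1 := hl0 l h
      rw [one_mul, Real.exp_neg] at h1
      have h2 : 1 / d.k l ≤ Real.exp ((l : ℝ) ^ (1 / 3 : ℝ)) := by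
        rw [one_div]
        exact inv_le_of_inv_le₀ (Real.exp_pos _) h1
      exact h2.trans (le_mul_of_one_le_left (Real.exp_pos _).le hB'1)
    · have h1 : 1 / d.k l ≤ NN l := by
        have h2 := hd.hk l
        rw [one_div] at h2 ⊢
        exact inv_le_of_inv_le₀ (NN_pos l) h2
      have h3 : (NN l : ℝ) ≤ B' := by
        rw [hB']
        unfold NN
        push_cast
        exact pow_le_pow_right₀ (by norm_num) (by omega)
      exact (h1.trans h3).trans (le_mul_of_one_le_right (by linarith) (hE l))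
  have hDe : ∀ l, De d l = 1 + NN l * (1 / d.k l) / (2 * (|d.a| * d.κ)) := by
    intro l
    unfold De
    have h1 := (NN_pos l).ne'
    have h2 := (hd.hk0 l).ne'
    have h3 := ha.ne'
    have h4 := hd.hκ.ne'
    field_simp
  have hBp : 0 ≤ B' / (2 * (|d.a| * d.κ)) := div_nonneg (by linarith) (by linarith)
  refine rec_cube (q := qd d) (D := De d) (N := fun l => (NN l : ℝ)) (B := 1 + B' / (2 * (|d.a| * d.κ)))
    (fun l => by unfold NN; push_cast; rfl) (qd_mono d) (fun ρ hρ => qd_one hd hρ)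
    (fun ρ hρ => qd_two hd hρ) ?_ (by linarith) ?_ (fun k hk l ρ hρ => qd_rec hd hk l hρ)
  · intro l
    unfold De
    have h1 : 0 ≤ 1 / (2 * (|d.a| * d.κ * (d.k l / NN l))) := by
      apply one_div_nonneg.2
      exact mul_nonneg (by norm_num) (mul_nonneg haκ.le (div_nonneg (hd.hk0' l) (NN_pos l).le))
    linarith
  · intro l
    rw [hDe l]
    have h1 : NN l * (1 / d.k l) / (2 * (|d.a| * d.κ)) ≤
        NN l * (B' * Real.exp ((l : ℝ) ^ (1 / 3 : ℝ))) / (2 * (|d.a| * d.κ)) := by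
      apply div_le_div_of_nonneg_right _ (by linarith)
      exact mul_le_mul_of_nonneg_left (hk l) (NN_pos l).le
    have h2 : (1 : ℝ) ≤ NN l * Real.exp ((l : ℝ) ^ (1 / 3 : ℝ)) := by
      have h3 := NN_ge l
      have h4 := hE l
      nlinarith
    calc 1 + NN l * (1 / d.k l) / (2 * (|d.a| * d.κ))
        ≤ NN l * Real.exp ((l : ℝ) ^ (1 / 3 : ℝ)) +
          NN l * (B' * Real.exp ((l : ℝ) ^ (1 / 3 : ℝ))) / (2 * (|d.a| * d.κ)) := add_le_add h2 h1
      _ = (1 + B' / (2 * (|d.a| * d.κ))) * NN l * Real.exp ((l : ℝ) ^ (1 / 3 : ℝ)) := by ring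

theorem lint_le {X : Type*} [MeasurableSpace X] {μ : Measure X} [IsProbabilityMeasure μ] {f : X → ℝ≥0∞}
    (hf : Measurable f) {a b : ℝ} (ha : 0 ≤ a) (hb : 0 ≤ b)
    (h : ∀ i : ℕ, μ {x | ENNReal.ofReal (a + b * i) < f x} ≤ (2 : ℝ≥0∞)⁻¹ ^ i) :
    ∫⁻ x, f x ∂μ ≤ ENNReal.ofReal (a + 2 * b) := by
  classical
  have hS : ∀ i : ℕ, MeasurableSet {x | ENNReal.ofReal (a + b * i) < f x} := fun i =>
    measurableSet_lt measurable_const hf
  have hae : ∀ᵐ x ∂μ, ∃ i : ℕ, f x ≤ ENNReal.ofReal (a + b * i) := by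
    rw [ae_iff]
    have h1 : ∀ i : ℕ, μ {x | ¬ ∃ i : ℕ, f x ≤ ENNReal.ofReal (a + b * i)} ≤ (2 : ℝ≥0∞)⁻¹ ^ i := by
      intro i
      refine le_trans (measure_mono ?_) (h i)
      intro x hx
      simp only [mem_ofPred_eq, not_exists, not_le] at hx ⊢
      exact hx i
    refine le_antisymm ?_ bot_le
    refine ge_of_tendsto' (ENNReal.tendsto_pow_atTop_nhds_zero_of_lt_one ?_) h1
    exact ENNReal.inv_lt_one.2 (by norm_num)
  have hpt : ∀ᵐ x ∂μ, f x ≤ ENNReal.ofReal a + ENNReal.ofReal b *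
      ∑' i : ℕ, {x | ENNReal.ofReal (a + b * i) < f x}.indicator (fun _ => (1 : ℝ≥0∞)) x := by
    filter_upwards [hae] with x hx
    obtain ⟨i0, hi0⟩ : ∃ i0, i0 = Nat.find hx := ⟨_, rfl⟩
    have h1 : f x ≤ ENNReal.ofReal (a + b * i0) := by rw [hi0]; exact Nat.find_spec hx
    have h2 : (i0 : ℝ≥0∞) ≤ ∑' i : ℕ,
        {x | ENNReal.ofReal (a + b * i) < f x}.indicator (fun _ => (1 : ℝ≥0∞)) x := by
      calc (i0 : ℝ≥0∞) = ∑ i ∈ Finset.range i0, (1 : ℝ≥0∞) := by simp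
        _ = ∑ i ∈ Finset.range i0,
            {x | ENNReal.ofReal (a + b * i) < f x}.indicator (fun _ => (1 : ℝ≥0∞)) x := by
          apply Finset.sum_congr rfl
          intro i hi
          rw [Set.indicator_of_mem]
          rw [Finset.mem_range, hi0] at hi
          exact not_le.1 (Nat.find_min hx hi)
        _ ≤ _ := ENNReal.sum_le_tsum _
    calc f x ≤ ENNReal.ofReal (a + b * i0) := h1
      _ = ENNReal.ofReal a + ENNReal.ofReal b * i0 := by
        rw [ENNReal.ofReal_add ha (mul_nonneg hb (Nat.cast_nonneg _)), ENNReal.ofReal_mul hb,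
          ENNReal.ofReal_natCast]
      _ ≤ _ := by gcongr
  calc ∫⁻ x, f x ∂μ ≤ ∫⁻ x, (ENNReal.ofReal a + ENNReal.ofReal b *
      ∑' i : ℕ, {x | ENNReal.ofReal (a + b * i) < f x}.indicator (fun _ => (1 : ℝ≥0∞)) x) ∂μ :=
        lintegral_mono_ae hpt
    _ = ENNReal.ofReal a + ENNReal.ofReal b *
        ∑' i : ℕ, μ {x | ENNReal.ofReal (a + b * i) < f x} := by
      rw [lintegral_add_left measurable_const, lintegral_const, measure_univ, mul_one,
        lintegral_const_mul _ (Measurable.tsum fun i => measurable_const.indicator (hS i)),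
        lintegral_tsum fun i => (measurable_const.indicator (hS i)).aemeasurable]
      congr 2
      refine tsum_congr fun i => ?_
      rw [lintegral_indicator_const (hS i), one_mul]
    _ ≤ ENNReal.ofReal a + ENNReal.ofReal b * ∑' i : ℕ, (2 : ℝ≥0∞)⁻¹ ^ i := by
      gcongr with i
      exact h i
    _ = ENNReal.ofReal (a + 2 * b) := by
      rw [ENNReal.tsum_geometric, ENNReal.one_sub_inv_two, inv_inv, ENNReal.ofReal_add ha (by linarith),
        ENNReal.ofReal_mul (by norm_num : (0 : ℝ) ≤ 2), mul_comm (ENNReal.ofReal b)]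
      norm_num

private theorem lm_meas56 : Measurable lm := by
  unfold lm
  exact Measurable.ite measurableSet_Iic measurable_const
    (ENNReal.measurable_ofReal.comp Real.measurable_log.neg)

private theorem lt_of_lm56 {x α : ℝ} (hα : 0 ≤ α) (h : ENNReal.ofReal α < lm x) : x < Real.exp (-α) := by
  unfold lm at h
  split_ifs at h with hx
  · exact lt_of_le_of_lt hx (Real.exp_pos _)
  · rw [not_le] at hx
    have h1 : α < -Real.log x := (ENNReal.ofReal_lt_ofReal_iff_of_nonneg hα).1 h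
    rw [← Real.exp_log hx]
    exact Real.exp_lt_exp.2 (by linarith)

private theorem px_le56 (hd : d.Ok) {A : ℝ} (hA : ∀ j k : ℕ, 1 ≤ k → k ≤ 2 ^ j → ∀ T : ℝ, 0 ≤ T → ∀ ρ : ℝ, 0 < ρ →
      ρ ≤ (2 : ℝ) ^ (-(A * (j + 2) * (T + A * (j + 2) ^ 2))) → qd d k ρ ≤ (2 : ℝ) ^ (-T))
    {i a b : ℕ} (hab : a ≠ b) (ha : a ≤ 2 ^ i) (hb : b ≤ 2 ^ i) {T ρ : ℝ} (hT : 0 ≤ T) (hρ : 0 < ρ)
    (h : ρ ≤ (2 : ℝ) ^ (-(A * (i + 2) * (T + A * (i + 2) ^ 2)))) :
    mu {p | dist (px d a p) (px d b p) < ρ} ≤ ENNReal.ofReal ((2 : ℝ) ^ (-T)) := by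
  rw [qd_px hd hab]
  apply ENNReal.ofReal_le_ofReal
  exact hA i _ (by omega) (by omega) T hT ρ hρ h

theorem sep3 (hd : d.Ok) (hl : d.Low) : ∃ C : ℝ, 0 < C ∧ ∀ i k n : ℕ, k ≤ n → n ≤ 2 ^ i →
    ∫⁻ p, lm (sepd d k n p) ∂mu ≤ ENNReal.ofReal (C * ((i : ℝ) + 1) ^ 3) := by
  classical
  obtain ⟨A, hA1, hA⟩ := close hd hl
  have hA0 : 0 < A := lt_of_lt_of_le one_pos hA1
  refine ⟨4 * A + 8 * A ^ 2, by positivity, ?_⟩
  intro i k n hk hn
  have hlog : 0 < Real.log 2 := Real.log_pos (by norm_num)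
  have hlog1 : Real.log 2 ≤ 1 := by linarith [Real.log_two_lt_d9]
  obtain ⟨b, hb⟩ : ∃ b : ℝ, b = Real.log 2 * (A * (i + 2)) := ⟨_, rfl⟩
  obtain ⟨a, ha⟩ : ∃ a : ℝ, a = Real.log 2 * (A * (i + 2) * (i + A * (i + 2) ^ 2)) := ⟨_, rfl⟩
  have hb0 : 0 ≤ b := by rw [hb]; positivity
  have ha0 : 0 ≤ a := by rw [ha]; positivity
  have hmeas : Measurable fun p => lm (sepd d k n p) := lm_meas56.comp (meas_sepd hd k n)
  have h1 : ∀ m : ℕ, mu {p | ENNReal.ofReal (a + b * m) < lm (sepd d k n p)} ≤ (2 : ℝ≥0∞)⁻¹ ^ m := by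
    intro m
    obtain ⟨ρ, hρ⟩ : ∃ ρ : ℝ, ρ = Real.exp (-(a + b * m)) := ⟨_, rfl⟩
    have hρ0 : 0 < ρ := by rw [hρ]; exact Real.exp_pos _
    have hρ1 : ρ ≤ 1 := by
      rw [hρ]
      apply Real.exp_le_one_iff.2
      have : 0 ≤ b * m := mul_nonneg hb0 (Nat.cast_nonneg m)
      linarith
    have hρ2 : ρ ≤ (2 : ℝ) ^ (-(A * (i + 2) * (((i : ℝ) + m) + A * (i + 2) ^ 2))) := by
      rw [hρ, Real.rpow_def_of_pos (by norm_num : (0 : ℝ) < 2)]
      apply Real.exp_le_exp.2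
      rw [ha, hb]
      apply le_of_eq
      ring
    have hsub : {p | ENNReal.ofReal (a + b * m) < lm (sepd d k n p)} ⊆
        ⋃ j ∈ (Finset.range (n + 1)).erase k, {p | dist (px d j p) (px d k p) < ρ} := by
      intro p hp
      have h2 : sepd d k n p < ρ := by
        rw [hρ]
        exact lt_of_lm56 (add_nonneg ha0 (mul_nonneg hb0 (Nat.cast_nonneg m))) hp
      unfold sepd at h2
      obtain ⟨j, hj, hjl⟩ := (Finset.inf'_lt_iff _).1 h2
      have hjk : j ≠ k := by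
        rintro rfl
        rw [if_pos rfl] at hjl
        linarith
      rw [if_neg hjk] at hjl
      simp only [mem_iUnion]
      exact ⟨j, Finset.mem_erase.2 ⟨hjk, hj⟩, hjl⟩
    have hcard : ((Finset.range (n + 1)).erase k).card = n := by
      rw [Finset.card_erase_of_mem (Finset.mem_range.2 (by omega)), Finset.card_range]
      rfl
    calc mu {p | ENNReal.ofReal (a + b * m) < lm (sepd d k n p)}
        ≤ mu (⋃ j ∈ (Finset.range (n + 1)).erase k, {p | dist (px d j p) (px d k p) < ρ}) :=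
          measure_mono hsub
      _ ≤ ∑ j ∈ (Finset.range (n + 1)).erase k, mu {p | dist (px d j p) (px d k p) < ρ} :=
          measure_biUnion_finset_le _ _
      _ ≤ ∑ _j ∈ (Finset.range (n + 1)).erase k, ENNReal.ofReal ((2 : ℝ) ^ (-((i : ℝ) + m))) := by
          apply Finset.sum_le_sum
          intro j hj
          rw [Finset.mem_erase, Finset.mem_range] at hj
          exact px_le56 hd hA hj.1 (by omega) (by omega) (by positivity) hρ0 hρ2
      _ = n * ENNReal.ofReal ((2 : ℝ) ^ (-((i : ℝ) + m))) := by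
          rw [Finset.sum_const, hcard, nsmul_eq_mul]
      _ ≤ ((2 : ℝ≥0∞) ^ i) * ((2 : ℝ≥0∞)⁻¹ ^ i * (2 : ℝ≥0∞)⁻¹ ^ m) := by
          have e1 : ENNReal.ofReal ((2 : ℝ) ^ (-((i : ℝ) + m))) =
              (2 : ℝ≥0∞)⁻¹ ^ i * (2 : ℝ≥0∞)⁻¹ ^ m := by
            have e2 : (2 : ℝ) ^ (-((i : ℝ) + m)) = ((2 : ℝ) ^ (i + m))⁻¹ := by
              rw [Real.rpow_neg (by norm_num), ← Nat.cast_add, Real.rpow_natCast]
            rw [e2, ENNReal.ofReal_inv_of_pos (by positivity), ENNReal.ofReal_pow (by norm_num),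
              ← pow_add, ENNReal.inv_pow]
            norm_num
          rw [e1]
          gcongr
          exact_mod_cast hn
      _ = (2 : ℝ≥0∞)⁻¹ ^ m := by
          rw [← mul_assoc, ← mul_pow, ENNReal.mul_inv_cancel (by norm_num) (by norm_num), one_pow,
            one_mul]
  refine (lint_le hmeas ha0 hb0 h1).trans (ENNReal.ofReal_le_ofReal ?_)
  have hi : (0 : ℝ) ≤ i := Nat.cast_nonneg i
  have e : a + 2 * b = Real.log 2 * (A * (i + 2) * ((i + 2) + A * (i + 2) ^ 2)) := by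
    rw [ha, hb]
    ring
  rw [e]
  calc Real.log 2 * (A * (i + 2) * ((i + 2) + A * (i + 2) ^ 2))
      ≤ 1 * (A * (i + 2) * ((i + 2) + A * (i + 2) ^ 2)) := by gcongr
    _ ≤ (4 * A + 8 * A ^ 2) * ((i : ℝ) + 1) ^ 3 := by
      have h2 : (i : ℝ) + 2 ≤ 2 * (i + 1) := by linarith
      have h3 : (1 : ℝ) ≤ i + 1 := by linarith
      calc 1 * (A * ((i : ℝ) + 2) * ((i + 2) + A * (i + 2) ^ 2))
          ≤ 1 * (A * (2 * (i + 1)) * (2 * (i + 1) + A * (2 * (i + 1)) ^ 2)) := by gcongr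
        _ = 4 * A * ((i : ℝ) + 1) ^ 2 + 8 * A ^ 2 * ((i : ℝ) + 1) ^ 3 := by ring
        _ ≤ 4 * A * ((i : ℝ) + 1) ^ 3 + 8 * A ^ 2 * ((i : ℝ) + 1) ^ 3 := by
          gcongr ?_ * ?_ + _
          exact pow_le_pow_right₀ h3 (by norm_num)
        _ = _ := by ring

theorem iso_ae (hd : d.Ok) (hl : d.Low) : ∃ C : ℝ, 0 < C ∧ ∀ i l : ℕ, C * ((i : ℝ) + 1) ^ 3 ≤ l →
    mu {p | ¬ iso d l (2 ^ i) p} ≤ ENNReal.ofReal ((2 : ℝ) ^ (-(i : ℝ))) := by
  classical
  obtain ⟨A, hA1, hA⟩ := close hd hl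
  have hA0 : 0 < A := lt_of_lt_of_le one_pos hA1
  refine ⟨6 * A + 8 * A ^ 2, by positivity, ?_⟩
  intro i l hil
  have hi : (0 : ℝ) ≤ i := Nat.cast_nonneg i
  have h3 : (1 : ℝ) ≤ i + 1 := by linarith
  have hle : A * (i + 2) * (3 * (i : ℝ) + A * (i + 2) ^ 2) ≤ l := by
    refine le_trans ?_ hil
    have h2 : (i : ℝ) + 2 ≤ 2 * (i + 1) := by linarith
    calc A * ((i : ℝ) + 2) * (3 * (i : ℝ) + A * (i + 2) ^ 2)
        ≤ A * (2 * (i + 1)) * (3 * (i + 1) + A * (2 * (i + 1)) ^ 2) := by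
          gcongr
          linarith
      _ = 6 * A * ((i : ℝ) + 1) ^ 2 + 8 * A ^ 2 * ((i : ℝ) + 1) ^ 3 := by ring
      _ ≤ 6 * A * ((i : ℝ) + 1) ^ 3 + 8 * A ^ 2 * ((i : ℝ) + 1) ^ 3 := by
        gcongr ?_ * ?_ + _
        exact pow_le_pow_right₀ h3 (by norm_num)
      _ = _ := by ring
  have hρ0 : (0 : ℝ) < 2 / NN l := div_pos (by norm_num) (NN_pos l)
  have hρ : 2 / (NN l : ℝ) ≤ (2 : ℝ) ^ (-(A * (i + 2) * (3 * (i : ℝ) + A * (i + 2) ^ 2))) := by
    have e : 2 / (NN l : ℝ) = (2 : ℝ) ^ (-((l : ℝ) + 2)) := by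
      have e2 : (2 : ℝ) ^ (-((l : ℝ) + 2)) = ((2 : ℝ) ^ (l + 2))⁻¹ := by
        rw [Real.rpow_neg (by norm_num)]
        congr 1
        rw [← Real.rpow_natCast]
        push_cast
        rfl
      rw [e2]
      unfold NN
      push_cast
      rw [show l + 3 = (l + 2) + 1 from rfl, pow_succ (2 : ℝ) (l + 2)]
      field_simp
    rw [e]
    exact Real.rpow_le_rpow_of_exponent_le (by norm_num) (by linarith)
  have hsub : {p | ¬ iso d l (2 ^ i) p} ⊆ ⋃ x ∈ (Finset.range (2 ^ i) ×ˢ Finset.range (2 ^ i)).filter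
      (fun x => x.1 ≠ x.2), {p | dist (px d x.1 p) (px d x.2 p) < 2 / NN l} := by
    intro p hp
    have h4 : ¬ iso d l (2 ^ i) p := hp
    unfold iso at h4
    push Not at h4
    obtain ⟨a, ha, b, hb, hab, h5⟩ := h4
    simp only [mem_iUnion]
    exact ⟨(a, b), Finset.mem_filter.2 ⟨Finset.mem_product.2
      ⟨Finset.mem_range.2 ha, Finset.mem_range.2 hb⟩, hab⟩, h5⟩
  calc mu {p | ¬ iso d l (2 ^ i) p}
      ≤ mu (⋃ x ∈ (Finset.range (2 ^ i) ×ˢ Finset.range (2 ^ i)).filter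
        (fun x => x.1 ≠ x.2), {p | dist (px d x.1 p) (px d x.2 p) < 2 / NN l}) := measure_mono hsub
    _ ≤ ∑ x ∈ (Finset.range (2 ^ i) ×ˢ Finset.range (2 ^ i)).filter
        (fun x => x.1 ≠ x.2), mu {p | dist (px d x.1 p) (px d x.2 p) < 2 / NN l} :=
        measure_biUnion_finset_le _ _
    _ ≤ ∑ _x ∈ (Finset.range (2 ^ i) ×ˢ Finset.range (2 ^ i)).filter
        (fun x => x.1 ≠ x.2), ENNReal.ofReal ((2 : ℝ) ^ (-(3 * (i : ℝ)))) := by
        apply Finset.sum_le_sum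
        intro x hx
        rw [Finset.mem_filter, Finset.mem_product, Finset.mem_range, Finset.mem_range] at hx
        exact px_le56 hd hA hx.2 hx.1.1.le hx.1.2.le (by positivity) hρ0 hρ
    _ ≤ ((2 ^ i * 2 ^ i : ℕ) : ℝ≥0∞) * ENNReal.ofReal ((2 : ℝ) ^ (-(3 * (i : ℝ)))) := by
        rw [Finset.sum_const, nsmul_eq_mul]
        gcongr
        refine (Finset.card_filter_le _ _).trans (le_of_eq ?_)
        rw [Finset.card_product, Finset.card_range]
    _ = ENNReal.ofReal ((2 : ℝ) ^ (-(i : ℝ))) := by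
        rw [← ENNReal.ofReal_natCast, ← ENNReal.ofReal_mul (Nat.cast_nonneg _)]
        congr 1
        have e1 : ((2 ^ i * 2 ^ i : ℕ) : ℝ) = (2 : ℝ) ^ (2 * (i : ℝ)) := by
          push_cast
          rw [← pow_add, ← Real.rpow_natCast]
          congr 1
          push_cast
          ring
        rw [e1, ← Real.rpow_add (by norm_num)]
        congr 1
        ring

end Pool.Agent.Helper18.HY
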