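import Pool.Agent.Helper18.HY.GrowA
import Pool.Agent.Helper18.HY.Sep

/-! Block HY-GROWB: the growth of the derivative on windows of length `2^i`.

`C` from `iso_ae`; `l = ⌈C (i+1)^3⌉`; `d.Low` with small `δ` (`δ (2 C)^(1/3) (i+1) ≤ (log 2/20)(i+1)`, say) gives `sg d l ≥ 2^(-i/8)` for large `i` (`sg d l = |a| κ k_l`), and `sg d l ≤ 1` for large `l` (`k` is summable, so tends to `0`). Window `2^i = 2 n`, `n = 2^(i-1)`:
`(1 - σ^2/200000)^n ≤ exp (-σ^2 n/200000) ≤ exp (-2^(3i/4)/400000)`. Markov: `mu {iso, nn (Mm) < exp (2^(i/2))} ≤ exp (2^(i/2)) * exp (-2^(3i/4)/400000) → 0`, and `mu {not iso} ≤ 2^(-i)`. -/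

set_option autoImplicit false
open MeasureTheory Real Set
open scoped ENNReal

namespace Pool.Agent.Helper18.HY

open Pool.Agent.Helper18.UC (T2 rep toT nn)
open Pool.Agent.Helper18.FD (NN rr pr cl uu lm Bump k1 k2 NN_pos NN_ge)
open Pool.Agent.Helper95.PV (Ix Om PP lv rp tc inn out cel upd mv mu Pt rv)

variable {d : Dat}

private lemma cube24 : Filter.Tendsto (fun i : ℕ => ((i : ℝ) + 1) ^ 3) Filter.atTop
    Filter.atTop :=
  (Filter.tendsto_pow_atTop three_ne_zero).comp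
    (Filter.tendsto_atTop_add_const_right _ _ tendsto_natCast_atTop_atTop)

private lemma lev24 {C : ℝ} (hC : 0 < C) :
    Filter.Tendsto (fun i : ℕ => ⌈C * ((i : ℝ) + 1) ^ 3⌉₊) Filter.atTop Filter.atTop :=
  tendsto_nat_ceil_atTop.comp (Filter.Tendsto.const_mul_atTop hC cube24)

/-- the size of the flips at the level `⌈C (i+1)^3⌉` -/
private lemma sg24 (hd : d.Ok) (hl : d.Low) {C : ℝ} (hC : 0 < C) : ∀ᶠ i : ℕ in Filter.atTop,
    (2 : ℝ) ^ (-((i : ℝ) / 8)) ≤ sg d ⌈C * ((i : ℝ) + 1) ^ 3⌉₊ ∧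
      sg d ⌈C * ((i : ℝ) + 1) ^ 3⌉₊ ≤ 1 := by
  have hA : 0 < |d.a| := by linarith [hd.ha]
  have hlog : 0 < Real.log 2 := Real.log_pos one_lt_two
  have hC1 : 0 < (C + 1) ^ (1 / 3 : ℝ) := Real.rpow_pos_of_pos (by linarith) _
  set δ : ℝ := Real.log 2 / (16 * (C + 1) ^ (1 / 3 : ℝ)) with hδ
  have hδ0 : 0 < δ := by positivity
  have e1 := (lev24 hC).eventually (hl δ hδ0)
  have hz : Filter.Tendsto (fun l => |d.a| * d.κ * d.k l) Filter.atTop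
      (nhds (|d.a| * d.κ * 0)) := hd.hs.tendsto_atTop_zero.const_mul _
  rw [mul_zero] at hz
  have e2 := (lev24 hC).eventually (hz.eventually (ge_mem_nhds (zero_lt_one)))
  have h3 : Filter.Tendsto (fun i : ℕ => Real.exp (Real.log 2 / 16 * ((i : ℝ) + (-1)))) Filter.atTop
      Filter.atTop := by
    refine Real.tendsto_exp_atTop.comp (Filter.Tendsto.const_mul_atTop (by positivity) ?_)
    exact Filter.tendsto_atTop_add_const_right _ _ tendsto_natCast_atTop_atTop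
  have e3 := h3.eventually (Filter.eventually_ge_atTop (1 / (100 * d.κ)))
  filter_upwards [e1, e2, e3] with i h1 h2 h4
  refine ⟨?_, h2⟩
  have hκ := hd.hκ
  have hi0 : (0 : ℝ) ≤ i := Nat.cast_nonneg i
  have hc : (⌈C * ((i : ℝ) + 1) ^ 3⌉₊ : ℝ) ≤ (C + 1) * ((i : ℝ) + 1) ^ 3 := by
    have h5 : (⌈C * ((i : ℝ) + 1) ^ 3⌉₊ : ℝ) < C * ((i : ℝ) + 1) ^ 3 + 1 :=
      Nat.ceil_lt_add_one (by positivity)
    have h6 : (1 : ℝ) ≤ ((i : ℝ) + 1) ^ 3 := one_le_pow₀ (by linarith)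
    nlinarith
  have hr : (⌈C * ((i : ℝ) + 1) ^ 3⌉₊ : ℝ) ^ (1 / 3 : ℝ) ≤
      (C + 1) ^ (1 / 3 : ℝ) * ((i : ℝ) + 1) := by
    calc (⌈C * ((i : ℝ) + 1) ^ 3⌉₊ : ℝ) ^ (1 / 3 : ℝ)
        ≤ ((C + 1) * ((i : ℝ) + 1) ^ 3) ^ (1 / 3 : ℝ) :=
          Real.rpow_le_rpow (Nat.cast_nonneg _) hc (by norm_num)
      _ = (C + 1) ^ (1 / 3 : ℝ) * ((i : ℝ) + 1) := by
          rw [Real.mul_rpow (by linarith) (by positivity)]
          congr 1
          rw [← Real.rpow_natCast, ← Real.rpow_mul (by positivity)]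
          norm_num
  have hdl : δ * (⌈C * ((i : ℝ) + 1) ^ 3⌉₊ : ℝ) ^ (1 / 3 : ℝ) ≤
      Real.log 2 / 16 * ((i : ℝ) + 1) := by
    calc δ * (⌈C * ((i : ℝ) + 1) ^ 3⌉₊ : ℝ) ^ (1 / 3 : ℝ)
        ≤ δ * ((C + 1) ^ (1 / 3 : ℝ) * ((i : ℝ) + 1)) := mul_le_mul_of_nonneg_left hr hδ0.le
      _ = Real.log 2 / 16 * ((i : ℝ) + 1) := by
          rw [hδ]
          field_simp
  have hk : Real.exp (-(Real.log 2 / 16 * ((i : ℝ) + 1))) ≤ d.k ⌈C * ((i : ℝ) + 1) ^ 3⌉₊ :=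
    le_trans (Real.exp_le_exp.mpr (neg_le_neg hdl)) h1
  have h7 : 1 ≤ 100 * d.κ * Real.exp (Real.log 2 / 16 * ((i : ℝ) + (-1))) := by
    rw [div_le_iff₀ (by positivity)] at h4
    linarith
  have h8 : (2 : ℝ) ^ (-((i : ℝ) / 8)) =
      Real.exp (-(Real.log 2 / 16 * ((i : ℝ) + (-1)))) *
        Real.exp (-(Real.log 2 / 16 * ((i : ℝ) + 1))) := by
    rw [← Real.exp_add, Real.rpow_def_of_pos two_pos]
    congr 1
    ring
  rw [h8]
  unfold sg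
  have h9 : Real.exp (-(Real.log 2 / 16 * ((i : ℝ) + (-1)))) ≤ |d.a| * d.κ := by
    rw [Real.exp_neg]
    rw [inv_le_iff_one_le_mul₀ (Real.exp_pos _)]
    refine le_trans h7 ?_
    rw [mul_comm (|d.a| * d.κ), mul_comm (100 * d.κ)]
    exact mul_le_mul_of_nonneg_left (mul_le_mul_of_nonneg_right hd.ha hκ.le) (Real.exp_pos _).le
  exact mul_le_mul h9 hk (Real.exp_pos _).le (by positivity)

private lemma asy24 {ε : ℝ} (hε : 0 < ε) : ∀ᶠ i : ℕ in Filter.atTop,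
    Real.exp ((2 : ℝ) ^ ((i : ℝ) / 2)) * Real.exp (-((2 : ℝ) ^ (3 * (i : ℝ) / 4) / 400000)) +
      (2 : ℝ) ^ (-(i : ℝ)) ≤ ε := by
  have h1 : Filter.Tendsto (fun i : ℕ => (2 : ℝ) ^ ((i : ℝ) / 4)) Filter.atTop Filter.atTop := by
    have h2 : (fun i : ℕ => (2 : ℝ) ^ ((i : ℝ) / 4)) = fun i : ℕ => ((2 : ℝ) ^ (1 / 4 : ℝ)) ^ i := by
      funext i
      rw [← Real.rpow_natCast, ← Real.rpow_mul (by norm_num)]
      congr 1
      ring
    rw [h2]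
    exact tendsto_pow_atTop_atTop_of_one_lt (Real.one_lt_rpow one_lt_two (by norm_num))
  have h3 : Filter.Tendsto (fun i : ℕ => Real.exp (-((2 : ℝ) ^ ((i : ℝ) / 4)))) Filter.atTop
      (nhds 0) := Real.tendsto_exp_neg_atTop_nhds_zero.comp h1
  have h4 : Filter.Tendsto (fun i : ℕ => ((2 : ℝ) ^ ((i : ℝ) / 4))⁻¹) Filter.atTop (nhds 0) :=
    tendsto_inv_atTop_zero.comp h1
  filter_upwards [h1.eventually (Filter.eventually_ge_atTop 800000),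
    h3.eventually (ge_mem_nhds (half_pos hε)), h4.eventually (ge_mem_nhds (half_pos hε))]
    with i k1 k2 k3
  obtain ⟨x, hx⟩ : ∃ x : ℝ, x = (2 : ℝ) ^ ((i : ℝ) / 4) := ⟨_, rfl⟩
  have e1 : (2 : ℝ) ^ ((i : ℝ) / 2) = x ^ 2 := by
    rw [hx, ← Real.rpow_natCast, ← Real.rpow_mul (by norm_num)]
    congr 1
    push_cast
    ring
  have e2 : (2 : ℝ) ^ (3 * (i : ℝ) / 4) = x ^ 3 := by
    rw [hx, ← Real.rpow_natCast, ← Real.rpow_mul (by norm_num)]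
    congr 1
    push_cast
    ring
  have e3 : (2 : ℝ) ^ (-(i : ℝ)) = (x ^ 4)⁻¹ := by
    rw [hx, ← Real.rpow_natCast, ← Real.rpow_mul (by norm_num), Real.rpow_neg (by norm_num)]
    congr 2
    push_cast
    ring
  rw [e1, e2, e3, ← Real.exp_add]
  rw [← hx] at k1 k2 k3
  have hx0 : 0 < x := by linarith
  have f1 : x ^ 2 + -(x ^ 3 / 400000) ≤ -x := by
    have : x ^ 2 * (x - 800000) ≥ 0 := mul_nonneg (sq_nonneg x) (by linarith)
    nlinarith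
  have f2 : (x ^ 4)⁻¹ ≤ x⁻¹ := by
    apply inv_anti₀ hx0
    calc x = x ^ 1 := (pow_one x).symm
      _ ≤ x ^ 4 := pow_le_pow_right₀ (by linarith) (by norm_num)
  calc Real.exp (x ^ 2 + -(x ^ 3 / 400000)) + (x ^ 4)⁻¹ ≤ Real.exp (-x) + x⁻¹ :=
        add_le_add (Real.exp_le_exp.mpr f1) f2
    _ ≤ ε / 2 + ε / 2 := add_le_add k2 k3
    _ = ε := by ring

theorem grow (hd : d.Ok) (hl : d.Low) : ∀ ε : ℝ, 0 < ε → ∃ i₀ : ℕ, ∀ i ≥ i₀,
    mu.real {p | Real.log (nn (Mm d (2 ^ i) p)) < (2 : ℝ) ^ ((i : ℝ) / 2)} ≤ ε := by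
  classical
  intro ε hε
  obtain ⟨C, hC, hiso⟩ := iso_ae hd hl
  obtain ⟨i₀, hi₀⟩ := Filter.eventually_atTop.mp ((sg24 hd hl hC).and (asy24 hε))
  refine ⟨max i₀ 1, fun i hi => ?_⟩
  obtain ⟨⟨hs1, hs2⟩, hasy⟩ := hi₀ i (le_trans (le_max_left _ _) hi)
  have hi1 : 1 ≤ i := le_trans (le_max_right _ _) hi
  set l : ℕ := ⌈C * ((i : ℝ) + 1) ^ 3⌉₊ with hl'
  have hln : 2 * 2 ^ (i - 1) = 2 ^ i := by
    rw [← pow_succ']
    congr 1
    omega
  have hnn : ∀ p, 2 ≤ nn (Mm d (2 ^ i) p) := fun p =>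
    Pool.Agent.Helper95.PV.nn_ge_two (det_Mm (d := d) (2 ^ i) p)
  set f : Pt → ℝ := fun p => if iso d l (2 ^ i) p then (nn (Mm d (2 ^ i) p))⁻¹ else 0 with hf
  have hf0 : ∀ p, 0 ≤ f p := by
    intro p
    rw [hf]
    dsimp only
    split_ifs
    · exact inv_nonneg.mpr (by linarith [hnn p])
    · exact le_rfl
  have hf1 : ∀ p, f p ≤ 1 := by
    intro p
    rw [hf]
    dsimp only
    split_ifs
    · exact inv_le_one_of_one_le₀ (by linarith [hnn p])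
    · exact zero_le_one
  have hfm : Measurable f := Measurable.ite (meas_iso hd l (2 ^ i)) (meas_nn hd (2 ^ i)).inv
    measurable_const
  have hfi : Integrable f mu := by
    refine Integrable.of_bound hfm.aestronglyMeasurable 1 (Filter.Eventually.of_forall fun p => ?_)
    rw [Real.norm_eq_abs, abs_of_nonneg (hf0 p)]
    exact hf1 p
  have hint : ∫ p, f p ∂mu ≤ Real.exp (-((2 : ℝ) ^ (3 * (i : ℝ) / 4) / 400000)) := by
    have h1 := grow_int hd l (2 ^ (i - 1)) hs2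
    rw [hln] at h1
    refine le_trans h1 ?_
    have h2 : 1 - sg d l ^ 2 / 200000 ≤ Real.exp (-(sg d l ^ 2 / 200000)) := by
      have := Real.add_one_le_exp (-(sg d l ^ 2 / 200000))
      linarith
    have h3 : 0 ≤ 1 - sg d l ^ 2 / 200000 := by
      have h4 := sg_pos hd l
      have : sg d l ^ 2 ≤ 1 := by nlinarith
      linarith
    refine le_trans (pow_le_pow_left₀ h3 h2 _) ?_
    rw [← Real.exp_nat_mul]
    apply Real.exp_le_exp.mpr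
    have h5 : ((2 : ℝ) ^ (-((i : ℝ) / 8))) ^ 2 ≤ sg d l ^ 2 :=
      pow_le_pow_left₀ (Real.rpow_nonneg (by norm_num) _) hs1 2
    have h6 : (2 : ℝ) ^ (3 * (i : ℝ) / 4) / 400000 =
        ((2 ^ (i - 1) : ℕ) : ℝ) * (((2 : ℝ) ^ (-((i : ℝ) / 8))) ^ 2 / 200000) := by
      have h7 : ((2 ^ (i - 1) : ℕ) : ℝ) = (2 : ℝ) ^ (i : ℝ) / 2 := by
        rw [Real.rpow_natCast]
        have : ((2 ^ i : ℕ) : ℝ) = 2 * ((2 ^ (i - 1) : ℕ) : ℝ) := by
          rw [← hln]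
          push_cast
          ring
        push_cast at this ⊢
        linarith
      rw [h7]
      have h8 : (2 : ℝ) ^ (3 * (i : ℝ) / 4) =
          (2 : ℝ) ^ (i : ℝ) * ((2 : ℝ) ^ (-((i : ℝ) / 8))) ^ 2 := by
        rw [← Real.rpow_natCast, ← Real.rpow_mul (by norm_num), ← Real.rpow_add (by norm_num)]
        congr 1
        push_cast
        ring
      rw [h8]
      ring
    rw [h6, ← mul_neg]
    apply mul_le_mul_of_nonneg_left _ (Nat.cast_nonneg _)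
    linarith
  have hsub : {p | Real.log (nn (Mm d (2 ^ i) p)) < (2 : ℝ) ^ ((i : ℝ) / 2)} ⊆
      {p | Real.exp (-((2 : ℝ) ^ ((i : ℝ) / 2))) ≤ f p} ∪ {p | ¬ iso d l (2 ^ i) p} := by
    intro p hp
    by_cases h : iso d l (2 ^ i) p
    · left
      show Real.exp (-((2 : ℝ) ^ ((i : ℝ) / 2))) ≤ f p
      rw [hf]
      dsimp only
      rw [if_pos h, Real.exp_neg]
      have h0 : 0 < nn (Mm d (2 ^ i) p) := by linarith [hnn p]
      apply inv_anti₀ h0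
      rw [← Real.exp_log h0]
      exact Real.exp_le_exp.mpr (le_of_lt hp)
    · right
      exact h
  have hmk : mu.real {p | Real.exp (-((2 : ℝ) ^ ((i : ℝ) / 2))) ≤ f p} ≤
      Real.exp ((2 : ℝ) ^ ((i : ℝ) / 2)) * Real.exp (-((2 : ℝ) ^ (3 * (i : ℝ) / 4) / 400000)) := by
    have h1 := mul_meas_ge_le_integral_of_nonneg (Filter.Eventually.of_forall hf0) hfi
      (Real.exp (-((2 : ℝ) ^ ((i : ℝ) / 2))))
    have h2 := le_trans h1 hint
    have h3 : 0 < Real.exp ((2 : ℝ) ^ ((i : ℝ) / 2)) := Real.exp_pos _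
    calc mu.real {p | Real.exp (-((2 : ℝ) ^ ((i : ℝ) / 2))) ≤ f p}
        = Real.exp ((2 : ℝ) ^ ((i : ℝ) / 2)) * (Real.exp (-((2 : ℝ) ^ ((i : ℝ) / 2))) *
          mu.real {p | Real.exp (-((2 : ℝ) ^ ((i : ℝ) / 2))) ≤ f p}) := by
          rw [← mul_assoc, ← Real.exp_add, add_neg_cancel, Real.exp_zero, one_mul]
      _ ≤ _ := mul_le_mul_of_nonneg_left h2 h3.le
  have hni : mu.real {p | ¬ iso d l (2 ^ i) p} ≤ (2 : ℝ) ^ (-(i : ℝ)) :=
    ENNReal.toReal_le_of_le_ofReal (Real.rpow_nonneg (by norm_num) _)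
      (hiso i l (Nat.le_ceil _))
  calc mu.real {p | Real.log (nn (Mm d (2 ^ i) p)) < (2 : ℝ) ^ ((i : ℝ) / 2)}
      ≤ mu.real ({p | Real.exp (-((2 : ℝ) ^ ((i : ℝ) / 2))) ≤ f p} ∪
          {p | ¬ iso d l (2 ^ i) p}) := measureReal_mono hsub
    _ ≤ mu.real {p | Real.exp (-((2 : ℝ) ^ ((i : ℝ) / 2))) ≤ f p} +
          mu.real {p | ¬ iso d l (2 ^ i) p} := measureReal_union_le _ _
    _ ≤ _ := add_le_add hmk hni
    _ ≤ ε := hasy

end Pool.Agent.Helper18.HY
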