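import Pool.Agent.Helper18.SD.King

/-! Block HY-SOFT: abstract. Almost additivity at the times `2^i` up to errors `O(i^3)` in the mean, and growth at least `2^(i/2)` with probability tending to one, imply a positive limit almost everywhere. Independent of the rest.

`kingman_bdd` gives `G`, `G ∘ T = G` and `g n / n → G` almost everywhere, `G ≥ 0` almost everywhere. Let `Z = {G = 0}` (measurable, `T⁻¹ Z = Z` almost everywhere), `b i = ∫_Z g (2^i)`. `T^(2^i)` preserves `μ` restricted to `Z`, so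
`2 b i ≤ b (i+1) + ∫ e_i ≤ b (i+1) + C1 (i+1)^3` (`i ≥ 1`); so `b i / 2^i` satisfies `b (i+1)/2^(i+1) ≥ b i/2^i - C1 (i+1)^3/2^(i+1)`. By dominated convergence `b i / 2^i → ∫_Z G = 0` (`|g n / n| ≤ C`). Hence `b i / 2^i ≤ Σ_{j ≥ i} C1 (j+1)^3/2^(j+1) ≤ C2 (i+1)^3/2^i`.
If `μ Z = p > 0` then for large `i`, with `ε = p/2`: `b i ≥ 2^(i/2) (p - p/2)`, so `2^(i/2) p/2 ≤ C2 (i+1)^3`, false for large `i`. -/

set_option autoImplicit false
open MeasureTheory Real Set Filter Topology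

namespace Pool.Agent.Helper18.HY

/-- the numerical inequality behind the telescoping bound -/
private theorem num47 {s : ℝ} (hs : 4 ≤ s) : s ^ 3 ≤ 22 * (2 * s ^ 3 - (s + 1) ^ 3) := by
  nlinarith [mul_nonneg (sub_nonneg.2 hs) (sub_nonneg.2 hs), mul_nonneg (mul_nonneg (sub_nonneg.2 hs) (sub_nonneg.2 hs)) (sub_nonneg.2 hs), sq_nonneg s]

/-- almost super-doubling sequences whose quotients tend to zero are small -/
private theorem seq47 {b : ℕ → ℝ} {C1 : ℝ} (h0 : 0 ≤ C1)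
    (h1 : ∀ i : ℕ, 1 ≤ i → 2 * b i ≤ b (i + 1) + C1 * ((i : ℝ) + 1) ^ 3)
    (h2 : Tendsto (fun i : ℕ => b i / 2 ^ i) atTop (𝓝 0)) (i : ℕ) (hi : 3 ≤ i) :
    b i ≤ 22 * C1 * ((i : ℝ) + 1) ^ 3 := by
  set f : ℕ → ℝ := fun j => (b (j + 3) - 22 * C1 * (((j + 3 : ℕ) : ℝ) + 1) ^ 3) / 2 ^ (j + 3) with hf
  have hmono : Monotone f := by
    refine monotone_nat_of_le_succ fun j => ?_
    have e1 := h1 (j + 3) (by omega)
    have e2 := num47 (s := ((j + 3 : ℕ) : ℝ) + 1) (by push_cast; linarith [(Nat.cast_nonneg j : (0 : ℝ) ≤ j)])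
    have e3 := mul_le_mul_of_nonneg_left e2 h0
    simp only [hf]
    rw [show j + 1 + 3 = (j + 3) + 1 by ring, pow_succ, div_le_div_iff₀ (by positivity) (by positivity)]
    have e4 : (((j + 3 + 1 : ℕ) : ℝ)) = ((j + 3 : ℕ) : ℝ) + 1 := by push_cast; ring
    rw [e4]
    have hp : (0 : ℝ) < 2 ^ (j + 3) := by positivity
    set s : ℝ := ((j + 3 : ℕ) : ℝ) + 1 with hs
    have e5 : 2 * (b (j + 3) - 22 * C1 * s ^ 3) ≤ b (j + 3 + 1) - 22 * C1 * (s + 1) ^ 3 := by
      nlinarith [e1, e3]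
    calc (b (j + 3) - 22 * C1 * s ^ 3) * (2 ^ (j + 3) * 2)
        = (2 * (b (j + 3) - 22 * C1 * s ^ 3)) * 2 ^ (j + 3) := by ring
      _ ≤ (b (j + 3 + 1) - 22 * C1 * (s + 1) ^ 3) * 2 ^ (j + 3) := mul_le_mul_of_nonneg_right e5 hp.le
  have hlim : Tendsto f atTop (𝓝 0) := by
    have t1 : Tendsto (fun j : ℕ => b (j + 3) / 2 ^ (j + 3)) atTop (𝓝 0) := h2.comp (tendsto_add_atTop_nat 3)
    have t2 : Tendsto (fun n : ℕ => ((n : ℝ) ^ 3) / 2 ^ n) atTop (𝓝 0) := by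
      have := tendsto_pow_const_div_const_pow_of_one_lt 3 (by norm_num : (1 : ℝ) < 2)
      exact this
    have t3 : Tendsto (fun j : ℕ => (((j + 3 : ℕ) : ℝ) + 1) ^ 3 / 2 ^ (j + 3)) atTop (𝓝 0) := by
      have t4 := (t2.comp (tendsto_add_atTop_nat 4)).const_mul 2
      rw [mul_zero] at t4
      refine t4.congr fun j => ?_
      simp only [Function.comp]
      rw [show (((j + 4 : ℕ) : ℝ)) = ((j + 3 : ℕ) : ℝ) + 1 by push_cast; ring,
        show (2 : ℝ) ^ (j + 4) = 2 ^ (j + 3) * 2 by rw [← pow_succ]]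
      field_simp
    have t5 := t1.sub (t3.const_mul (22 * C1))
    rw [mul_zero, sub_zero] at t5
    refine t5.congr fun j => ?_
    simp only [hf]
    ring
  have h3 := hmono.ge_of_tendsto hlim (i - 3)
  simp only [hf] at h3
  rw [show i - 3 + 3 = i by omega] at h3
  have hp : (0 : ℝ) < 2 ^ i := by positivity
  by_contra hcon
  push_neg at hcon
  have : 0 < (b i - 22 * C1 * ((i : ℝ) + 1) ^ 3) / 2 ^ i := div_pos (by linarith) hp
  linarith

/-- exponentials beat cubes -/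
private theorem grow47 {p K : ℝ} (hp : 0 < p) (i₀ : ℕ) :
    ∃ i : ℕ, i₀ ≤ i ∧ 3 ≤ i ∧ K * ((i : ℝ) + 1) ^ 3 < (2 : ℝ) ^ ((i : ℝ) / 2) * p := by
  have t2 : Tendsto (fun n : ℕ => ((n : ℝ) ^ 3) / 2 ^ n) atTop (𝓝 0) :=
    tendsto_pow_const_div_const_pow_of_one_lt 3 (by norm_num : (1 : ℝ) < 2)
  have t3 := t2.const_mul (27 * |K|)
  rw [mul_zero] at t3
  obtain ⟨n, hn1, hn2⟩ := ((t3.eventually (gt_mem_nhds hp)).and (eventually_ge_atTop (i₀ + 3))).exists
  refine ⟨2 * n, by omega, by omega, ?_⟩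
  have e1 : (2 : ℝ) ^ (((2 * n : ℕ) : ℝ) / 2) = 2 ^ n := by
    rw [show (((2 * n : ℕ) : ℝ)) / 2 = (n : ℝ) by push_cast; ring, Real.rpow_natCast]
  rw [e1]
  have hpos : (0 : ℝ) < 2 ^ n := by positivity
  have hn3 : (1 : ℝ) ≤ n := by
    have : 1 ≤ n := by omega
    exact_mod_cast this
  have e2 : (((2 * n : ℕ) : ℝ) + 1) ^ 3 ≤ 27 * (n : ℝ) ^ 3 := by
    have e3 : (((2 * n : ℕ) : ℝ) + 1) ≤ 3 * n := by push_cast; linarith
    calc (((2 * n : ℕ) : ℝ) + 1) ^ 3 ≤ (3 * (n : ℝ)) ^ 3 := pow_le_pow_left₀ (by positivity) e3 3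
      _ = 27 * (n : ℝ) ^ 3 := by ring
  have e4 : K * (((2 * n : ℕ) : ℝ) + 1) ^ 3 ≤ |K| * (27 * (n : ℝ) ^ 3) :=
    mul_le_mul (le_abs_self K) e2 (by positivity) (abs_nonneg K)
  have e5 : 27 * |K| * ((n : ℝ) ^ 3 / 2 ^ n) < p := hn1
  have e6 : 27 * |K| * ((n : ℝ) ^ 3) < p * 2 ^ n := by
    rw [← mul_div_assoc, div_lt_iff₀ hpos] at e5
    exact e5
  nlinarith

theorem soft {X : Type*} [MeasurableSpace X] {μ : Measure X} [IsProbabilityMeasure μ] {T : X → X}
    (hT : MeasurePreserving T μ μ) {g : ℕ → X → ℝ} (hg : ∀ n, Measurable (g n)) {C C1 : ℝ}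
    (hC : ∀ n x, |g n x| ≤ C * n) (h0 : ∀ n x, 0 ≤ g n x)
    (hsub : ∀ n m x, g (n + m) x ≤ g n x + g m (T^[n] x))
    (hD : ∀ i : ℕ, 1 ≤ i → ∃ e : X → ℝ, Integrable e μ ∧ (∀ x, 0 ≤ e x) ∧ ∫ x, e x ∂μ ≤ C1 * ((i : ℝ) + 1) ^ 3 ∧
      ∀ x, g (2 ^ i) x + g (2 ^ i) (T^[2 ^ i] x) ≤ g (2 ^ (i + 1)) x + e x)
    (hG : ∀ ε : ℝ, 0 < ε → ∃ i₀ : ℕ, ∀ i ≥ i₀, μ.real {x | g (2 ^ i) x < (2 : ℝ) ^ ((i : ℝ) / 2)} ≤ ε) :
    ∃ G : X → ℝ, Measurable G ∧ (∀ᵐ x ∂μ, 0 < G x) ∧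
      ∀ᵐ x ∂μ, Tendsto (fun n : ℕ => g n x / n) atTop (𝓝 (G x)) := by
  obtain ⟨G, hG1, hG2, hG3, hG4, -⟩ := SD.kingman_bdd hT hg hC hsub
  refine ⟨G, hG1, ?_, hG4⟩
  -- integrability
  have hint : ∀ n, Integrable (g n) μ := fun n =>
    Integrable.of_bound (hg n).aestronglyMeasurable (C * n) (Eventually.of_forall fun x => by
      rw [Real.norm_eq_abs]; exact hC n x)
  -- the invariant set
  set Z : Set X := {x | G x ≤ 0} with hZ
  have hZm : MeasurableSet Z := measurableSet_le hG1 measurable_const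
  have hG0 : ∀ᵐ x ∂μ, 0 ≤ G x := by
    filter_upwards [hG4] with x hx
    exact ge_of_tendsto hx (Eventually.of_forall fun n => div_nonneg (h0 n x) (Nat.cast_nonneg n))
  have hC1 : 0 ≤ C1 := by
    obtain ⟨e, -, e2, e3, -⟩ := hD 1 le_rfl
    have : 0 ≤ ∫ x, e x ∂μ := integral_nonneg e2
    have h8 : C1 * (((1 : ℕ) : ℝ) + 1) ^ 3 = 8 * C1 := by push_cast; ring
    rw [h8] at e3
    linarith
  have hinv : ∀ n : ℕ, ∀ᵐ x ∂μ, G (T^[n] x) = G x := by
    intro n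
    induction n with
    | zero => exact Eventually.of_forall fun x => rfl
    | succ n ih =>
      have h1 : ∀ᵐ x ∂μ, G (T (T^[n] x)) = G (T^[n] x) := (hT.iterate n).quasiMeasurePreserving.ae hG3
      filter_upwards [ih, h1] with x hx1 hx2
      rw [Function.iterate_succ_apply', hx2, hx1]
  -- the restricted integral of a composition
  have hcomp : ∀ (n : ℕ) (f : X → ℝ), Measurable f → ∫ x in Z, f (T^[n] x) ∂μ = ∫ x in Z, f x ∂μ := by
    intro n f hf
    rw [← integral_indicator hZm, ← integral_indicator hZm]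
    have h1 : ∫ x, Z.indicator f x ∂μ = ∫ x, Z.indicator f (T^[n] x) ∂μ := by
      have hm : Measurable (Z.indicator f) := hf.indicator hZm
      have := (hT.iterate n).map_eq
      conv_lhs => rw [← this]
      rw [integral_map (hT.iterate n).measurable.aemeasurable hm.aestronglyMeasurable]
    rw [h1]
    refine integral_congr_ae ?_
    filter_upwards [hinv n] with x hx
    by_cases hxZ : x ∈ Z
    · have h2 : T^[n] x ∈ Z := by
        simp only [hZ, mem_setOf_eq] at hxZ ⊢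
        rw [hx]; exact hxZ
      simp only [indicator, hxZ, h2, if_true]
    · have h2 : T^[n] x ∉ Z := by
        simp only [hZ, mem_setOf_eq] at hxZ ⊢
        rw [hx]; exact hxZ
      simp only [indicator, hxZ, h2, if_false]
  set b : ℕ → ℝ := fun i => ∫ x in Z, g (2 ^ i) x ∂μ with hb
  have hb1 : ∀ i : ℕ, 1 ≤ i → 2 * b i ≤ b (i + 1) + C1 * ((i : ℝ) + 1) ^ 3 := by
    intro i hi
    obtain ⟨e, e1, e2, e3, e4⟩ := hD i hi
    have i1 : Integrable (fun x => g (2 ^ i) (T^[2 ^ i] x)) μ :=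
      (hT.iterate (2 ^ i)).integrable_comp_of_integrable (hint (2 ^ i))
    have h1 : 2 * b i = ∫ x in Z, (g (2 ^ i) x + g (2 ^ i) (T^[2 ^ i] x)) ∂μ := by
      rw [integral_add (hint _).integrableOn i1.integrableOn, hcomp (2 ^ i) _ (hg _)]
      simp only [hb]
      ring
    have h2 : ∫ x in Z, (g (2 ^ i) x + g (2 ^ i) (T^[2 ^ i] x)) ∂μ ≤ ∫ x in Z, (g (2 ^ (i + 1)) x + e x) ∂μ :=
      integral_mono ((hint _).integrableOn.add i1.integrableOn) ((hint _).integrableOn.add e1.integrableOn) e4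
    have h3 : ∫ x in Z, (g (2 ^ (i + 1)) x + e x) ∂μ = b (i + 1) + ∫ x in Z, e x ∂μ :=
      integral_add (hint _).integrableOn e1.integrableOn
    have h4 : ∫ x in Z, e x ∂μ ≤ ∫ x, e x ∂μ := setIntegral_le_integral e1 (Eventually.of_forall e2)
    linarith
  have hb2 : Tendsto (fun i : ℕ => b i / 2 ^ i) atTop (𝓝 0) := by
    have h1 : Tendsto (fun i : ℕ => ∫ x in Z, g (2 ^ i) x / ((2 ^ i : ℕ) : ℝ) ∂μ) atTop (𝓝 (∫ x in Z, G x ∂μ)) := by
      refine tendsto_integral_of_dominated_convergence (fun _ => |C|) (fun i => ?_) (integrable_const _) (fun i => ?_) ?_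
      · exact ((hg _).div_const _).aestronglyMeasurable
      · refine Eventually.of_forall fun x => ?_
        have hp : (0 : ℝ) < ((2 ^ i : ℕ) : ℝ) := by positivity
        rw [Real.norm_eq_abs, abs_div, abs_of_pos hp, div_le_iff₀ hp]
        exact (hC _ x).trans (mul_le_mul_of_nonneg_right (le_abs_self C) hp.le)
      · have h2 : ∀ᵐ x ∂(μ.restrict Z), Tendsto (fun n : ℕ => g n x / n) atTop (𝓝 (G x)) := ae_restrict_of_ae hG4
        filter_upwards [h2] with x hx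
        exact hx.comp (tendsto_pow_atTop_atTop_of_one_lt (by norm_num : 1 < 2))
    have h2 : ∫ x in Z, G x ∂μ = 0 := by
      refine integral_eq_zero_of_ae ?_
      have h3 : ∀ᵐ x ∂(μ.restrict Z), 0 ≤ G x := ae_restrict_of_ae hG0
      have h4 : ∀ᵐ x ∂(μ.restrict Z), x ∈ Z := ae_restrict_mem hZm
      filter_upwards [h3, h4] with x hx1 hx2
      exact le_antisymm hx2 hx1
    rw [h2] at h1
    refine h1.congr fun i => ?_
    rw [integral_div]
    push_cast
    rfl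
  -- positive measure is impossible
  have hnull : μ Z = 0 := by
    by_contra hcon
    have hp : 0 < μ.real Z := by
      rw [Measure.real]
      exact ENNReal.toReal_pos hcon (measure_ne_top _ _)
    obtain ⟨i₀, hi₀⟩ := hG (μ.real Z / 2) (by linarith)
    obtain ⟨i, hi1, hi2, hi3⟩ := grow47 (p := μ.real Z / 2) (K := 22 * C1) (by linarith) i₀
    have h1 := seq47 hC1 hb1 hb2 i hi2
    have h2 := hi₀ i hi1
    set A : Set X := {x | g (2 ^ i) x < (2 : ℝ) ^ ((i : ℝ) / 2)} with hA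
    have hAm : MeasurableSet A := measurableSet_lt (hg _) measurable_const
    have h3 : μ.real Z ≤ μ.real A + μ.real (Z \ A) := by
      refine (measureReal_mono (μ := μ) (s₂ := A ∪ (Z \ A)) (fun x hx => ?_) (measure_ne_top _ _)).trans (measureReal_union_le _ _)
      by_cases hxA : x ∈ A
      · exact Or.inl hxA
      · exact Or.inr ⟨hx, hxA⟩
    have h4 : (2 : ℝ) ^ ((i : ℝ) / 2) * μ.real (Z \ A) ≤ b i := by
      have h5 : ∫ x in Z \ A, (2 : ℝ) ^ ((i : ℝ) / 2) ∂μ ≤ ∫ x in Z \ A, g (2 ^ i) x ∂μ := by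
        refine setIntegral_mono_on (integrable_const _).integrableOn (hint _).integrableOn (hZm.diff hAm) fun x hx => ?_
        have := hx.2
        simp only [hA, mem_setOf_eq, not_lt] at this
        exact this
      have h6 : ∫ x in Z \ A, g (2 ^ i) x ∂μ ≤ b i :=
        setIntegral_mono_set (hint _).integrableOn (Eventually.of_forall fun x => h0 _ x) (Eventually.of_forall fun x hx => hx.1)
      rw [setIntegral_const, smul_eq_mul] at h5
      linarith [mul_comm ((2 : ℝ) ^ ((i : ℝ) / 2)) (μ.real (Z \ A))]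
    have h7 : (0 : ℝ) < (2 : ℝ) ^ ((i : ℝ) / 2) := by positivity
    have h8 : μ.real Z / 2 ≤ μ.real (Z \ A) := by linarith
    have h9 := mul_le_mul_of_nonneg_left h8 h7.le
    linarith
  have : ∀ᵐ x ∂μ, x ∉ Z := measure_eq_zero_iff_ae_notMem.1 hnull
  filter_upwards [this] with x hx
  simp only [hZ, mem_setOf_eq, not_le] at hx
  exact hx

end Pool.Agent.Helper18.HY
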