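import Pool.Agent.Helper18.HY.GrowB
import Pool.Agent.Helper18.HY.Dbl
import Pool.Agent.Helper18.HY.Soft

/-! Block HY-MAIN: positive exponents almost everywhere in (noise, point).

`soft` for `X = Pt`, `μ = mu`, `T = sk d`, `g n p = if n = 0 then 0 else log (nn (Mm d n p))` (as in `FD/King.lean`), `hD` from `dbl_err` (`m = 2^i ≥ 2`) and `sep3` (`n ≤ 2 * 2^i = 2^(i+1)`), `hG` from `grow`. -/

set_option autoImplicit false
open MeasureTheory Real Set Filter Topology
open scoped ENNReal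

namespace Pool.Agent.Helper18.HY

open Pool.Agent.Helper18.UC (T2 rep toT nn)
open Pool.Agent.Helper18.FD (NN rr pr cl uu lm Bump k1 k2 NN_pos NN_ge)
open Pool.Agent.Helper95.PV (Ix Om PP lv rp tc inn out cel upd mv mu Pt rv)

variable {d : Dat}

private theorem pos83 (n : ℕ) (p : Pt) : 0 < nn (Mm d n p) := by
  have := Pool.Agent.Helper95.PV.nn_ge_two (det_Mm (d := d) n p)
  linarith

/-- the constant of the doubling error -/
private theorem arith83 {L K S : ℝ} (hL : 0 ≤ L) (hK : 0 ≤ K) (hS : 0 ≤ S) (i : ℕ) :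
    L + 3 * (10 + K + 2 * (S * (((i + 1 : ℕ) : ℝ) + 1) ^ 3)) ≤
      (L + 3 * (10 + K) + 48 * S) * ((i : ℝ) + 1) ^ 3 := by
  have hi : (0 : ℝ) ≤ (i : ℝ) := Nat.cast_nonneg i
  have h1 : (1 : ℝ) ≤ ((i : ℝ) + 1) ^ 3 := one_le_pow₀ (by linarith)
  have h2 : (((i + 1 : ℕ) : ℝ) + 1) ^ 3 ≤ 8 * ((i : ℝ) + 1) ^ 3 := by
    have h3 : ((i + 1 : ℕ) : ℝ) + 1 ≤ 2 * ((i : ℝ) + 1) := by
      push_cast
      linarith
    have h4 : (0 : ℝ) ≤ ((i + 1 : ℕ) : ℝ) + 1 := by positivity
    calc (((i + 1 : ℕ) : ℝ) + 1) ^ 3 ≤ (2 * ((i : ℝ) + 1)) ^ 3 := pow_le_pow_left₀ h4 h3 3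
      _ = 8 * ((i : ℝ) + 1) ^ 3 := by ring
  have h5 : S * (((i + 1 : ℕ) : ℝ) + 1) ^ 3 ≤ S * (8 * ((i : ℝ) + 1) ^ 3) :=
    mul_le_mul_of_nonneg_left h2 hS
  have h6 : (L + 3 * (10 + K)) * 1 ≤ (L + 3 * (10 + K)) * ((i : ℝ) + 1) ^ 3 :=
    mul_le_mul_of_nonneg_left h1 (by positivity)
  nlinarith [h5, h6]

theorem main (hd : d.Ok) (hl : d.Low) : ∃ G : Pt → ℝ, Measurable G ∧ (∀ᵐ p ∂mu, 0 < G p) ∧
    ∀ᵐ p ∂mu, Tendsto (fun n : ℕ => Real.log (nn (Mm d n p)) / n) atTop (𝓝 (G p)) := by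
  have ha := hd.ha
  have hla : 0 ≤ Real.log |d.a| := Real.log_nonneg (by linarith)
  have hl2 : 0 ≤ Real.log 2 := Real.log_nonneg (by norm_num)
  have hκ0 : 0 ≤ Real.log (1 / d.κ) := by
    apply Real.log_nonneg
    rw [le_div_iff₀ hd.hκ]
    linarith [hd.hκ1]
  have hL0 : 0 ≤ Real.log (100 * |d.a| ^ 3) := Real.log_nonneg (by
    have h1 : (1 : ℝ) ≤ |d.a| ^ 3 := one_le_pow₀ (by linarith)
    linarith)
  obtain ⟨S, hS0, hS⟩ := sep3 hd hl
  obtain ⟨G, hG1, hG2, hG3⟩ := soft (μ := mu) (T := sk d) (sk_mp hd)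
    (g := fun n p => if n = 0 then 0 else Real.log (nn (Mm d n p)))
    (C := Real.log 2 + 3 * Real.log |d.a|)
    (C1 := Real.log (100 * |d.a| ^ 3) + 3 * (10 + Real.log (1 / d.κ)) + 48 * S)
    (fun n => by
      by_cases hn : n = 0
      · simp only [hn, if_true]
        exact measurable_const
      · simp only [hn, if_false]
        exact (meas_nn hd n).log)
    (fun n p => by
      rcases Nat.eq_zero_or_pos n with hn | hn
      · subst hn
        simp
      · simp only [hn.ne', if_false]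
        obtain ⟨h1, h2⟩ := log_nn_bd hd n p
        rw [abs_of_nonneg h1]
        have h3 : (1 : ℝ) ≤ (n : ℝ) := by exact_mod_cast hn
        have h4 : Real.log 2 * 1 ≤ Real.log 2 * n := mul_le_mul_of_nonneg_left h3 hl2
        linarith)
    (fun n p => by
      rcases Nat.eq_zero_or_pos n with hn | hn
      · subst hn
        simp
      · simp only [hn.ne', if_false]
        exact (log_nn_bd hd n p).1)
    (fun n m p => by
      rcases Nat.eq_zero_or_pos n with hn | hn
      · subst hn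
        simp
      · rcases Nat.eq_zero_or_pos m with hm | hm
        · subst hm
          simp
        · have h1 : n + m ≠ 0 := by omega
          simp only [h1, hn.ne', hm.ne', if_false]
          have e1 : Mm d (n + m) p = Mm d m ((sk d)^[n] p) * Mm d n p := by
            rw [add_comm, Mm_add]
          rw [add_comm (Real.log (nn (Mm d n p))),
            ← Real.log_mul (pos83 _ _).ne' (pos83 _ _).ne']
          refine Real.log_le_log (pos83 _ _) ?_
          rw [e1]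
          exact Pool.Agent.Helper18.UC.nn_mul _ _)
    (fun i hi => by
      have hm : 2 ≤ 2 ^ i := by
        calc 2 = 2 ^ 1 := (pow_one 2).symm
          _ ≤ 2 ^ i := Nat.pow_le_pow_right (by norm_num) hi
      have hS1 : 0 ≤ S * (((i + 1 : ℕ) : ℝ) + 1) ^ 3 := by positivity
      obtain ⟨e, he1, he2, he3, he4⟩ := dbl_err hd hm hS1 (fun k n hkn hn =>
        hS (i + 1) k n hkn (by rw [pow_succ]; omega))
      refine ⟨e, he1, he2, he3.trans (arith83 hL0 hκ0 hS0.le i), fun p => ?_⟩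
      have h1 : (2 : ℕ) ^ i ≠ 0 := by omega
      have h2 : (2 : ℕ) ^ (i + 1) ≠ 0 := by
        rw [pow_succ]
        omega
      simp only [h1, h2, if_false]
      have h3 := he4 p
      rw [show 2 * 2 ^ i = 2 ^ (i + 1) by rw [pow_succ]; ring] at h3
      exact h3)
    (fun ε hε => by
      obtain ⟨i₀, hi₀⟩ := grow hd hl ε hε
      refine ⟨i₀, fun i hi => ?_⟩
      have h1 : (2 : ℕ) ^ i ≠ 0 := pow_ne_zero _ (by norm_num)
      simp only [h1, if_false]
      exact hi₀ i hi)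
  refine ⟨G, hG1, hG2, ?_⟩
  filter_upwards [hG3] with p hp
  refine hp.congr' ?_
  filter_upwards [eventually_ge_atTop 1] with n hn
  have h1 : n ≠ 0 := by omega
  simp only [h1, if_false]

end Pool.Agent.Helper18.HY
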