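import Pool.Agent.Helper18.HY.PDefs
import Pool.Agent.Helper18.HY.Main
import Pool.Agent.Helper95.PF.Main
import Pool.Agent.Helper18.UC.FD
import Pool.Agent.Helper18.FD.Comp2

/-! Project HY: the final theorem. -/

set_option autoImplicit false
open MeasureTheory Real Set Filter Topology
open scoped ENNReal

namespace Pool.Agent.Helper18.HY

open Pool.Agent.Helper18.UC (T2 rep toT nn clm clm_apply norm_clm_le nn_le_clm)
open Pool.Agent.Helper18.FD (NN rr pr cl uu lm Bump k1 k2 NN_pos NN_ge cl_of_mem ae_plane)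
open Pool.Agent.Helper95.PV (Ix Om PP lv rp tc inn out cel upd mv mu Pt rv nn_ge_two)
open Pool.Agent.Helper95.PF (law loc law_eq Cube ae_cube der1 der2 per_deriv)

variable {d : Dat}

theorem rough_eq {χ : ℝ → ℝ} {k : ℕ → ℝ} {ω : Om} (hω : Cube ω) : rough χ k ω = h0 χ k ω := by
  funext x
  unfold rough h0 fs lv
  refine tsum_congr fun l => ?_
  congr 1
  refine Finset.sum_congr rfl fun i _ => ?_
  rw [cl_of_mem (hω _), cl_of_mem (hω _)]
  unfold pr k1 k2 loc rr NN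
  ring

/-! ### the derivative of the iterates of the plane map -/

private theorem clm_mul18 (B C : Matrix (Fin 2) (Fin 2) ℝ) : clm (B * C) = (clm B).comp (clm C) := by
  refine ContinuousLinearMap.ext fun v => ?_
  rw [ContinuousLinearMap.comp_apply, clm_apply, clm_apply, clm_apply]
  refine Prod.ext ?_ ?_
  · simp only [Matrix.mul_apply, Fin.sum_univ_two]
    ring
  · simp only [Matrix.mul_apply, Fin.sum_univ_two]
    ring

private theorem clm_one18 : clm 1 = ContinuousLinearMap.id ℝ (ℝ × ℝ) := by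
  refine ContinuousLinearMap.ext fun v => ?_
  rw [clm_apply]
  simp

theorem p1_der (hd : d.Ok) (ω : Om) (x : ℝ) : HasDerivAt (d.p1 ω) (d.p2 ω x) x := by
  obtain ⟨C, -, hC⟩ := h_ok hd.hχ hd.hk0' hd.hs
  obtain ⟨-, -, -, -, -, -, -, -, -, -, h⟩ := hC ω
  exact (hd.der x).add ((h x).const_mul d.κ)

theorem Fl_der (hd : d.Ok) (ω : Om) (q : ℝ × ℝ) :
    HasFDerivAt (Fl d ω) (clm (mv (2 + d.a * d.p2 ω q.1))) q := by
  have h1 : HasFDerivAt (fun q : ℝ × ℝ => q.1) (ContinuousLinearMap.fst ℝ ℝ ℝ) q := hasFDerivAt_fst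
  have h2 : HasFDerivAt (fun q : ℝ × ℝ => q.2) (ContinuousLinearMap.snd ℝ ℝ ℝ) q := hasFDerivAt_snd
  have h3 : HasFDerivAt (fun q : ℝ × ℝ => d.p1 ω q.1) ((d.p2 ω q.1) • (ContinuousLinearMap.fst ℝ ℝ ℝ)) q :=
    (p1_der hd ω q.1).comp_hasFDerivAt q h1
  have h4 := ((((h1.const_mul 2).sub h2).add (h3.const_mul d.a))).prodMk h1
  refine h4.congr_fderiv (ContinuousLinearMap.ext fun v => ?_)
  rw [clm_apply]
  refine Prod.ext ?_ ?_
  · show 2 * v.1 - v.2 + d.a * (d.p2 ω q.1 * v.1) = (2 + d.a * d.p2 ω q.1) * v.1 + (-1) * v.2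
    ring
  · show v.1 = 1 * v.1 + 0 * v.2
    ring

theorem Tw_iter (hd : d.Ok) (ω : Om) (n : ℕ) (q : ℝ × ℝ) :
    (Tw d ω)^[n] (toT q) = toT ((Fl d ω)^[n] q) := by
  induction n with
  | zero => rfl
  | succ n ih => rw [Function.iterate_succ_apply', ih, Function.iterate_succ_apply', Tw_toT hd]

theorem Mm_fderiv (hd : d.Ok) (ω : Om) (n : ℕ) (q : ℝ × ℝ) :
    HasFDerivAt ((Fl d ω)^[n]) (clm (Mm d n (ω, toT q))) q := by
  induction n with
  | zero =>
    rw [Mm_zero, clm_one18]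
    exact hasFDerivAt_id q
  | succ n ih =>
    rw [Mm_succ, clm_mul18, sk_iter, Tw_iter hd]
    have h1 : vv d (ω, toT ((Fl d ω)^[n] q)) = 2 + d.a * d.p2 ω ((Fl d ω)^[n] q).1 := va_coe hd ω _
    rw [h1, Function.iterate_succ']
    exact (Fl_der hd ω _).comp q ih

theorem lim_fderiv (hd : d.Ok) {ω : Om} {q : ℝ × ℝ} {L : ℝ}
    (h : Tendsto (fun n : ℕ => Real.log (nn (Mm d n (ω, toT q))) / n) atTop (𝓝 L)) :
    Tendsto (fun n : ℕ => Real.log ‖fderiv ℝ ((Fl d ω)^[n]) q‖ / n) atTop (𝓝 L) := by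
  have h2 : Tendsto (fun n : ℕ => Real.log (nn (Mm d n (ω, toT q))) / n - Real.log 2 / n) atTop
      (𝓝 (L - 0)) := h.sub (tendsto_const_div_atTop_nhds_zero_nat _)
  rw [sub_zero] at h2
  have hpos : ∀ n, 0 < nn (Mm d n (ω, toT q)) := fun n => by
    have := nn_ge_two (det_Mm (d := d) n (ω, toT q))
    linarith
  refine tendsto_of_tendsto_of_tendsto_of_le_of_le h2 h (fun n => ?_) (fun n => ?_)
  · change Real.log (nn (Mm d n (ω, toT q))) / n - Real.log 2 / n ≤
      Real.log ‖fderiv ℝ ((Fl d ω)^[n]) q‖ / n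
    rw [(Mm_fderiv hd ω n q).fderiv, ← sub_div]
    refine div_le_div_of_nonneg_right ?_ (Nat.cast_nonneg n)
    have h3 := nn_le_clm (Mm d n (ω, toT q))
    have h4 := hpos n
    have h5 : 0 < ‖clm (Mm d n (ω, toT q))‖ := by linarith
    have h6 := Real.log_le_log h4 h3
    rw [Real.log_mul (by norm_num) h5.ne'] at h6
    linarith
  · change Real.log ‖fderiv ℝ ((Fl d ω)^[n]) q‖ / n ≤ Real.log (nn (Mm d n (ω, toT q))) / n
    rw [(Mm_fderiv hd ω n q).fderiv]
    refine div_le_div_of_nonneg_right ?_ (Nat.cast_nonneg n)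
    have h2 := norm_clm_le (Mm d n (ω, toT q))
    have h3 := nn_le_clm (Mm d n (ω, toT q))
    have h4 := hpos n
    have h5 : 0 < ‖clm (Mm d n (ω, toT q))‖ := by linarith
    exact Real.log_le_log h5 h2

/-- almost every noise, almost every point of the plane -/
theorem plane (hd : d.Ok) (hl : d.Low) : ∀ᵐ ω ∂PP, ∀ᵐ q : ℝ × ℝ, ∃ L : ℝ, 0 < L ∧
    Tendsto (fun n : ℕ => Real.log ‖fderiv ℝ ((Fl d ω)^[n]) q‖ / n) atTop (𝓝 L) := by
  obtain ⟨G, -, h1, h2⟩ := main hd hl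
  have h3 : ∀ᵐ p ∂mu, 0 < G p ∧
      Tendsto (fun n : ℕ => Real.log (nn (Mm d n p)) / n) atTop (𝓝 (G p)) := h1.and h2
  have h4 := Measure.ae_ae_of_ae_prod (μ := PP) (ν := (volume : Measure T2)) h3
  filter_upwards [h4] with ω hω
  filter_upwards [ae_plane hω] with q hq
  exact ⟨G (ω, toT q), hq.1, lim_fderiv hd hq.2⟩

/-! ### scaling -/

theorem fs_smul (g₁ g₂ : ℝ → ℝ) (c : ℕ → ℝ) (t : ℝ) (ω : Om) (x : ℝ) :
    fs g₁ g₂ (fun l => t * c l) ω x = t * fs g₁ g₂ c ω x := by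
  unfold fs
  rw [← tsum_mul_left]
  refine tsum_congr fun l => ?_
  ring

theorem h1_smul (χ : ℝ → ℝ) (k : ℕ → ℝ) (t : ℝ) (ω : Om) (x : ℝ) :
    h1 χ (fun l => t * k l) ω x = t * h1 χ k ω x := by
  unfold h1
  rw [← fs_smul]
  congr 1
  funext l
  ring

theorem h2_smul (χ : ℝ → ℝ) (k : ℕ → ℝ) (t : ℝ) (ω : Om) (x : ℝ) :
    h2 χ (fun l => t * k l) ω x = t * h2 χ k ω x := by
  unfold h2
  rw [← fs_smul]

/-- a continuous periodic function is bounded -/
theorem per_bd {f : ℝ → ℝ} (hf : Continuous f) (hp : ∀ x, f (x + 1) = f x) : ∃ M : ℝ, 0 ≤ M ∧ ∀ x, |f x| ≤ M := by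
  obtain ⟨M, hM⟩ := (isCompact_Icc (a := (0 : ℝ)) (b := 1)).exists_bound_of_continuousOn hf.continuousOn
  refine ⟨M, (norm_nonneg _).trans (hM 0 ⟨le_rfl, zero_le_one⟩), fun x => ?_⟩
  have h1 : Function.Periodic f 1 := hp
  obtain ⟨y, hy, hxy⟩ := h1.exists_mem_Ico₀ zero_lt_one x
  rw [hxy]
  exact hM y ⟨hy.1, hy.2.le⟩

theorem inv_NN_le (l : ℕ) : 1 / (NN l : ℝ) ≤ Real.exp (-(1 * (l : ℝ) ^ (1 / 3 : ℝ))) := by
  have h0 : (0 : ℝ) < NN l := by exact_mod_cast NN_pos l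
  have h1 : 1 / (NN l : ℝ) = Real.exp (-(((l : ℝ) + 3) * Real.log 2)) := by
    rw [Real.exp_neg, one_div]
    congr 1
    rw [mul_comm, Real.exp_mul, Real.exp_log (by norm_num)]
    unfold Pool.Agent.Helper18.FD.NN
    push_cast
    rw [← Real.rpow_natCast]
    push_cast
    rfl
  rw [h1]
  apply Real.exp_le_exp.2
  have h2 : (l : ℝ) ^ (1 / 3 : ℝ) ≤ ((l : ℝ) + 3) * Real.log 2 := by
    have h3 := Real.log_two_gt_d9
    rcases Nat.eq_zero_or_pos l with h4 | h4
    · subst h4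
      rw [Nat.cast_zero, Real.zero_rpow (by norm_num)]
      nlinarith
    · have h5 : (1 : ℝ) ≤ l := by exact_mod_cast h4
      have h6 : (l : ℝ) ^ (1 / 3 : ℝ) ≤ (l : ℝ) ^ (1 / 2 : ℝ) := Real.rpow_le_rpow_of_exponent_le h5 (by norm_num)
      rw [← Real.sqrt_eq_rpow] at h6
      have h7 : Real.sqrt l ≤ (l + 1) / 2 := by
        rw [Real.sqrt_le_left (by positivity)]
        nlinarith [sq_nonneg ((l : ℝ) - 1)]
      nlinarith
  linarith

/-- the general case is reduced to data which satisfy the hypotheses -/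
theorem reduct {χ : ℝ → ℝ} (hχ : Bump χ) {k : ℕ → ℝ} (hk : ∀ l, 0 < k l) (hs : Summable k)
    (hl : ∀ δ : ℝ, 0 < δ → ∀ᶠ l : ℕ in atTop, Real.exp (-(δ * (l : ℝ) ^ (1 / 3 : ℝ))) ≤ k l)
    {a q : ℝ} (ha : a ≠ 0) (hq : q ≠ 0) {G : ℝ → ℝ} (hG : ContDiff ℝ 2 G) (hGp : ∀ x, G (x + 1) = G x) :
    ∃ d : Dat, d.Ok ∧ d.Low ∧ ∀ ω x, d.a * d.p1 ω x = a * (deriv G x + q * h1 χ k ω x) := by
  have hk' : ∀ l, 0 ≤ k l := fun l => (hk l).le
  -- the factor `t`
  obtain ⟨t, ht1, ht⟩ : ∃ t : ℝ, 1 ≤ t ∧ ∀ l, 1 / (NN l : ℝ) ≤ t * k l := by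
    obtain ⟨l₀, hl₀⟩ := eventually_atTop.1 (hl 1 one_pos)
    have hnn : ∀ l, 0 ≤ 1 / ((NN l : ℝ) * k l) := fun l => by
      have := NN_pos l
      have := hk l
      positivity
    have hsum : 0 ≤ ∑ l ∈ Finset.range l₀, 1 / ((NN l : ℝ) * k l) := Finset.sum_nonneg fun l _ => hnn l
    refine ⟨1 + ∑ l ∈ Finset.range l₀, 1 / ((NN l : ℝ) * k l), by linarith, fun l => ?_⟩
    have hkl := hk l
    have hNl := NN_pos l
    by_cases h : l < l₀
    · have h1 := Finset.single_le_sum (f := fun l => 1 / ((NN l : ℝ) * k l)) (fun i _ => hnn i)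
        (Finset.mem_range.2 h)
      have h2 : 1 / (NN l : ℝ) = 1 / ((NN l : ℝ) * k l) * k l := by field_simp
      rw [h2]
      refine mul_le_mul_of_nonneg_right ?_ hkl.le
      have h3 : 1 / ((NN l : ℝ) * k l) ≤ ∑ l ∈ Finset.range l₀, 1 / ((NN l : ℝ) * k l) := h1
      linarith
    · have h1 := (inv_NN_le l).trans (hl₀ l (not_lt.1 h))
      have h2 : k l ≤ (1 + ∑ l ∈ Finset.range l₀, 1 / ((NN l : ℝ) * k l)) * k l := by nlinarith
      exact h1.trans h2
  have ht0 : 0 < t := lt_of_lt_of_le one_pos ht1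
  -- bounds
  obtain ⟨C, hC, hh⟩ := h_ok hχ hk' hs
  have cG1 : Continuous (deriv G) := continuous_iff_continuousAt.2 fun x => (der2 hG x).continuousAt
  have cG2 : Continuous (deriv (deriv G)) := by
    have h1 : ContDiff ℝ 1 (deriv G) := by
      have h2 : ContDiff ℝ (1 + 1) G := by
        rw [show (1 : WithTop ℕ∞) + 1 = 2 by norm_num]
        exact hG
      exact ((contDiff_succ_iff_deriv (n := 1)).1 h2).2.2
    exact (contDiff_one_iff_deriv.1 h1).2
  have pG1 := per_deriv hGp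
  have pG2 := per_deriv pG1
  obtain ⟨M1, hM1, hb1⟩ := per_bd cG1 pG1
  obtain ⟨M2, hM2, hb2⟩ := per_bd cG2 pG2
  obtain ⟨K, hK⟩ : ∃ K, K = ∑' l, k l := ⟨_, rfl⟩
  have hKl : ∀ l, k l ≤ K := fun l => by rw [hK]; exact hs.le_tsum l fun i _ => hk' i
  have hK0 : 0 < K := lt_of_lt_of_le (hk 0) (hKl 0)
  obtain ⟨A, hA⟩ : ∃ A, A = 100 + |a| * (M1 + M2 + |q| * C) + |a * q| + |a * q| * K := ⟨_, rfl⟩
  have haq : 0 < |a * q| := abs_pos.2 (mul_ne_zero ha hq)
  have ha0 : 0 < |a| := abs_pos.2 ha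
  have hq0 : 0 < |q| := abs_pos.2 hq
  have hC0 : 0 < C := lt_of_lt_of_le one_pos hC
  have hX : 0 ≤ |a| * (M1 + M2 + |q| * C) := by positivity
  have hY : 0 ≤ |a * q| * K := by positivity
  have hA100 : 100 ≤ A := by rw [hA]; linarith
  have hA0 : 0 < A := by linarith
  obtain ⟨s, hs1, hs2, hs3⟩ : ∃ s : ℝ, |s| = 1 ∧ s * |a * q| = a * q ∧ s ≠ 0 := by
    rcases le_total 0 (a * q) with h | h
    · exact ⟨1, by norm_num, by rw [abs_of_nonneg h, one_mul], one_ne_zero⟩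
    · exact ⟨-1, by norm_num, by rw [abs_of_nonpos h]; ring, by norm_num⟩
  have hss : s * s = 1 := by
    have := sq_abs s
    rw [hs1] at this
    nlinarith
  have hsA : |s * A| = A := by rw [abs_mul, hs1, one_mul, abs_of_pos hA0]
  have hκk : ∀ y : ℝ, |a * q| / (A * t) * (t * y) = a * q / (s * A) * y := by
    intro y
    have e1 : a * q / (s * A) = |a * q| / A := by
      have e2 : a * q / (s * A) = s * |a * q| / (s * A) := congrArg (fun z => z / (s * A)) hs2.symm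
      rw [e2]
      exact mul_div_mul_left _ _ hs3
    rw [e1]
    field_simp
  have hd1 : ∀ ω x, a / (s * A) * deriv G x + |a * q| / (A * t) * h1 χ (fun l => t * k l) ω x =
      a / (s * A) * (deriv G x + q * h1 χ k ω x) := by
    intro ω x
    rw [h1_smul, hκk]
    ring
  have hd2 : ∀ ω x, a / (s * A) * deriv (deriv G) x + |a * q| / (A * t) * h2 χ (fun l => t * k l) ω x =
      a / (s * A) * (deriv (deriv G) x + q * h2 χ k ω x) := by
    intro ω x
    rw [h2_smul, hκk]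
    ring
  have key : ∀ x y M : ℝ, |x| ≤ M → |y| ≤ C → |a| * (M + |q| * C) ≤ A → |a / (s * A) * (x + q * y)| ≤ 1 := by
    intro x y M hx hy hM
    rw [abs_mul, abs_div, hsA]
    have h1 : |x + q * y| ≤ M + |q| * C := by
      refine (abs_add_le _ _).trans (add_le_add hx ?_)
      rw [abs_mul]
      exact mul_le_mul_of_nonneg_left hy hq0.le
    rw [div_mul_eq_mul_div, div_le_one hA0]
    exact (mul_le_mul_of_nonneg_left h1 ha0.le).trans hM
  have hMa : |a| * (M1 + |q| * C) ≤ A := by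
    have : |a| * (M1 + |q| * C) ≤ |a| * (M1 + M2 + |q| * C) := mul_le_mul_of_nonneg_left (by linarith) ha0.le
    rw [hA]; linarith
  have hMb : |a| * (M2 + |q| * C) ≤ A := by
    have : |a| * (M2 + |q| * C) ≤ |a| * (M1 + M2 + |q| * C) := mul_le_mul_of_nonneg_left (by linarith) ha0.le
    rw [hA]; linarith
  refine ⟨⟨s * A, |a * q| / (A * t), fun l => t * k l, 1, χ, fun x => a / (s * A) * deriv G x,
    fun x => a / (s * A) * deriv (deriv G) x⟩, ?_, ?_, ?_⟩
  · exact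
      { ha := by rw [hsA]; exact hA100
        hR := le_rfl
        hRa := by rw [hsA]; linarith
        hκ := by positivity
        hκ1 := by
          rw [div_le_one (by positivity)]
          have h1 : |a * q| ≤ A := by rw [hA]; linarith
          nlinarith
        hk := ht
        hk1 := fun l => by
          show |a * q| / (A * t) * (t * k l) ≤ 1
          have h1 : |a * q| / (A * t) * (t * k l) = |a * q| * k l / A := by field_simp
          rw [h1, div_le_one hA0]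
          have h2 : |a * q| * k l ≤ |a * q| * K := mul_le_mul_of_nonneg_left (hKl l) haq.le
          rw [hA]
          linarith
        hs := hs.mul_left t
        hχ := hχ
        c1 := continuous_const.mul cG1
        c2 := continuous_const.mul cG2
        e1 := fun x => by
          show a / (s * A) * deriv G (x + 1) = a / (s * A) * deriv G x
          rw [pG1]
        e2 := fun x => by
          show a / (s * A) * deriv (deriv G) (x + 1) = a / (s * A) * deriv (deriv G) x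
          rw [pG2]
        der := fun x => (der2 hG x).const_mul _
        b1 := fun ω x => by
          show |a / (s * A) * deriv G x + |a * q| / (A * t) * h1 χ (fun l => t * k l) ω x| ≤ 1
          rw [hd1]
          obtain ⟨-, -, -, -, -, -, -, q1, -⟩ := hh ω
          exact key _ _ M1 (hb1 x) (q1 x) hMa
        b2 := fun ω x => by
          show |a / (s * A) * deriv (deriv G) x + |a * q| / (A * t) * h2 χ (fun l => t * k l) ω x| ≤ 1
          rw [hd2]
          obtain ⟨-, -, -, -, -, -, -, -, q2, -⟩ := hh ω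
          exact key _ _ M2 (hb2 x) (q2 x) hMb }
  · intro δ hδ
    filter_upwards [hl δ hδ] with l h
    refine h.trans ?_
    show k l ≤ t * k l
    have := hk l
    nlinarith
  · intro ω x
    show s * A * (a / (s * A) * deriv G x + |a * q| / (A * t) * h1 χ (fun l => t * k l) ω x) = _
    rw [hd1]
    field_simp

/-! ### the final theorem -/

/-- the random potential is of class `C^2`, uniformly in the noise -/
theorem rough_ok {χ : ℝ → ℝ} (hχ : Bump χ) {k : ℕ → ℝ} (hk : ∀ l, 0 ≤ k l) (hs : Summable k) :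
    ∃ C : ℝ, ∀ ω : Om, Cube ω → Per2 C (rough χ k ω) := by
  obtain ⟨C, -, hC⟩ := h_ok hχ hk hs
  refine ⟨C, fun ω hω => ?_⟩
  rw [rough_eq hω]
  obtain ⟨c0, c1, c2, p0, -, -, b0, b1, b2, d0, d1⟩ := hC ω
  have e1 : deriv (h0 χ k ω) = h1 χ k ω := funext fun x => (d0 x).deriv
  have e2 : deriv (h1 χ k ω) = h2 χ k ω := funext fun x => (d1 x).deriv
  refine ⟨?_, p0, b0, ?_, ?_⟩
  · have h3 : ContDiff ℝ 1 (h1 χ k ω) := by
      rw [contDiff_one_iff_deriv, e2]
      exact ⟨fun x => (d1 x).differentiableAt, c2⟩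
    have h4 : ContDiff ℝ (1 + 1) (h0 χ k ω) := by
      rw [contDiff_succ_iff_deriv, e1]
      exact ⟨fun x => (d0 x).differentiableAt, by simp, h3⟩
    rw [show (2 : WithTop ℕ∞) = 1 + 1 by norm_num]
    exact h4
  · rw [e1]; exact b1
  · rw [e1, e2]; exact b2

/-- the final theorem -/
theorem final {χ : ℝ → ℝ} (hχ : ContDiff ℝ 3 χ) (hχ1 : ∀ t, |t| ≤ 1 / 2 → χ t = 1)
    (hχ0 : ∀ t, 1 ≤ |t| → χ t = 0) {k : ℕ → ℝ} (hk : ∀ l, 0 < k l) (hs : Summable k)
    (hl : ∀ δ : ℝ, 0 < δ → ∀ᶠ l : ℕ in atTop, Real.exp (-(δ * (l : ℝ) ^ (1 / 3 : ℝ))) ≤ k l) :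
    (∃ C : ℝ, ∀ᵐ ω ∂law, Per2 C (rough χ k ω)) ∧
    ∀ (a q : ℝ) (G : ℝ → ℝ), a ≠ 0 → q ≠ 0 → ContDiff ℝ 2 G → (∀ x, G (x + 1) = G x) →
      ∀ᵐ ω ∂law, Hyp a (fun x => G x + q * rough χ k ω x) := by
  have hB : Bump χ := ⟨hχ, hχ1, hχ0⟩
  have hk' : ∀ l, 0 ≤ k l := fun l => (hk l).le
  constructor
  · obtain ⟨C, hC⟩ := rough_ok hB hk' hs
    refine ⟨C, ?_⟩
    rw [law_eq]
    filter_upwards [ae_cube] with ω hω
    exact hC ω hω
  · intro a q G ha hq hG hGp
    obtain ⟨d, hd, hlow, hp⟩ := reduct hB hk hs hl ha hq hG hGp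
    obtain ⟨C, -, hC⟩ := h_ok hB hk' hs
    rw [law_eq]
    filter_upwards [ae_cube, plane hd hlow] with ω hω h
    obtain ⟨-, -, -, -, -, -, -, -, -, d0, -⟩ := hC ω
    have e1 : (deriv fun x => G x + q * rough χ k ω x) = fun x => deriv G x + q * h1 χ k ω x := by
      rw [rough_eq hω]
      funext x
      exact ((der1 hG x).add ((d0 x).const_mul q)).deriv
    have e2 : (fun r : ℝ × ℝ => (2 * r.1 - r.2 + a * deriv (fun x => G x + q * rough χ k ω x) r.1, r.1)) =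
        Fl d ω := by
      funext r
      rw [e1]
      show (2 * r.1 - r.2 + a * (deriv G r.1 + q * h1 χ k ω r.1), r.1) = (2 * r.1 - r.2 + d.a * d.p1 ω r.1, r.1)
      rw [hp]
    unfold Hyp
    rw [e2]
    exact h

end Pool.Agent.Helper18.HY
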