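import Pool.Agent.Helper18.HY.FDefs

/-! Block HY-FLIP2: the flip in the plane of the two noise coordinates of a cell. Independent of the dynamics.

`uu` is the uniform law on `[-1, 1]` (`FD/Defs.lean`: half of Lebesgue measure). For `|t| ≤ 1/2` the map `(u, v) ↦ (u + (v - fl v) t, fl v)` preserves `uu × uu` on the set `A = {|u + v t| ≤ 1/2, -1 ≤ u ≤ 1, -1 ≤ v < 1}`: for fixed `v` in `[-1, 1)` substitute `u = k - v t`:
if `|k| ≤ 1/2` then `|u| ≤ 1` automatically, so `∫ H(u, v) duu(u) = (1/2) ∫_{|k| ≤ 1/2} H(k - v t, v) dk =: J(v)/2` for `H` vanishing off `A`, and `∫ H(u + (v - fl v) t, fl v) duu(u) = J(fl v)/2` (the point `(u + (v - fl v) t, fl v)` has the same `k`). Then `∫ J(fl v) duu(v) = ∫ J(v) duu(v)`: `fl` maps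
`[-1, 0)` onto `[0, 1)` and `[0, 1)` onto `[-1, 0)` by translations (`v = 1` is a null point). `half2`: `J = 1` for `H = 1_A`. -/

set_option autoImplicit false
open MeasureTheory Real Set
open scoped ENNReal

namespace Pool.Agent.Helper18.HY

open Pool.Agent.Helper18.FD (uu cl)

private lemma fl_meas33 : Measurable fl := by
  unfold fl
  exact Measurable.ite measurableSet_Ici (by fun_prop) (by fun_prop)

private instance uu_sf33 : SFinite uu := by unfold uu; infer_instance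

private lemma uu_lint33 (f : ℝ → ℝ≥0∞) : ∫⁻ v, f v ∂uu = 2⁻¹ * ∫⁻ v in Icc (-1) 1, f v := by
  unfold uu
  rw [lintegral_smul_measure, smul_eq_mul]

/-- integral over `[-1, 1]` in two halves -/
private lemma split_int33 (f : ℝ → ℝ≥0∞) :
    ∫⁻ v in Icc (-1) 1, f v = (∫⁻ v in Ico (-1) 0, f v) + ∫⁻ v in Ico 0 1, f v := by
  rw [← restrict_Ico_eq_restrict_Icc]
  rw [← Ico_union_Ico_eq_Ico (show (-1:ℝ) ≤ 0 by norm_num) (show (0:ℝ) ≤ 1 by norm_num)]
  rw [lintegral_union measurableSet_Ico]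
  exact Set.Ico_disjoint_Ico_same

private lemma shift_int33 (f : ℝ → ℝ≥0∞) (a b c : ℝ) :
    ∫⁻ v in Ico a b, f (v + c) = ∫⁻ v in Ico (a + c) (b + c), f v := by
  rw [← lintegral_indicator measurableSet_Ico, ← lintegral_indicator measurableSet_Ico,
    ← lintegral_add_right_eq_self ((Ico (a + c) (b + c)).indicator fun v => f v) c]
  refine lintegral_congr fun v => ?_
  by_cases h : v ∈ Ico a b
  · rw [indicator_of_mem h, indicator_of_mem]
    exact ⟨by linarith [h.1], by linarith [h.2]⟩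
  · rw [indicator_of_notMem h, indicator_of_notMem]
    intro h'
    exact h ⟨by linarith [h'.1], by linarith [h'.2]⟩

private lemma fl_lint33 (f : ℝ → ℝ≥0∞) : ∫⁻ v, f (fl v) ∂uu = ∫⁻ v, f v ∂uu := by
  rw [uu_lint33, uu_lint33, split_int33, split_int33]
  congr 1
  have h1 : ∫⁻ v in Ico (-1) 0, f (fl v) = ∫⁻ v in Ico 0 1, f v := by
    have : ∫⁻ v in Ico (-1:ℝ) 0, f (fl v) = ∫⁻ v in Ico (-1:ℝ) 0, f (v + 1) := by
      refine setLIntegral_congr_fun measurableSet_Ico fun v hv => ?_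
      simp only [fl, if_neg (not_le.2 hv.2)]
    rw [this, shift_int33]
    norm_num
  have h2 : ∫⁻ v in Ico 0 1, f (fl v) = ∫⁻ v in Ico (-1) 0, f v := by
    have : ∫⁻ v in Ico (0:ℝ) 1, f (fl v) = ∫⁻ v in Ico (0:ℝ) 1, f (v + (-1)) := by
      refine setLIntegral_congr_fun measurableSet_Ico fun v hv => ?_
      simp only [fl, if_pos hv.1]
      rfl
    rw [this, shift_int33]
    norm_num
  rw [h1, h2, add_comm]

/-- the flip preserves the uniform law -/
theorem fl_mp : MeasurePreserving fl uu uu := by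
  refine ⟨fl_meas33, ?_⟩
  refine Measure.ext_of_lintegral _ fun f hf => ?_
  rw [lintegral_map hf fl_meas33, fl_lint33]

/-- substitution in the first coordinate -/
private lemma inner33 {t v : ℝ} (ht : |t| ≤ 1 / 2) (hv : v ∈ Icc (-1 : ℝ) 1) (g : ℝ → ℝ≥0∞)
    (h0 : ∀ u, ¬ (|u + v * t| ≤ 1 / 2) → g u = 0) :
    ∫⁻ u, g u ∂uu = 2⁻¹ * ∫⁻ k, g (k - v * t) := by
  rw [uu_lint33, ← lintegral_indicator measurableSet_Icc]
  have hvt : |v * t| ≤ 1 / 2 := by
    rw [abs_mul]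
    have : |v| ≤ 1 := abs_le.2 hv
    nlinarith [abs_nonneg v, abs_nonneg t]
  have : ∀ u, (Icc (-1 : ℝ) 1).indicator g u = g u := by
    intro u
    by_cases h : u ∈ Icc (-1 : ℝ) 1
    · rw [indicator_of_mem h]
    · rw [indicator_of_notMem h]
      refine (h0 u fun h1 => h ?_).symm
      rw [abs_le] at h1 hvt
      constructor <;> linarith [h1.1, h1.2, hvt.1, hvt.2]
  simp_rw [this]
  congr 1
  simp_rw [sub_eq_add_neg]
  exact (lintegral_add_right_eq_self g _).symm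

/-- the flip of the pair of noise coordinates -/
theorem flip2 {t : ℝ} (ht : |t| ≤ 1 / 2) {H : ℝ → ℝ → ℝ≥0∞} (hH : Measurable fun q : ℝ × ℝ => H q.1 q.2)
    (h0 : ∀ u v : ℝ, ¬ (|u + v * t| ≤ 1 / 2 ∧ u ∈ Icc (-1 : ℝ) 1 ∧ v ∈ Ico (-1 : ℝ) 1) → H u v = 0) :
    ∫⁻ u, ∫⁻ v, H (u + (v - fl v) * t) (fl v) ∂uu ∂uu = ∫⁻ u, ∫⁻ v, H u v ∂uu ∂uu := by
  have hm1 : Measurable fun q : ℝ × ℝ => H (q.1 + (q.2 - fl q.2) * t) (fl q.2) := by
    have e : (fun q : ℝ × ℝ => H (q.1 + (q.2 - fl q.2) * t) (fl q.2)) =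
      (fun q : ℝ × ℝ => H q.1 q.2) ∘ fun q : ℝ × ℝ => (q.1 + (q.2 - fl q.2) * t, fl q.2) := rfl
    rw [e]
    refine hH.comp ?_
    have := fl_meas33
    fun_prop
  rw [lintegral_lintegral_swap hH.aemeasurable, lintegral_lintegral_swap hm1.aemeasurable]
  -- J
  set J : ℝ → ℝ≥0∞ := fun v => 2⁻¹ * ∫⁻ k, H (k - v * t) v with hJ
  have A : ∀ v ∈ Icc (-1 : ℝ) 1, ∫⁻ u, H u v ∂uu = J v := by
    intro v hv
    exact inner33 ht hv (fun u => H u v) (fun u hu => h0 u v fun h => hu h.1)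
  have B : ∀ v ∈ Icc (-1 : ℝ) 1, ∫⁻ u, H (u + (v - fl v) * t) (fl v) ∂uu = J (fl v) := by
    intro v hv
    rw [inner33 ht hv (fun u => H (u + (v - fl v) * t) (fl v)) (fun u hu => h0 _ _ fun h => hu ?_)]
    · simp only [hJ]
      congr 1
      refine lintegral_congr fun k => ?_
      congr 1
      ring
    · have := h.1
      rwa [show u + (v - fl v) * t + fl v * t = u + v * t by ring] at this
  have A' : ∫⁻ v, ∫⁻ u, H u v ∂uu ∂uu = ∫⁻ v, J v ∂uu := by
    rw [uu_lint33, uu_lint33]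
    congr 1
    exact setLIntegral_congr_fun measurableSet_Icc A
  have B' : ∫⁻ v, ∫⁻ u, H (u + (v - fl v) * t) (fl v) ∂uu ∂uu = ∫⁻ v, J (fl v) ∂uu := by
    rw [uu_lint33, uu_lint33]
    congr 1
    exact setLIntegral_congr_fun measurableSet_Icc B
  rw [A', B', fl_lint33]

/-- the good event has probability one half -/
theorem half2 {t : ℝ} (ht : |t| ≤ 1 / 2) :
    ∫⁻ u, ∫⁻ v, {q : ℝ × ℝ | |cl q.1 + cl q.2 * t| ≤ 1 / 2 ∧ cl q.2 < 1}.indicator (fun _ => (1 : ℝ≥0∞)) (u, v) ∂uu ∂uu =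
      2⁻¹ := by
  have hcl : Measurable cl := by unfold cl; fun_prop
  have hS : MeasurableSet {q : ℝ × ℝ | |cl q.1 + cl q.2 * t| ≤ 1 / 2 ∧ cl q.2 < 1} := by
    refine MeasurableSet.inter ?_ ?_
    · refine measurableSet_le (f := fun q : ℝ × ℝ => |cl q.1 + cl q.2 * t|) ?_ measurable_const
      exact continuous_abs.measurable.comp
        ((hcl.comp measurable_fst).add ((hcl.comp measurable_snd).mul measurable_const))
    · exact measurableSet_lt (hcl.comp measurable_snd) measurable_const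
  have hm : Measurable ({q : ℝ × ℝ | |cl q.1 + cl q.2 * t| ≤ 1 / 2 ∧ cl q.2 < 1}.indicator (fun _ => (1 : ℝ≥0∞))) :=
    measurable_const.indicator hS
  rw [lintegral_lintegral_swap (f := fun u v => {q : ℝ × ℝ | |cl q.1 + cl q.2 * t| ≤ 1 / 2 ∧ cl q.2 < 1}.indicator (fun _ => (1 : ℝ≥0∞)) (u, v)) hm.aemeasurable]
  have hc : ∀ x ∈ Icc (-1 : ℝ) 1, cl x = x := by
    intro x hx
    simp only [cl]
    rw [min_eq_right hx.2, max_eq_right hx.1]
  have A : ∀ v ∈ Ico (-1 : ℝ) 1, ∫⁻ u, {q : ℝ × ℝ | |cl q.1 + cl q.2 * t| ≤ 1 / 2 ∧ cl q.2 < 1}.indicator (fun _ => (1 : ℝ≥0∞)) (u, v) ∂uu = 2⁻¹ := by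
    intro v hv
    have hv' : v ∈ Icc (-1 : ℝ) 1 := ⟨hv.1, hv.2.le⟩
    have e : ∫⁻ u, {q : ℝ × ℝ | |cl q.1 + cl q.2 * t| ≤ 1 / 2 ∧ cl q.2 < 1}.indicator (fun _ => (1 : ℝ≥0∞)) (u, v) ∂uu
        = ∫⁻ u, {u : ℝ | |u + v * t| ≤ 1 / 2}.indicator (fun _ => (1 : ℝ≥0∞)) u ∂uu := by
      rw [uu_lint33, uu_lint33]
      congr 1
      refine setLIntegral_congr_fun measurableSet_Icc fun u hu => ?_
      simp only [indicator, mem_ofPred_eq, hc u hu, hc v hv', hv.2, and_true]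
    rw [e, inner33 ht hv' ({u : ℝ | |u + v * t| ≤ 1 / 2}.indicator (fun _ => (1 : ℝ≥0∞)))
      (fun u hu => indicator_of_notMem (s := {u : ℝ | |u + v * t| ≤ 1 / 2}) hu _)]
    have e2 : ∀ k, {u : ℝ | |u + v * t| ≤ 1 / 2}.indicator (fun _ => (1 : ℝ≥0∞)) (k - v * t) =
        (Icc (-(1/2) : ℝ) (1/2)).indicator (fun _ => (1 : ℝ≥0∞)) k := by
      intro k
      simp only [indicator, mem_ofPred_eq, sub_add_cancel, abs_le, mem_Icc]
    simp_rw [e2]
    rw [lintegral_indicator measurableSet_Icc, setLIntegral_const, Real.volume_Icc]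
    norm_num
  rw [uu_lint33, ← restrict_Ico_eq_restrict_Icc, setLIntegral_congr_fun measurableSet_Ico A, setLIntegral_const, Real.volume_Ico]
  norm_num
  rw [ENNReal.inv_mul_cancel (by norm_num) (by norm_num), mul_one]

end Pool.Agent.Helper18.HY
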