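import Pool.Agent.Helper18.HY.FlipB

/-! Block HY-FLIPC: averaging over all flips.

For `m ≤ n` let `P_m i = vs` if `i < m` and `vj` otherwise; `∫ 1_iso Av vj P_m n 1` does not depend on `m`: `Av` is affine in the pair number `m` (prove: `Av p q n M` with `(p m, q m)` is the average of the values with `(p m, p m)` and `(q m, q m)`, others unchanged), so at a good site `m`
`Av vj P_(m+1) (p) = (Av vj P_m (p) + Av vj P_m (Fp d l m p))/2` (`flip_pt`: at the flipped point the pair number `m` is `(vs, vs)` of `p` and the others are the same), and `P_(m+1) = P_m` at a site which is not good; `flip_mp` for `F = ofReal (Av ..)`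
(`0 ≤ Av ≤ 1/2`: `nn ≥ 2` for determinant one; or boundedness by `Av` being an average of inverses of `nn ≥ 2`). `Av vj vj n 1 = (nn (Mm d n p))⁻¹` (`Mm_succ`; prove `Av v v n M = (nn (M * (mv (v (n-1)) * ... * mv (v 0))))⁻¹`). -/

set_option autoImplicit false
open MeasureTheory Real Set
open scoped ENNReal

namespace Pool.Agent.Helper18.HY

open Pool.Agent.Helper18.UC (T2 rep toT nn)
open Pool.Agent.Helper18.FD (NN rr pr cl uu lm Bump k1 k2 NN_pos NN_ge)
open Pool.Agent.Helper95.PV (Ix Om PP lv rp tc inn out cel upd mv mu Pt rv det_mv nn_ge_two)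

variable {d : Dat}

private lemma ent23 {M : Pt → Matrix (Fin 2) (Fin 2) ℝ} {v : Pt → ℝ} (hv : Measurable v)
    (hM : ∀ i j, Measurable fun x => M x i j) (i j : Fin 2) :
    Measurable fun x => (M x * mv (v x)) i j := by
  have h0 : (fun x => (M x * mv (v x)) i 0) = fun x => M x i 0 * v x + M x i 1 := by
    funext x
    simp [mv, Matrix.mul_apply, Fin.sum_univ_two]
  have h1 : (fun x => (M x * mv (v x)) i 1) = fun x => -M x i 0 := by
    funext x
    simp [mv, Matrix.mul_apply, Fin.sum_univ_two]
  fin_cases j
  · show Measurable fun x => (M x * mv (v x)) i 0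
    rw [h0]
    exact ((hM i 0).mul hv).add (hM i 1)
  · show Measurable fun x => (M x * mv (v x)) i 1
    rw [h1]
    exact (hM i 0).neg

private lemma Av_meas23 {p q : ℕ → Pt → ℝ} (hp : ∀ i, Measurable (p i)) (hq : ∀ i, Measurable (q i)) (n : ℕ) :
    ∀ M : Pt → Matrix (Fin 2) (Fin 2) ℝ, (∀ i j, Measurable fun x => M x i j) →
      Measurable fun x => Av (fun i => p i x) (fun i => q i x) n (M x) := by
  induction n with
  | zero =>
    intro M hM
    have h : Measurable fun x => nn (M x) :=
      ((((hM 0 0).abs).add ((hM 0 1).abs)).add ((hM 1 0).abs)).add ((hM 1 1).abs)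
    exact h.inv
  | succ n ih =>
    intro M hM
    have h1 := ih (fun x => M x * mv (p n x)) (fun i j => ent23 (hp n) hM i j)
    have h2 := ih (fun x => M x * mv (q n x)) (fun i j => ent23 (hq n) hM i j)
    exact (h1.add h2).div_const 2

private lemma Av_bd23 (p q : ℕ → ℝ) (n : ℕ) : ∀ M : Matrix (Fin 2) (Fin 2) ℝ, M.det = 1 →
    0 ≤ Av p q n M ∧ Av p q n M ≤ 1 / 2 := by
  induction n with
  | zero =>
    intro M hM
    have h := nn_ge_two hM
    refine ⟨by simp only [Av]; positivity, ?_⟩
    simp only [Av]
    rw [one_div]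
    exact inv_anti₀ two_pos h
  | succ n ih =>
    intro M hM
    have h1 := ih (M * mv (p n)) (by rw [Matrix.det_mul, hM, det_mv, mul_one])
    have h2 := ih (M * mv (q n)) (by rw [Matrix.det_mul, hM, det_mv, mul_one])
    simp only [Av]
    constructor <;> linarith [h1.1, h1.2, h2.1, h2.2]

private lemma Av_congr23 {p q p' q' : ℕ → ℝ} (n : ℕ) (h : ∀ i < n, p i = p' i ∧ q i = q' i) :
    ∀ M : Matrix (Fin 2) (Fin 2) ℝ, Av p q n M = Av p' q' n M := by
  induction n with
  | zero => intro M; rfl
  | succ n ih =>
    intro M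
    have h0 := h n (Nat.lt_succ_self n)
    simp only [Av]
    rw [h0.1, h0.2, ih (fun i hi => h i (hi.trans (Nat.lt_succ_self n))),
      ih (fun i hi => h i (hi.trans (Nat.lt_succ_self n)))]

private lemma Av_vj23 (n : ℕ) (p : Pt) : ∀ M : Matrix (Fin 2) (Fin 2) ℝ,
    Av (fun j => vj d j p) (fun j => vj d j p) n M = (nn (M * Mm d n p))⁻¹ := by
  induction n with
  | zero => intro M; rw [Mm_zero, Matrix.mul_one]; rfl
  | succ n ih =>
    intro M
    simp only [Av]
    rw [ih, Mm_succ, Matrix.mul_assoc]
    show ((nn (M * (mv (vv d ((sk d)^[n] p)) * Mm d n p)))⁻¹ + (nn (M * (mv (vv d ((sk d)^[n] p)) * Mm d n p)))⁻¹) / 2 = _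
    ring

/-- the average is affine in each pair -/
private lemma Av_split23 {p q p1 q1 p2 q2 : ℕ → ℝ} {m : ℕ} (h1 : ∀ i, i ≠ m → p1 i = p i ∧ q1 i = q i)
    (h2 : ∀ i, i ≠ m → p2 i = p i ∧ q2 i = q i) (a1 : p1 m = p m) (a2 : q1 m = p m) (a3 : p2 m = q m)
    (a4 : q2 m = q m) (n : ℕ) : m < n → ∀ M : Matrix (Fin 2) (Fin 2) ℝ,
      Av p q n M = (Av p1 q1 n M + Av p2 q2 n M) / 2 := by
  induction n with
  | zero => intro h; omega
  | succ n ih =>
    intro hm M
    by_cases hmn : m = n
    · subst hmn
      have c1 : ∀ N, Av p1 q1 m N = Av p q m N := Av_congr23 m fun i hi => h1 i hi.ne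
      have c2 : ∀ N, Av p2 q2 m N = Av p q m N := Av_congr23 m fun i hi => h2 i hi.ne
      simp only [Av]
      rw [c1, c1, c2, c2, a1, a2, a3, a4]
      ring
    · have hmn' : m < n := by omega
      have hn : n ≠ m := fun h => hmn h.symm
      simp only [Av]
      rw [ih hmn', ih hmn', (h1 n hn).1, (h1 n hn).2, (h2 n hn).1, (h2 n hn).2]
      ring

theorem Av_meas {p q : ℕ → Pt → ℝ} (hp : ∀ i, Measurable (p i)) (hq : ∀ i, Measurable (q i)) (n : ℕ) :
    Measurable fun x => Av (fun i => p i x) (fun i => q i x) n 1 :=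
  Av_meas23 hp hq n (fun _ => 1) fun _ _ => measurable_const

theorem Av_bd (p q : ℕ → ℝ) (n : ℕ) : 0 ≤ Av p q n 1 ∧ Av p q n 1 ≤ 1 / 2 :=
  Av_bd23 p q n 1 Matrix.det_one

theorem Av_vj (n : ℕ) (p : Pt) : Av (fun j => vj d j p) (fun j => vj d j p) n 1 = (nn (Mm d n p))⁻¹ := by
  rw [Av_vj23, Matrix.one_mul]

/-- the second member of the pairs: flipped for `i < m` -/
private noncomputable def Q23 (d : Dat) (l m i : ℕ) (p : Pt) : ℝ := if i < m then vs d l i p else vj d i p

private noncomputable def A23 (d : Dat) (l n m : ℕ) (p : Pt) : ℝ :=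
  Av (fun j => vj d j p) (fun j => Q23 d l m j p) n 1

private lemma meas_A23 (hd : d.Ok) (l n m : ℕ) : Measurable (A23 d l n m) := by
  refine Av_meas (p := fun j p => vj d j p) (q := fun j p => Q23 d l m j p) (fun i => meas_vj hd i) (fun i => ?_) n
  by_cases h : i < m
  · have : Q23 d l m i = vs d l i := by funext p; simp [Q23, h]
    show Measurable (Q23 d l m i)
    rw [this]
    exact meas_vs hd l i
  · have : Q23 d l m i = vj d i := by funext p; simp [Q23, h]
    show Measurable (Q23 d l m i)
    rw [this]
    exact meas_vj hd i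

private lemma A23_step_bad {l n m : ℕ} {p : Pt} (hg : ¬ good d l m p) : A23 d l n (m + 1) p = A23 d l n m p := by
  unfold A23
  refine Av_congr23 n (fun i _ => ⟨rfl, ?_⟩) 1
  show Q23 d l (m + 1) i p = Q23 d l m i p
  unfold Q23
  by_cases h : i < m
  · rw [if_pos h, if_pos (by omega)]
  · by_cases h' : i = m
    · subst h'
      rw [if_pos (by omega), if_neg (by omega)]
      simp only [vs, if_neg hg]
    · rw [if_neg h, if_neg (by omega)]

private lemma A23_step_good (hd : d.Ok) {l n m : ℕ} (hm : m < n) {p : Pt} (hi : iso d l n p) (hg : good d l m p) :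
    A23 d l n (m + 1) p = (A23 d l n m p + A23 d l n m (Fp d l m p)) / 2 := by
  obtain ⟨-, -, -, h4, h5⟩ := flip_pt hd hm hi hg
  have e : A23 d l n m (Fp d l m p) =
      Av (fun j => if j = m then vs d l m p else vj d j p)
        (fun j => if j = m then vs d l m p else Q23 d l m j p) n 1 := by
    unfold A23
    refine Av_congr23 n (fun i hin => ?_) 1
    by_cases h : i = m
    · subst h
      refine ⟨by simpa using h5, ?_⟩
      show Q23 d l i i (Fp d l i p) = if i = i then vs d l i p else _
      rw [if_pos rfl]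
      unfold Q23
      rw [if_neg (lt_irrefl i)]
      exact h5
    · obtain ⟨h6, h7⟩ := h4 i hin h
      refine ⟨by simpa [h] using h6, ?_⟩
      show Q23 d l m i (Fp d l m p) = if i = m then vs d l m p else Q23 d l m i p
      rw [if_neg h]
      unfold Q23
      rw [h6, h7]
  rw [e]
  unfold A23
  refine Av_split23 (m := m) (fun i h => ⟨rfl, ?_⟩) (fun i h => ⟨?_, ?_⟩) rfl ?_ ?_ ?_ n hm 1
  · show Q23 d l m i p = Q23 d l (m + 1) i p
    unfold Q23
    by_cases h' : i < m
    · rw [if_pos h', if_pos (by omega)]
    · rw [if_neg h', if_neg (by omega)]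
  · simp [h]
  · show (if i = m then vs d l m p else Q23 d l m i p) = Q23 d l (m + 1) i p
    rw [if_neg h]
    unfold Q23
    by_cases h' : i < m
    · rw [if_pos h', if_pos (by omega)]
    · rw [if_neg h', if_neg (by omega)]
  · show Q23 d l m m p = vj d m p
    unfold Q23
    rw [if_neg (lt_irrefl m)]
  · show (if m = m then vs d l m p else vj d m p) = Q23 d l (m + 1) m p
    unfold Q23
    rw [if_pos rfl, if_pos (Nat.lt_succ_self m)]
  · show (if m = m then vs d l m p else Q23 d l m m p) = Q23 d l (m + 1) m p
    unfold Q23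
    rw [if_pos rfl, if_pos (Nat.lt_succ_self m)]

private lemma A23_bd (l n m : ℕ) (p : Pt) : 0 ≤ A23 d l n m p ∧ A23 d l n m p ≤ 1 / 2 := Av_bd _ _ n

private lemma int_ind23 {f : Pt → ℝ} (hf : Measurable f) (h0 : ∀ p, 0 ≤ f p ∧ f p ≤ 1 / 2) {E : Set Pt}
    (hE : MeasurableSet E) : Integrable (E.indicator f) mu := by
  refine Integrable.of_bound (hf.indicator hE).aestronglyMeasurable (1 / 2) (Filter.Eventually.of_forall fun p => ?_)
  rw [Real.norm_eq_abs]
  by_cases h : p ∈ E
  · rw [Set.indicator_of_mem h, abs_of_nonneg (h0 p).1]; exact (h0 p).2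
  · rw [Set.indicator_of_notMem h, abs_zero]; norm_num

private lemma step23 (hd : d.Ok) {l n m : ℕ} (hm : m < n) :
    ∫ p, {p | iso d l n p}.indicator (A23 d l n (m + 1)) p ∂mu =
      ∫ p, {p | iso d l n p}.indicator (A23 d l n m) p ∂mu := by
  classical
  have mI := meas_iso hd l n
  have mG := meas_good hd l m
  have mIG : MeasurableSet {p | iso d l n p ∧ good d l m p} := mI.inter mG
  have mA := meas_A23 hd l n m
  have mAF : Measurable fun p => A23 d l n m (Fp d l m p) := mA.comp (meas_Fp hd l m)
  have hb := fun p => A23_bd (d := d) l n m p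
  -- the key: on the good part the average of the flipped point has the same integral
  have key : ∫ p, {p | iso d l n p ∧ good d l m p}.indicator (fun p => A23 d l n m (Fp d l m p)) p ∂mu =
      ∫ p, {p | iso d l n p ∧ good d l m p}.indicator (A23 d l n m) p ∂mu := by
    rw [integral_eq_lintegral_of_nonneg_ae, integral_eq_lintegral_of_nonneg_ae]
    · congr 1
      have e := flip_mp hd (l := l) hm (F := fun p => ENNReal.ofReal (A23 d l n m p)) mA.ennreal_ofReal
      have e1 : ∀ p, ENNReal.ofReal ({p | iso d l n p ∧ good d l m p}.indicator (fun p => A23 d l n m (Fp d l m p)) p) =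
          {p | iso d l n p ∧ good d l m p}.indicator (fun p => ENNReal.ofReal (A23 d l n m (Fp d l m p))) p := by
        intro p
        by_cases h : p ∈ {p | iso d l n p ∧ good d l m p}
        · rw [Set.indicator_of_mem h, Set.indicator_of_mem h]
        · rw [Set.indicator_of_notMem h, Set.indicator_of_notMem h, ENNReal.ofReal_zero]
      have e2 : ∀ p, ENNReal.ofReal ({p | iso d l n p ∧ good d l m p}.indicator (A23 d l n m) p) =
          {p | iso d l n p ∧ good d l m p}.indicator (fun p => ENNReal.ofReal (A23 d l n m p)) p := by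
        intro p
        by_cases h : p ∈ {p | iso d l n p ∧ good d l m p}
        · rw [Set.indicator_of_mem h, Set.indicator_of_mem h]
        · rw [Set.indicator_of_notMem h, Set.indicator_of_notMem h, ENNReal.ofReal_zero]
      rw [lintegral_congr e1, lintegral_congr e2]
      exact e
    · exact Filter.Eventually.of_forall fun p => Set.indicator_nonneg (fun q _ => (hb q).1) p
    · exact (mA.indicator mIG).aestronglyMeasurable
    · exact Filter.Eventually.of_forall fun p => Set.indicator_nonneg (fun q _ => (hb _).1) p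
    · exact (mAF.indicator mIG).aestronglyMeasurable
  -- pointwise decomposition
  have dec : ∀ p, {p | iso d l n p}.indicator (A23 d l n (m + 1)) p =
      {p | iso d l n p}.indicator (A23 d l n m) p +
        ({p | iso d l n p ∧ good d l m p}.indicator (fun p => A23 d l n m (Fp d l m p)) p -
          {p | iso d l n p ∧ good d l m p}.indicator (A23 d l n m) p) / 2 := by
    intro p
    by_cases h : iso d l n p
    · have h' : p ∈ {p | iso d l n p} := h
      rw [Set.indicator_of_mem h', Set.indicator_of_mem h']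
      by_cases hg : good d l m p
      · have h'' : p ∈ {p | iso d l n p ∧ good d l m p} := ⟨h, hg⟩
        rw [Set.indicator_of_mem h'', Set.indicator_of_mem h'', A23_step_good hd hm h hg]
        ring
      · have h'' : p ∉ {p | iso d l n p ∧ good d l m p} := fun hh => hg hh.2
        rw [Set.indicator_of_notMem h'', Set.indicator_of_notMem h'', A23_step_bad hg]
        ring
    · have h' : p ∉ {p | iso d l n p} := h
      have h'' : p ∉ {p | iso d l n p ∧ good d l m p} := fun hh => h hh.1
      rw [Set.indicator_of_notMem h', Set.indicator_of_notMem h', Set.indicator_of_notMem h'',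
        Set.indicator_of_notMem h'']
      ring
  have i1 := int_ind23 mA hb mI
  have i2 := int_ind23 mA hb mIG
  have i3 := int_ind23 mAF (fun p => hb _) mIG
  have i4 : Integrable (fun p => ({p | iso d l n p ∧ good d l m p}.indicator (fun p => A23 d l n m (Fp d l m p)) p -
      {p | iso d l n p ∧ good d l m p}.indicator (A23 d l n m) p) / 2) mu := (i3.sub i2).div_const 2
  rw [integral_congr_ae (Filter.Eventually.of_forall dec), integral_add i1 i4,
    integral_div, integral_sub i3 i2, key, sub_self, zero_div, add_zero]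

open Classical in
theorem flip_all (hd : d.Ok) (l n : ℕ) :
    ∫ p, (if iso d l n p then (nn (Mm d n p))⁻¹ else 0) ∂mu =
      ∫ p, (if iso d l n p then Av (fun j => vj d j p) (fun j => vs d l j p) n 1 else 0) ∂mu := by
  have h : ∀ m ≤ n, ∫ p, {p | iso d l n p}.indicator (A23 d l n m) p ∂mu =
      ∫ p, {p | iso d l n p}.indicator (A23 d l n 0) p ∂mu := by
    intro m
    induction m with
    | zero => intro _; rfl
    | succ m ih => intro hm; rw [step23 hd (by omega), ih (by omega)]
  have e1 : ∀ p, (if iso d l n p then (nn (Mm d n p))⁻¹ else 0) =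
      {p | iso d l n p}.indicator (A23 d l n 0) p := by
    intro p
    by_cases hp : iso d l n p
    · have hp' : p ∈ {p | iso d l n p} := hp
      rw [if_pos hp, Set.indicator_of_mem hp', ← Av_vj]
      unfold A23
      refine Av_congr23 n (fun i _ => ⟨rfl, ?_⟩) 1
      simp [Q23]
    · have hp' : p ∉ {p | iso d l n p} := hp
      rw [if_neg hp, Set.indicator_of_notMem hp']
  have e2 : ∀ p, (if iso d l n p then Av (fun j => vj d j p) (fun j => vs d l j p) n 1 else 0) =
      {p | iso d l n p}.indicator (A23 d l n n) p := by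
    intro p
    by_cases hp : iso d l n p
    · have hp' : p ∈ {p | iso d l n p} := hp
      rw [if_pos hp, Set.indicator_of_mem hp']
      unfold A23
      refine Av_congr23 n (fun i hi => ⟨rfl, ?_⟩) 1
      simp [Q23, hi]
    · have hp' : p ∉ {p | iso d l n p} := hp
      rw [if_neg hp, Set.indicator_of_notMem hp']
  rw [integral_congr_ae (Filter.Eventually.of_forall e1), integral_congr_ae (Filter.Eventually.of_forall e2)]
  exact (h n le_rfl).symm

end Pool.Agent.Helper18.HY
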