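import Pool.Agent.Helper18.HY.FlipA
import Pool.Agent.Helper18.HY.Flip2

/-! Block HY-GOODA: given the past, a site is good with probability exactly one half.

Let `Y` not depend on the two noise coordinates of the cell of the `k`-th position, if the positions `0, ..., k` are isolated. Proof as in `Weg.lean` (`fiber52`, `int_z52`): for fixed `z` sum over the cells `c`, `res2`; on the fibre over `ω` the event `iso d l (k+1)`, `cj = c`, `tj`, `Y` are constant in `(u, v)`
(`upd_congr`), and the site is good iff `|cl u + cl v t| ≤ 1/2 ∧ cl v < 1`, `|t| ≤ 1/2` (`inn_cel`): `half2`. -/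

set_option autoImplicit false
open MeasureTheory Real Set
open scoped ENNReal

namespace Pool.Agent.Helper18.HY

open Pool.Agent.Helper18.UC (T2 rep toT nn)
open Pool.Agent.Helper18.FD (NN rr pr cl uu lm Bump k1 k2 NN_pos NN_ge)
open Pool.Agent.Helper95.PV (Ix Om PP lv rp tc inn out cel upd mv mu Pt rv)

variable {d : Dat}

private theorem upd_false21 (l : ℕ) (c : ℕ) (u v : ℝ) (ω : Om) :
    upd l c u v ω (l, c, false) = u := by
  unfold upd
  rw [Function.update_of_ne (by simp), Function.update_self]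

private theorem upd_true21 (l : ℕ) (c : ℕ) (u v : ℝ) (ω : Om) :
    upd l c u v ω (l, c, true) = v := by
  unfold upd
  rw [Function.update_self]

private theorem upd_upd21 (l : ℕ) (c : ℕ) (u v u' v' : ℝ) (ω : Om) :
    upd l c u v (upd l c u' v' ω) = upd l c u v ω := by
  funext i
  unfold upd
  by_cases h1 : i = (l, c, true)
  · rw [h1, Function.update_self, Function.update_self]
  · rw [Function.update_of_ne h1, Function.update_of_ne h1]
    by_cases h2 : i = (l, c, false)
    · rw [h2, Function.update_self, Function.update_self]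
    · rw [Function.update_of_ne h2, Function.update_of_ne h2, Function.update_of_ne h1,
        Function.update_of_ne h2]

/-- the cell at time `k` is `c`, and the point is in `A` -/
private def AA21 (d : Dat) (l k : ℕ) (A : Set Pt) (z : T2) (c : ℕ) : Set Om :=
  {ω | (ω, z) ∈ A ∧ cj d l k (ω, z) = c}

private theorem AA_meas21 (hd : d.Ok) (l k : ℕ) {A : Set Pt} (hA : MeasurableSet A) (z : T2)
    (c : ℕ) : MeasurableSet (AA21 d l k A z c) := by
  have hz : Measurable fun ω : Om => ((ω, z) : Pt) := measurable_id.prodMk measurable_const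
  have h1 : MeasurableSet {ω : Om | cj d l k (ω, z) = c} :=
    ((Pool.Agent.Helper95.PV.meas_cel l).comp ((meas_px hd k).comp hz))
      (measurableSet_singleton c)
  exact (hz hA).inter h1

/-- the sum over the cells -/
private theorem dec21 (hd : d.Ok) (l k : ℕ) {A : Set Pt} (hA : MeasurableSet A)
    {Y : Pt → ℝ≥0∞} (hY : Measurable Y) (z : T2) :
    ∫⁻ ω, A.indicator Y (ω, z) ∂PP = ∑ c ∈ Finset.range (NN l), ∫⁻ ω, ∫⁻ u, ∫⁻ v,
      (AA21 d l k A z c).indicator (fun ω => Y (ω, z)) (upd l c u v ω) ∂uu ∂uu ∂PP := by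
  have hz : Measurable fun ω : Om => ((ω, z) : Pt) := measurable_id.prodMk measurable_const
  have hm : ∀ c, Measurable ((AA21 d l k A z c).indicator (fun ω => Y (ω, z))) := fun c =>
    (hY.comp hz).indicator (AA_meas21 hd l k hA z c)
  have h1 : ∀ ω, A.indicator Y (ω, z) = ∑ c ∈ Finset.range (NN l),
      (AA21 d l k A z c).indicator (fun ω => Y (ω, z)) ω := by
    intro ω
    rw [Finset.sum_eq_single (cj d l k (ω, z))]
    · by_cases hω : ((ω, z) : Pt) ∈ A
      · have h2 : ω ∈ AA21 d l k A z (cj d l k (ω, z)) := ⟨hω, rfl⟩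
        rw [Set.indicator_of_mem hω, Set.indicator_of_mem h2]
      · have h2 : ω ∉ AA21 d l k A z (cj d l k (ω, z)) := fun h => hω h.1
        rw [Set.indicator_of_notMem hω, Set.indicator_of_notMem h2]
    · intro c _ hc
      have h2 : ω ∉ AA21 d l k A z c := fun h => hc h.2.symm
      exact Set.indicator_of_notMem h2 _
    · intro h
      exact absurd (Finset.mem_range.2 (Pool.Agent.Helper95.PV.cel_lt l _)) h
  rw [lintegral_congr h1, lintegral_finsetSum _ fun c _ => hm c]
  exact Finset.sum_congr rfl fun c _ => Pool.Agent.Helper95.PV.res2 l c (hm c)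

private theorem fiber21 (hd : d.Ok) {l k : ℕ} {Y : Pt → ℝ≥0∞}
    (h : ∀ (p : Pt) (u v : ℝ), iso d l (k + 1) p → Y (upd l (cj d l k p) u v p.1, p.2) = Y p)
    (z : T2) (c : ℕ) (ω : Om) :
    ∫⁻ u, ∫⁻ v, (AA21 d l k {p | iso d l (k + 1) p ∧ good d l k p} z c).indicator
        (fun ω => Y (ω, z)) (upd l c u v ω) ∂uu ∂uu =
      2⁻¹ * ∫⁻ u, ∫⁻ v, (AA21 d l k {p | iso d l (k + 1) p} z c).indicator
        (fun ω => Y (ω, z)) (upd l c u v ω) ∂uu ∂uu := by
  by_cases hex : ∃ u' v', upd l c u' v' ω ∈ AA21 d l k {p | iso d l (k + 1) p} z c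
  · obtain ⟨u', v', hH⟩ := hex
    have hw : ∀ u v, upd l c u v ω = upd l c u v (upd l c u' v' ω) := fun u v =>
      (upd_upd21 l c u v u' v' ω).symm
    generalize hω' : upd l c u' v' ω = ω' at hH hw
    obtain ⟨hi, hc⟩ := hH
    change iso d l (k + 1) (ω', z) at hi
    have hpx : ∀ u v, ∀ i ≤ k, px d i (upd l c u v ω, z) = px d i (ω', z) := by
      intro u v i hik
      have := (upd_congr hd hi u v).1 i hik
      rw [hc] at this
      rw [hw]
      exact this
    have hiso : ∀ u v, iso d l (k + 1) (upd l c u v ω, z) := by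
      intro u v i hi' j hj' hij
      rw [hpx u v i (by omega), hpx u v j (by omega)]
      exact hi i hi' j hj' hij
    have hcj : ∀ u v, cj d l k (upd l c u v ω, z) = c := by
      intro u v
      unfold cj
      rw [hpx u v k le_rfl]
      exact hc
    have hYc : ∀ u v, Y (upd l c u v ω, z) = Y (ω', z) := by
      intro u v
      have := h (ω', z) u v hi
      rw [hc] at this
      rw [hw]
      exact this
    set t : ℝ := tc l c (px d k (ω', z)) with ht
    have ht2 : |t| ≤ 1 / 2 := by
      have h1 := Pool.Agent.Helper95.PV.inn_cel l (px d k (ω', z))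
      have h2 : cel l (px d k (ω', z)) = c := hc
      rw [h2] at h1
      exact h1
    have hgood : ∀ u v, good d l k (upd l c u v ω, z) ↔
        |cl u + cl v * t| ≤ 1 / 2 ∧ cl v < 1 := by
      intro u v
      have e1 : uj d l k (upd l c u v ω, z) = cl u := by
        unfold uj
        rw [hcj]
        exact congrArg cl (upd_false21 l c u v ω)
      have e2 : wj d l k (upd l c u v ω, z) = cl v := by
        unfold wj
        rw [hcj]
        exact congrArg cl (upd_true21 l c u v ω)
      have e3 : tj d l k (upd l c u v ω, z) = t := by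
        unfold tj
        rw [hcj, hpx u v k le_rfl]
      unfold good
      rw [e1, e2, e3]
    have e1 : ∀ u v, (AA21 d l k {p | iso d l (k + 1) p ∧ good d l k p} z c).indicator
        (fun ω => Y (ω, z)) (upd l c u v ω) = Y (ω', z) *
          {q : ℝ × ℝ | |cl q.1 + cl q.2 * t| ≤ 1 / 2 ∧ cl q.2 < 1}.indicator
            (fun _ => (1 : ℝ≥0∞)) (u, v) := by
      intro u v
      by_cases hg : good d l k (upd l c u v ω, z)
      · have h1 : upd l c u v ω ∈ AA21 d l k {p | iso d l (k + 1) p ∧ good d l k p} z c :=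
          ⟨⟨hiso u v, hg⟩, hcj u v⟩
        have h2 : ((u, v) : ℝ × ℝ) ∈
            {q : ℝ × ℝ | |cl q.1 + cl q.2 * t| ≤ 1 / 2 ∧ cl q.2 < 1} := (hgood u v).1 hg
        rw [Set.indicator_of_mem h1, Set.indicator_of_mem h2, mul_one, hYc]
      · have h1 : upd l c u v ω ∉ AA21 d l k {p | iso d l (k + 1) p ∧ good d l k p} z c :=
          fun hh => hg hh.1.2
        have h2 : ((u, v) : ℝ × ℝ) ∉
            {q : ℝ × ℝ | |cl q.1 + cl q.2 * t| ≤ 1 / 2 ∧ cl q.2 < 1} :=
          fun hh => hg ((hgood u v).2 hh)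
        rw [Set.indicator_of_notMem h1, Set.indicator_of_notMem h2, mul_zero]
    have e2 : ∀ u v, (AA21 d l k {p | iso d l (k + 1) p} z c).indicator
        (fun ω => Y (ω, z)) (upd l c u v ω) = Y (ω', z) := by
      intro u v
      have h1 : upd l c u v ω ∈ AA21 d l k {p | iso d l (k + 1) p} z c :=
        ⟨hiso u v, hcj u v⟩
      rw [Set.indicator_of_mem h1, hYc]
    have hcl : Measurable cl := measurable_const.max (measurable_const.min measurable_id)
    have hS : MeasurableSet
        {q : ℝ × ℝ | |cl q.1 + cl q.2 * t| ≤ 1 / 2 ∧ cl q.2 < 1} := by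
      have m1 : Measurable fun q : ℝ × ℝ => |cl q.1 + cl q.2 * t| :=
        ((hcl.comp measurable_fst).add ((hcl.comp measurable_snd).mul_const t)).abs
      have m2 : Measurable fun q : ℝ × ℝ => cl q.2 := hcl.comp measurable_snd
      exact (measurableSet_le m1 measurable_const).inter (measurableSet_lt m2 measurable_const)
    have hI : Measurable fun q : ℝ × ℝ =>
        {q : ℝ × ℝ | |cl q.1 + cl q.2 * t| ≤ 1 / 2 ∧ cl q.2 < 1}.indicator
            (fun _ => (1 : ℝ≥0∞)) (q.1, q.2) := measurable_const.indicator hS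
    simp only [e1, e2]
    have h1 : ∀ u : ℝ, ∫⁻ v, Y (ω', z) *
          {q : ℝ × ℝ | |cl q.1 + cl q.2 * t| ≤ 1 / 2 ∧ cl q.2 < 1}.indicator
            (fun _ => (1 : ℝ≥0∞)) (u, v) ∂uu = Y (ω', z) * ∫⁻ v,
          {q : ℝ × ℝ | |cl q.1 + cl q.2 * t| ≤ 1 / 2 ∧ cl q.2 < 1}.indicator
            (fun _ => (1 : ℝ≥0∞)) (u, v) ∂uu := fun u =>
      lintegral_const_mul _ (hI.comp (measurable_const.prodMk measurable_id))
    rw [lintegral_congr h1, lintegral_const_mul _ hI.lintegral_prod_right', half2 ht2,
      lintegral_const, measure_univ, mul_one, lintegral_const, measure_univ, mul_one, mul_comm]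
  · push Not at hex
    have e1 : ∀ u v, (AA21 d l k {p | iso d l (k + 1) p ∧ good d l k p} z c).indicator
        (fun ω => Y (ω, z)) (upd l c u v ω) = 0 := by
      intro u v
      apply Set.indicator_of_notMem
      exact fun hh => hex u v ⟨hh.1.1, hh.2⟩
    have e2 : ∀ u v, (AA21 d l k {p | iso d l (k + 1) p} z c).indicator
        (fun ω => Y (ω, z)) (upd l c u v ω) = 0 := fun u v =>
      Set.indicator_of_notMem (hex u v) _
    simp only [e1, e2, lintegral_zero, mul_zero]

theorem half (hd : d.Ok) {l k : ℕ} {Y : Pt → ℝ≥0∞} (hY : Measurable Y)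
    (h : ∀ (p : Pt) (u v : ℝ), iso d l (k + 1) p → Y (upd l (cj d l k p) u v p.1, p.2) = Y p) :
    ∫⁻ p, {p | iso d l (k + 1) p ∧ good d l k p}.indicator Y p ∂mu =
      2⁻¹ * ∫⁻ p, {p | iso d l (k + 1) p}.indicator Y p ∂mu := by
  have hB : MeasurableSet {p : Pt | iso d l (k + 1) p} := meas_iso hd l (k + 1)
  have hA : MeasurableSet {p : Pt | iso d l (k + 1) p ∧ good d l k p} :=
    hB.inter (meas_good hd l k)
  unfold mu
  rw [lintegral_prod_symm _ (hY.indicator hA).aemeasurable,
    lintegral_prod_symm _ (hY.indicator hB).aemeasurable,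
    ← lintegral_const_mul _ (hY.indicator hB).lintegral_prod_left']
  apply lintegral_congr
  intro z
  rw [dec21 hd l k hA hY z, dec21 hd l k hB hY z, Finset.mul_sum]
  apply Finset.sum_congr rfl
  intro c _
  rw [← lintegral_const_mul' _ _ (by simp)]
  apply lintegral_congr
  intro ω
  exact fiber21 hd h z c ω

end Pool.Agent.Helper18.HY
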