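import Pool.Agent.Helper18.HY.GoodA

/-! Block HY-GOODB: the number of good pairs is large with high probability.

`W n = ∏ i < n, (if good (2i) ∧ good (2i+1) then η else 1)`, between `0` and `1`. `W n` and `1_{good (2n)} W n` do not depend on the noise of the cell of the next position if all positions up to it are isolated (`upd_congr`).
`E[1_iso(2n+2) W (n+1)] = E[1_iso(2n+2) W n] - (1-η) E[1_iso(2n+2) W n 1_good(2n) 1_good(2n+1)] = E[1_iso(2n+2) W n (1 - (1-η)/2 1_good(2n))]` (`half` with `k = 2n+1`) `≤ E[1_iso(2n+1) W n (1 - (1-η)/2 1_good(2n))]` (`iso` decreases with the number of positions, the integrand is nonnegative)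
`= (1 - (1-η)/4) E[1_iso(2n+1) W n]` (`half` with `k = 2n`) `≤ (1 - (1-η)/4) E[1_iso(2n) W n]`. -/

set_option autoImplicit false
open MeasureTheory Real Set
open scoped ENNReal

namespace Pool.Agent.Helper18.HY

open Pool.Agent.Helper18.UC (T2 rep toT nn)
open Pool.Agent.Helper18.FD (NN rr pr cl uu lm Bump k1 k2 NN_pos NN_ge)
open Pool.Agent.Helper95.PV (Ix Om PP lv rp tc inn out cel upd mv mu Pt rv)

variable {d : Dat}

private theorem mu_univ38 : mu univ = 1 := by
  unfold mu
  exact measure_univ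

open Classical in
private noncomputable def W38 (d : Dat) (l : ℕ) (η : ℝ) (n : ℕ) (p : Pt) : ℝ :=
  ∏ i ∈ Finset.range n, (if good d l (2 * i) p ∧ good d l (2 * i + 1) p then η else 1)

private theorem W_zero38 (d : Dat) (l : ℕ) (η : ℝ) (p : Pt) : W38 d l η 0 p = 1 := by
  unfold W38
  rw [Finset.range_zero, Finset.prod_empty]

open Classical in
private theorem W_succ38 (d : Dat) (l : ℕ) (η : ℝ) (n : ℕ) (p : Pt) :
    W38 d l η (n + 1) p = W38 d l η n p *
      (if good d l (2 * n) p ∧ good d l (2 * n + 1) p then η else 1) := by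
  unfold W38
  rw [Finset.prod_range_succ]

private theorem W_nonneg38 (d : Dat) (l : ℕ) {η : ℝ} (h0 : 0 ≤ η) (n : ℕ) (p : Pt) :
    0 ≤ W38 d l η n p := by
  unfold W38
  refine Finset.prod_nonneg fun i _ => ?_
  split_ifs
  · exact h0
  · exact zero_le_one

private theorem meas_W38 (hd : d.Ok) (l : ℕ) (η : ℝ) (n : ℕ) : Measurable (W38 d l η n) := by
  unfold W38
  refine Finset.measurable_prod _ fun i _ => ?_
  exact Measurable.ite ((meas_good hd l (2 * i)).inter (meas_good hd l (2 * i + 1)))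
    measurable_const measurable_const

private theorem W_congr38 (hd : d.Ok) (l : ℕ) (η : ℝ) {n k : ℕ} (hk : 2 * n ≤ k) (p : Pt) (u v : ℝ)
    (hi : iso d l (k + 1) p) :
    W38 d l η n (upd l (cj d l k p) u v p.1, p.2) = W38 d l η n p := by
  unfold W38
  refine Finset.prod_congr rfl fun i hi2 => ?_
  have h1 := Finset.mem_range.1 hi2
  have h2 := (upd_congr hd hi u v).2
  rw [h2 (2 * i) (by omega), h2 (2 * i + 1) (by omega)]

private theorem iso_mono38 {l m n : ℕ} (h : m ≤ n) {p : Pt} (hi : iso d l n p) : iso d l m p :=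
  fun i h1 j h2 h3 => hi i (h1.trans_le h) j (h2.trans_le h) h3

/-- `half` and its complement -/
private theorem halves38 (hd : d.Ok) {l k : ℕ} {Y : Pt → ℝ≥0∞} (hY : Measurable Y)
    (h : ∀ (p : Pt) (u v : ℝ), iso d l (k + 1) p → Y (upd l (cj d l k p) u v p.1, p.2) = Y p)
    (hfin : ∫⁻ p, {p | iso d l (k + 1) p}.indicator Y p ∂mu ≠ ⊤) :
    ∫⁻ p, {p | iso d l (k + 1) p ∧ ¬ good d l k p}.indicator Y p ∂mu =
      2⁻¹ * ∫⁻ p, {p | iso d l (k + 1) p}.indicator Y p ∂mu := by
  have h1 := half hd hY h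
  have hm : MeasurableSet {p | iso d l (k + 1) p ∧ good d l k p} :=
    (meas_iso hd l (k + 1)).inter (meas_good hd l k)
  have h2 : ∫⁻ p, {p | iso d l (k + 1) p}.indicator Y p ∂mu =
      ∫⁻ p, {p | iso d l (k + 1) p ∧ good d l k p}.indicator Y p ∂mu +
      ∫⁻ p, {p | iso d l (k + 1) p ∧ ¬ good d l k p}.indicator Y p ∂mu := by
    rw [← lintegral_add_left (hY.indicator hm)]
    refine lintegral_congr fun p => ?_
    by_cases hp : iso d l (k + 1) p
    · by_cases hg : good d l k p
      · simp [Set.indicator, hp, hg]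
      · simp [Set.indicator, hp, hg]
    · simp [Set.indicator, hp]
  set A := ∫⁻ p, {p | iso d l (k + 1) p}.indicator Y p ∂mu with hA
  set B := ∫⁻ p, {p | iso d l (k + 1) p ∧ ¬ good d l k p}.indicator Y p ∂mu with hB
  rw [h1] at h2
  have h3 : (2⁻¹ : ℝ≥0∞) * A + 2⁻¹ * A = A := by
    rw [← add_mul, ENNReal.inv_two_add_inv_two, one_mul]
  have h4 : (2⁻¹ : ℝ≥0∞) * A ≠ ⊤ := ENNReal.mul_ne_top (by norm_num) hfin
  have h5 : (2⁻¹ : ℝ≥0∞) * A + B = 2⁻¹ * A + 2⁻¹ * A := by rw [← h2, h3]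
  exact (ENNReal.add_right_inj h4).1 h5

private noncomputable def A38 (d : Dat) (l : ℕ) (η : ℝ) (n m : ℕ) : ℝ≥0∞ :=
  ∫⁻ p, {p | iso d l m p}.indicator (fun p => ENNReal.ofReal (W38 d l η n p)) p ∂mu

private theorem W_le38 (d : Dat) (l : ℕ) {η : ℝ} (h0 : 0 ≤ η) (h1 : η ≤ 1) (n : ℕ) (p : Pt) :
    W38 d l η n p ≤ 1 := by
  unfold W38
  refine Finset.prod_le_one (fun i _ => ?_) fun i _ => ?_
  · split_ifs
    · exact h0
    · exact zero_le_one
  · split_ifs
    · exact h1
    · exact le_rfl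

private theorem ind_le38 (S : Set Pt) {Y : Pt → ℝ≥0∞} (hY : ∀ p, Y p ≤ 1) :
    ∫⁻ p, S.indicator Y p ∂mu ≤ 1 := by
  calc ∫⁻ p, S.indicator Y p ∂mu ≤ ∫⁻ _, 1 ∂mu := lintegral_mono fun p => by
        by_cases h : p ∈ S
        · rw [Set.indicator_of_mem h]
          exact hY p
        · rw [Set.indicator_of_notMem h]
          exact zero_le_one
    _ = 1 := by rw [lintegral_one, mu_univ38]

private theorem step38 (hd : d.Ok) (l n : ℕ) {η : ℝ} (h0 : 0 ≤ η) (h1 : η ≤ 1) :
    A38 d l η (n + 1) (2 * (n + 1)) ≤ ENNReal.ofReal (1 - (1 - η) / 4) * A38 d l η n (2 * n) := by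
  classical
  have hYm : Measurable fun p => ENNReal.ofReal (W38 d l η n p) :=
    ENNReal.measurable_ofReal.comp (meas_W38 hd l η n)
  have hY1 : ∀ p, ENNReal.ofReal (W38 d l η n p) ≤ 1 := fun p => by
    rw [← ENNReal.ofReal_one]
    exact ENNReal.ofReal_le_ofReal (W_le38 d l h0 h1 n p)
  set Y : Pt → ℝ≥0∞ := fun p => ENNReal.ofReal (W38 d l η n p) with hY
  set G : Set Pt := {p | good d l (2 * n) p} with hG
  have hGm : MeasurableSet G := meas_good hd l (2 * n)
  set Z : Pt → ℝ≥0∞ := G.indicator Y with hZ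
  have hZm : Measurable Z := hYm.indicator hGm
  have hZ1 : ∀ p, Z p ≤ 1 := fun p => by
    rw [hZ]
    by_cases h : p ∈ G
    · rw [Set.indicator_of_mem h]
      exact hY1 p
    · rw [Set.indicator_of_notMem h]
      exact zero_le_one
  have cY : ∀ (p : Pt) (u v : ℝ), iso d l (2 * n + 1) p →
      Y (upd l (cj d l (2 * n) p) u v p.1, p.2) = Y p := by
    intro p u v hi
    show ENNReal.ofReal _ = ENNReal.ofReal _
    rw [W_congr38 hd l η le_rfl p u v hi]
  have cZ : ∀ (p : Pt) (u v : ℝ), iso d l (2 * n + 1 + 1) p →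
      Z (upd l (cj d l (2 * n + 1) p) u v p.1, p.2) = Z p := by
    intro p u v hi
    have e1 : Y (upd l (cj d l (2 * n + 1) p) u v p.1, p.2) = Y p := by
      show ENNReal.ofReal _ = ENNReal.ofReal _
      rw [W_congr38 hd l η (by omega) p u v hi]
    have e2 := (upd_congr hd hi u v).2 (2 * n) (by omega)
    by_cases hg : good d l (2 * n) p
    · have m1 : p ∈ G := hg
      have m2 : (upd l (cj d l (2 * n + 1) p) u v p.1, p.2) ∈ G := e2.2 hg
      rw [hZ, Set.indicator_of_mem m1, Set.indicator_of_mem m2, e1]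
    · have m1 : p ∉ G := hg
      have m2 : (upd l (cj d l (2 * n + 1) p) u v p.1, p.2) ∉ G := fun h => hg (e2.1 h)
      rw [hZ, Set.indicator_of_notMem m1, Set.indicator_of_notMem m2]
  -- the four integrals
  have f1 := half hd hZm cZ
  have f2 := halves38 hd hZm cZ ((ind_le38 _ hZ1).trans_lt ENNReal.one_lt_top).ne
  have f3 := half hd hYm cY
  have f4 := halves38 hd hYm cY ((ind_le38 _ hY1).trans_lt ENNReal.one_lt_top).ne
  set b := ∫⁻ p, {p | iso d l (2 * n + 1 + 1) p}.indicator Z p ∂mu with hb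
  set A := ∫⁻ p, {p | iso d l (2 * n + 1) p}.indicator Y p ∂mu with hA
  have mI : MeasurableSet {p | iso d l (2 * n + 1 + 1) p} := meas_iso hd l _
  have mG1 : MeasurableSet {p | good d l (2 * n + 1) p} := meas_good hd l _
  have mI1 : MeasurableSet {p | iso d l (2 * n + 1) p} := meas_iso hd l _
  -- splitting of the new integral
  have s1 : A38 d l η (n + 1) (2 * (n + 1)) =
      ENNReal.ofReal η * ∫⁻ p, {p | iso d l (2 * n + 1 + 1) p ∧ good d l (2 * n + 1) p}.indicator Z p ∂mu +
      (∫⁻ p, {p | iso d l (2 * n + 1 + 1) p ∧ ¬ good d l (2 * n + 1) p}.indicator Z p ∂mu +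
      ∫⁻ p, {p | iso d l (2 * n + 1 + 1) p ∧ ¬ good d l (2 * n) p}.indicator Y p ∂mu) := by
    have k1 : Measurable fun p => {p | iso d l (2 * n + 1 + 1) p ∧ good d l (2 * n + 1) p}.indicator Z p :=
      hZm.indicator (mI.inter mG1)
    have k2 : Measurable fun p => {p | iso d l (2 * n + 1 + 1) p ∧ ¬ good d l (2 * n + 1) p}.indicator Z p :=
      hZm.indicator (mI.inter mG1.compl)
    rw [← lintegral_const_mul _ k1, ← lintegral_add_left k2, ← lintegral_add_left (k1.const_mul _)]
    unfold A38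
    refine lintegral_congr fun p => ?_
    rw [show 2 * (n + 1) = 2 * n + 1 + 1 by ring]
    by_cases hp : iso d l (2 * n + 1 + 1) p
    · by_cases hg0 : good d l (2 * n) p
      · by_cases hg1 : good d l (2 * n + 1) p
        · simp only [Set.indicator, Set.mem_ofPred_eq, hp, hg0, hg1, W_succ38, hZ, hG, hY, and_self,
            not_true_eq_false, and_false, if_true, if_false, add_zero]
          rw [mul_comm, ENNReal.ofReal_mul h0]
        · simp [Set.indicator, hp, hg0, hg1, W_succ38, hZ, hG, hY]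
      · simp [Set.indicator, hp, hg0, W_succ38, hZ, hG, hY]
    · simp [Set.indicator, hp]
  have s2 : ∫⁻ p, {p | iso d l (2 * n + 1 + 1) p ∧ ¬ good d l (2 * n) p}.indicator Y p ∂mu ≤ 2⁻¹ * A := by
    rw [← f4]
    refine lintegral_mono fun p => ?_
    refine Set.indicator_le_indicator_of_subset ?_ (fun _ => zero_le) p
    intro q hq
    exact ⟨iso_mono38 (by omega) hq.1, hq.2⟩
  have s3 : b ≤ 2⁻¹ * A := by
    rw [← f3, hb]
    refine lintegral_mono fun p => ?_
    by_cases hp : iso d l (2 * n + 1 + 1) p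
    · by_cases hg : good d l (2 * n) p
      · have hp1 := iso_mono38 (l := l) (d := d) (show 2 * n + 1 ≤ 2 * n + 1 + 1 by omega) hp
        simp [Set.indicator, hp, hg, hp1, hZ, hG]
      · simp [Set.indicator, hg, hZ, hG]
    · simp [Set.indicator, hp]
  have s4 : A ≤ A38 d l η n (2 * n) := by
    rw [hA]
    unfold A38
    refine lintegral_mono fun p => ?_
    refine Set.indicator_le_indicator_of_subset ?_ (fun _ => zero_le) p
    intro q hq
    exact iso_mono38 (by omega) hq
  rw [s1, f1, f2]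
  calc ENNReal.ofReal η * (2⁻¹ * b) + (2⁻¹ * b +
        ∫⁻ p, {p | iso d l (2 * n + 1 + 1) p ∧ ¬ good d l (2 * n) p}.indicator Y p ∂mu)
      ≤ ENNReal.ofReal η * (2⁻¹ * (2⁻¹ * A)) + (2⁻¹ * (2⁻¹ * A) + 2⁻¹ * A) := by
        gcongr
    _ = ENNReal.ofReal (1 - (1 - η) / 4) * A := by
        have e2 : (2⁻¹ : ℝ≥0∞) = ENNReal.ofReal (1 / 2) := by
          rw [one_div, ENNReal.ofReal_inv_of_pos (by norm_num), ENNReal.ofReal_ofNat]
        rw [e2, ← mul_assoc (ENNReal.ofReal (1 / 2)) _ A, ← mul_assoc, ← add_mul, ← add_mul,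
          ← ENNReal.ofReal_mul (by norm_num), ← ENNReal.ofReal_mul h0,
          ← ENNReal.ofReal_add (by norm_num) (by norm_num), ← ENNReal.ofReal_add (by positivity) (by norm_num)]
        congr 2
        ring
    _ ≤ ENNReal.ofReal (1 - (1 - η) / 4) * A38 d l η n (2 * n) := by gcongr

private theorem bound38 (hd : d.Ok) (l n : ℕ) {η : ℝ} (h0 : 0 ≤ η) (h1 : η ≤ 1) :
    A38 d l η n (2 * n) ≤ ENNReal.ofReal ((1 - (1 - η) / 4) ^ n) := by
  have hc : 0 ≤ 1 - (1 - η) / 4 := by linarith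
  induction n with
  | zero =>
    rw [pow_zero, ENNReal.ofReal_one]
    exact ind_le38 _ fun p => by rw [W_zero38, ENNReal.ofReal_one]
  | succ n ih =>
    refine (step38 hd l n h0 h1).trans ?_
    rw [pow_succ', ENNReal.ofReal_mul hc]
    gcongr

open Classical in
theorem good_all (hd : d.Ok) (l n : ℕ) {η : ℝ} (h0 : 0 ≤ η) (h1 : η ≤ 1) :
    ∫ p, (if iso d l (2 * n) p then ∏ i ∈ Finset.range n,
      (if good d l (2 * i) p ∧ good d l (2 * i + 1) p then η else 1) else 0) ∂mu ≤ (1 - (1 - η) / 4) ^ n := by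
  have hc : 0 ≤ 1 - (1 - η) / 4 := by linarith
  have e1 : (fun p : Pt => (if iso d l (2 * n) p then ∏ i ∈ Finset.range n,
      (if good d l (2 * i) p ∧ good d l (2 * i + 1) p then η else 1) else 0)) =
      fun p => if iso d l (2 * n) p then W38 d l η n p else 0 := by
    funext p
    unfold W38
    rfl
  rw [e1]
  have hn : ∀ p : Pt, 0 ≤ (if iso d l (2 * n) p then W38 d l η n p else 0) := by
    intro p
    split_ifs
    · exact W_nonneg38 d l h0 n p
    · exact le_rfl
  have hm : Measurable fun p : Pt => (if iso d l (2 * n) p then W38 d l η n p else 0) :=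
    Measurable.ite (meas_iso hd l (2 * n)) (meas_W38 hd l η n) measurable_const
  rw [integral_eq_lintegral_of_nonneg_ae (Filter.Eventually.of_forall hn) hm.aestronglyMeasurable]
  refine ENNReal.toReal_le_of_le_ofReal (pow_nonneg hc n) ?_
  refine le_trans (le_of_eq ?_) (bound38 hd l n h0 h1)
  unfold A38
  refine lintegral_congr fun p => ?_
  by_cases hp : iso d l (2 * n) p
  · simp [Set.indicator, hp]
  · simp [Set.indicator, hp]

end Pool.Agent.Helper18.HY
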