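import Pool.Agent.Helper18.HY.GoodB
import Pool.Agent.Helper18.HY.FlipC

/-! Block HY-GROWA: the mean of `1/|product|` on the isolated event.

`flip_all` for the window `2 n`, `av_le` with `p = vj`, `q = vs`, `σ = sg d l > 0`: if the site is good then `|vj - vs| = |a| κ k_l |fl w - w| = σ` (`|fl w - w| = 1`), otherwise `vj - vs = 0 ≠ σ`; `good_all` with `η = 1 - σ^2/50000`: `1 - (1-η)/4 = 1 - σ^2/200000`. -/

set_option autoImplicit false
open MeasureTheory Real Set
open scoped ENNReal

namespace Pool.Agent.Helper18.HY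

open Pool.Agent.Helper18.UC (T2 rep toT nn)
open Pool.Agent.Helper18.FD (NN rr pr cl uu lm Bump k1 k2 NN_pos NN_ge)
open Pool.Agent.Helper95.PV (Ix Om PP lv rp tc inn out cel upd mv mu Pt rv)

variable {d : Dat}

theorem sg_pos (hd : d.Ok) (l : ℕ) : 0 < sg d l := by
  unfold sg
  have h1 : 0 < |d.a| := lt_of_lt_of_le (by norm_num) hd.ha
  exact mul_pos (mul_pos h1 hd.hκ) (hd.hk0 l)

private theorem fl_sub56 (w : ℝ) : |fl w - w| = 1 := by
  unfold fl
  split_ifs
  · rw [sub_right_comm, sub_self, zero_sub, abs_neg, abs_one]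
  · rw [add_sub_cancel_left, abs_one]

theorem vs_iff (hd : d.Ok) (l j : ℕ) (p : Pt) : |vj d j p - vs d l j p| = sg d l ↔ good d l j p := by
  unfold vs
  by_cases h : good d l j p
  · rw [if_pos h]
    refine ⟨fun _ => h, fun _ => ?_⟩
    rw [sub_add_cancel_left, abs_neg, abs_mul, abs_mul, abs_mul, fl_sub56, mul_one,
      abs_of_pos hd.hκ, abs_of_pos (hd.hk0 l), ← mul_assoc]
    rfl
  · rw [if_neg h, sub_self, abs_zero]
    exact ⟨fun h0 => absurd h0 (sg_pos hd l).ne, fun h0 => absurd h0 h⟩

open Classical in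
theorem grow_int (hd : d.Ok) (l n : ℕ) (hσ : sg d l ≤ 1) :
    ∫ p, (if iso d l (2 * n) p then (nn (Mm d (2 * n) p))⁻¹ else 0) ∂mu ≤ (1 - sg d l ^ 2 / 200000) ^ n := by
  have hs := sg_pos hd l
  obtain ⟨η, hη⟩ : ∃ η, η = 1 - sg d l ^ 2 / 50000 := ⟨_, rfl⟩
  have hs2 : sg d l ^ 2 ≤ 1 := pow_le_one₀ hs.le hσ
  have h0 : 0 ≤ η := by rw [hη]; linarith
  have h1 : η ≤ 1 := by rw [hη]; linarith [sq_nonneg (sg d l)]
  have e : 1 - sg d l ^ 2 / 200000 = 1 - (1 - η) / 4 := by rw [hη]; ring
  rw [e, flip_all hd l (2 * n)]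
  refine le_trans ?_ (good_all hd l n h0 h1)
  have hpb : ∀ p, 0 ≤ (∏ i ∈ Finset.range n,
      (if good d l (2 * i) p ∧ good d l (2 * i + 1) p then η else 1) : ℝ) ∧
      (∏ i ∈ Finset.range n,
      (if good d l (2 * i) p ∧ good d l (2 * i + 1) p then η else 1) : ℝ) ≤ 1 := by
    intro p
    constructor
    · apply Finset.prod_nonneg
      intro i _
      split_ifs
      · exact h0
      · exact zero_le_one
    · apply Finset.prod_le_one
      · intro i _
        split_ifs
        · exact h0
        · exact zero_le_one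
      · intro i _
        split_ifs
        · exact h1
        · exact le_rfl
  apply integral_mono_of_nonneg
  · refine Filter.Eventually.of_forall fun p => ?_
    simp only [Pi.zero_apply]
    split_ifs
    · exact (Av_bd _ _ _).1
    · exact le_rfl
  · refine Integrable.mono' (g := fun _ => (1 : ℝ)) (integrable_const _) ?_ ?_
    · apply Measurable.aestronglyMeasurable
      refine Measurable.ite (meas_iso hd l (2 * n)) ?_ measurable_const
      refine Finset.measurable_prod _ fun i _ => ?_
      exact Measurable.ite ((meas_good hd l (2 * i)).inter (meas_good hd l (2 * i + 1)))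
        measurable_const measurable_const
    · refine Filter.Eventually.of_forall fun p => ?_
      rw [Real.norm_eq_abs]
      split_ifs
      · rw [abs_of_nonneg (hpb p).1]
        exact (hpb p).2
      · rw [abs_zero]
        exact zero_le_one
  · refine Filter.Eventually.of_forall fun p => ?_
    show (if iso d l (2 * n) p then Av (fun j => vj d j p) (fun j => vs d l j p) (2 * n) 1 else 0) ≤
      (if iso d l (2 * n) p then ∏ i ∈ Finset.range n,
      (if good d l (2 * i) p ∧ good d l (2 * i + 1) p then η else 1) else 0)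
    split_ifs with hi
    · refine (av_le hs hσ _ _ n).trans (le_of_eq ?_)
      apply Finset.prod_congr rfl
      intro i _
      simp only [vs_iff hd]
      rw [hη]
    · exact le_rfl

end Pool.Agent.Helper18.HY
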