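import Pool.Agent.Helper18.HY.Meas
import Pool.Agent.Helper95.PV.Dec
import Pool.Agent.Helper18.PV.Q

/-! Block HY-QREC: the recursion for the closeness probabilities with the true density of the kicks (`PV/Q.lean`), and the random standard map as an abstract system with kicks. -/

set_option autoImplicit false
open MeasureTheory Real Set
open scoped ENNReal

namespace Pool.Agent.Helper18.HY

section abs

open Pool.Agent.Helper18.PV (Sy T2 law mu wd tw qq qq_nonneg dn stat3 kick1 double)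
open Pool.Agent.Helper18.FD (NN NN_pos NN_ge uu cl lm cl_of_mem)

variable {ι : Type} [DecidableEq ι] {K : Sy ι} {B s : ℝ}

omit [DecidableEq ι] in
private lemma union_le {J : Finset ℕ} {k : ℕ} (hJ : J ⊆ Finset.range k) {S : ℕ → Set ((ι → ℝ) × T2)} {c : ℝ}
    (h : ∀ j ∈ J, mu ι (S j) ≤ ENNReal.ofReal c) :
    mu ι (⋃ j ∈ J, S j) ≤ ENNReal.ofReal (k * c) := by
  calc mu ι (⋃ j ∈ J, S j) ≤ ∑ j ∈ J, mu ι (S j) := measure_biUnion_finset_le _ _
    _ ≤ ∑ _j ∈ J, ENNReal.ofReal c := Finset.sum_le_sum h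
    _ = J.card * ENNReal.ofReal c := by rw [Finset.sum_const, nsmul_eq_mul]
    _ ≤ k * ENNReal.ofReal c := by
      gcongr
      have := Finset.card_le_card hJ
      rwa [Finset.card_range] at this
    _ = ENNReal.ofReal (k * c) := by
      rw [ENNReal.ofReal_mul (Nat.cast_nonneg k), ENNReal.ofReal_natCast]

/-- the recursion -/
theorem qrec (hK : K.Ok B s) {k : ℕ} (hk : 3 ≤ k) (l l' : ℕ) {ρ : ℝ} (hρ : 0 < ρ) :
    ∃ g g' : ℕ, 1 ≤ g ∧ g ≤ k / 2 + 1 ∧ 1 ≤ g' ∧ g' ≤ k / 2 + 1 ∧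
      qq K k ρ ≤ 2 * ρ * (1 + 1 / (2 * |K.amp l|)) +
        8 * k * ρ * (1 + 1 / (2 * |K.amp l'|)) ^ 2 / NN l +
        k * qq K g (2 / NN l) + 2 * k * qq K g' (2 / NN l') := by
  have hne : (Finset.Icc 1 (k / 2 + 1)).Nonempty := ⟨1, by rw [Finset.mem_Icc]; omega⟩
  obtain ⟨g, hg, hgm⟩ := Finset.exists_max_image (Finset.Icc 1 (k / 2 + 1)) (fun g => qq K g (2 / NN l)) hne
  obtain ⟨g', hg', hgm'⟩ := Finset.exists_max_image (Finset.Icc 1 (k / 2 + 1)) (fun g => qq K g (2 / NN l')) hne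
  rw [Finset.mem_Icc] at hg hg'
  refine ⟨g, g', hg.1, hg.2, hg'.1, hg'.2, ?_⟩
  have hb : ∀ i, 1 ≤ i → i ≤ k / 2 + 1 → qq K i (2 / NN l) ≤ qq K g (2 / NN l) := fun i h1 h2 =>
    hgm i (Finset.mem_Icc.2 ⟨h1, h2⟩)
  have hb' : ∀ i, 1 ≤ i → i ≤ k / 2 + 1 → qq K i (2 / NN l') ≤ qq K g' (2 / NN l') := fun i h1 h2 =>
    hgm' i (Finset.mem_Icc.2 ⟨h1, h2⟩)
  have hB0 : 0 < B := lt_of_lt_of_le one_pos hK.hB
  have hN : (0 : ℝ) < NN l := by exact_mod_cast NN_pos l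
  have hN' : (0 : ℝ) < NN l' := by exact_mod_cast NN_pos l'
  have hq := qq_nonneg (K := K) g (2 / NN l)
  have hq' := qq_nonneg (K := K) g' (2 / NN l')
  obtain ⟨M, hM⟩ : ∃ M, M = (k - 1) / 2 := ⟨_, rfl⟩
  obtain ⟨n, hn⟩ : ∃ n, n = k - M - 2 := ⟨_, rfl⟩
  have hkn : M + n + 2 = k := by omega
  have hM1 : 1 ≤ M := by omega
  -- the events
  obtain ⟨U1, hU1⟩ : ∃ U1 : Set ((ι → ℝ) × T2), U1 = {p | dist (wd K p.1 p.2 ((k - 2) + 2)) (wd K p.1 p.2 0) < ρ ∧
      ∀ j, 1 ≤ j → j < (k - 2) + 1 → 2 / (NN l : ℝ) ≤ dist (wd K p.1 p.2 ((k - 2) + 1)) (wd K p.1 p.2 j)} := ⟨_, rfl⟩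
  obtain ⟨U2, hU2⟩ : ∃ U2 : Set ((ι → ℝ) × T2), U2 = ⋃ j ∈ (Finset.range k).filter (fun j => M < j ∧ j < k - 1),
      {p | dist (wd K p.1 p.2 (k - 1)) (wd K p.1 p.2 j) < 2 / NN l} := ⟨_, rfl⟩
  obtain ⟨U3, hU3⟩ : ∃ U3 : Set ((ι → ℝ) × T2), U3 = ⋃ j ∈ (Finset.range k).filter (fun j => 1 ≤ j ∧ j ≠ M),
      {p | dist (wd K p.1 p.2 M) (wd K p.1 p.2 j) < 2 / NN l'} := ⟨_, rfl⟩
  obtain ⟨U4, hU4⟩ : ∃ U4 : Set ((ι → ℝ) × T2), U4 = ⋃ j ∈ (Finset.range k).filter (fun j => 1 ≤ j ∧ j ≠ M + 1),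
      {p | dist (wd K p.1 p.2 (M + 1)) (wd K p.1 p.2 j) < 2 / NN l'} := ⟨_, rfl⟩
  obtain ⟨U5, hU5⟩ : ∃ U5 : Set ((ι → ℝ) × T2), U5 = ⋃ j ∈ (Finset.range k).filter (fun j => j ≤ M),
      {p | dist (wd K p.1 p.2 (M + n + 2)) (wd K p.1 p.2 0) < ρ ∧
        dist (wd K p.1 p.2 (M + n + 1)) (wd K p.1 p.2 j) < 2 / NN l ∧
        ∀ i, 1 ≤ i → i < M + n + 2 →
          (i ≠ M → 2 / (NN l' : ℝ) ≤ dist (wd K p.1 p.2 M) (wd K p.1 p.2 i)) ∧
          (i ≠ M + 1 → 2 / (NN l' : ℝ) ≤ dist (wd K p.1 p.2 (M + 1)) (wd K p.1 p.2 i))} := ⟨_, rfl⟩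
  have m1 : mu ι U1 ≤ ENNReal.ofReal (2 * ρ * (1 + 1 / (2 * |K.amp l|))) := by
    rw [hU1]
    refine (kick1 hK (k - 2) l ρ).trans ?_
    have e := ENNReal.ofReal_mul (p := 1 + 1 / (2 * |K.amp l|)) (q := 2 * ρ) (by positivity)
    rw [mul_comm (2 * ρ), e]
    exact le_rfl
  have m2 : mu ι U2 ≤ ENNReal.ofReal (k * qq K g (2 / NN l)) := by
    rw [hU2]
    refine union_le (Finset.filter_subset _ _) fun j hj => ?_
    obtain ⟨h1, h2, h3⟩ := Finset.mem_filter.1 hj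
    exact stat3 hK (by omega) (G := k / 2 + 1) (by omega) (by omega) hb
  have m3 : mu ι U3 ≤ ENNReal.ofReal (k * qq K g' (2 / NN l')) := by
    rw [hU3]
    refine union_le (Finset.filter_subset _ _) fun j hj => ?_
    obtain ⟨h1, h2, h3⟩ := Finset.mem_filter.1 hj
    rw [Finset.mem_range] at h1
    exact stat3 hK (by omega) (G := k / 2 + 1) (by omega) (by omega) hb'
  have m4 : mu ι U4 ≤ ENNReal.ofReal (k * qq K g' (2 / NN l')) := by
    rw [hU4]
    refine union_le (Finset.filter_subset _ _) fun j hj => ?_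
    obtain ⟨h1, h2, h3⟩ := Finset.mem_filter.1 hj
    rw [Finset.mem_range] at h1
    exact stat3 hK (by omega) (G := k / 2 + 1) (by omega) (by omega) hb'
  have m5 : mu ι U5 ≤ ENNReal.ofReal (k * (8 * ρ * (1 + 1 / (2 * |K.amp l'|)) ^ 2 / NN l)) := by
    rw [hU5]
    refine union_le (Finset.filter_subset _ _) fun j hj => ?_
    obtain ⟨h1, h2⟩ := Finset.mem_filter.1 hj
    refine (double hK l' (σ := 2 / NN l) h2 hρ).trans ?_
    have e : 8 * ρ * (1 + 1 / (2 * |K.amp l'|)) ^ 2 / NN l =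
        (1 + 1 / (2 * |K.amp l'|)) ^ 2 * (4 * ρ * (2 / NN l)) := by
      field_simp
      ring
    have e2 := ENNReal.ofReal_mul (p := (1 + 1 / (2 * |K.amp l'|)) ^ 2) (q := 4 * ρ * (2 / NN l)) (by positivity)
    rw [e, e2, ENNReal.ofReal_pow (by positivity)]
    exact le_rfl
  have hcov : {p : (ι → ℝ) × T2 | dist (wd K p.1 p.2 k) (wd K p.1 p.2 0) < ρ} ⊆ U1 ∪ (U2 ∪ (U3 ∪ (U4 ∪ U5))) := by
    rintro ⟨ω, z⟩ hp
    simp only [mem_ofPred_eq] at hp
    by_contra hc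
    simp only [mem_union, not_or] at hc
    obtain ⟨c1, c2, c3, c4, c5⟩ := hc
    have d1 : ∃ j, 1 ≤ j ∧ j < k - 1 ∧ dist (wd K ω z (k - 1)) (wd K ω z j) < 2 / NN l := by
      by_contra hd
      push Not at hd
      apply c1
      rw [hU1]
      refine ⟨?_, fun j h1 h2 => ?_⟩
      · show dist (wd K ω z ((k - 2) + 2)) (wd K ω z 0) < ρ
        rw [show k - 2 + 2 = k by omega]
        exact hp
      · show 2 / (NN l : ℝ) ≤ dist (wd K ω z ((k - 2) + 1)) (wd K ω z j)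
        rw [show k - 2 + 1 = k - 1 by omega]
        exact hd j h1 (by omega)
    obtain ⟨j, hj1, hj2, hj3⟩ := d1
    have hjM : j ≤ M := by
      by_contra hjM
      apply c2
      rw [hU2]
      simp only [mem_iUnion]
      exact ⟨j, Finset.mem_filter.2 ⟨Finset.mem_range.2 (by omega), by omega, hj2⟩, hj3⟩
    apply c5
    rw [hU5]
    simp only [mem_iUnion]
    refine ⟨j, Finset.mem_filter.2 ⟨Finset.mem_range.2 (by omega), hjM⟩, ?_, ?_, fun i hi1 hi2 => ⟨fun hi3 => ?_, fun hi3 => ?_⟩⟩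
    · show dist (wd K ω z (M + n + 2)) (wd K ω z 0) < ρ
      rw [hkn]
      exact hp
    · show dist (wd K ω z (M + n + 1)) (wd K ω z j) < 2 / NN l
      rw [show M + n + 1 = k - 1 by omega]
      exact hj3
    · show 2 / (NN l' : ℝ) ≤ dist (wd K ω z M) (wd K ω z i)
      by_contra hd
      push Not at hd
      apply c3
      rw [hU3]
      simp only [mem_iUnion]
      exact ⟨i, Finset.mem_filter.2 ⟨Finset.mem_range.2 (by omega), hi1, hi3⟩, hd⟩
    · show 2 / (NN l' : ℝ) ≤ dist (wd K ω z (M + 1)) (wd K ω z i)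
      by_contra hd
      push Not at hd
      apply c4
      rw [hU4]
      simp only [mem_iUnion]
      exact ⟨i, Finset.mem_filter.2 ⟨Finset.mem_range.2 (by omega), hi1, hi3⟩, hd⟩
  refine ENNReal.toReal_le_of_le_ofReal (by positivity) ?_
  calc mu ι {p : (ι → ℝ) × T2 | dist (wd K p.1 p.2 k) (wd K p.1 p.2 0) < ρ}
      ≤ mu ι (U1 ∪ (U2 ∪ (U3 ∪ (U4 ∪ U5)))) := measure_mono hcov
    _ ≤ mu ι U1 + (mu ι U2 + (mu ι U3 + (mu ι U4 + mu ι U5))) :=
        (measure_union_le _ _).trans (by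
          gcongr
          exact (measure_union_le _ _).trans (by
            gcongr
            exact (measure_union_le _ _).trans (by
              gcongr
              exact measure_union_le _ _)))
    _ ≤ ENNReal.ofReal (2 * ρ * (1 + 1 / (2 * |K.amp l|))) + (ENNReal.ofReal (k * qq K g (2 / NN l)) +
        (ENNReal.ofReal (k * qq K g' (2 / NN l')) + (ENNReal.ofReal (k * qq K g' (2 / NN l')) +
          ENNReal.ofReal (k * (8 * ρ * (1 + 1 / (2 * |K.amp l'|)) ^ 2 / NN l))))) := by gcongr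
    _ = ENNReal.ofReal (2 * ρ * (1 + 1 / (2 * |K.amp l|)) + (k * qq K g (2 / NN l) +
        (k * qq K g' (2 / NN l') + (k * qq K g' (2 / NN l') +
          k * (8 * ρ * (1 + 1 / (2 * |K.amp l'|)) ^ 2 / NN l))))) := by
        rw [ENNReal.ofReal_add (by positivity) (by positivity), ENNReal.ofReal_add (by positivity) (by positivity),
          ENNReal.ofReal_add (by positivity) (by positivity), ENNReal.ofReal_add (by positivity) (by positivity)]
    _ = _ := by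
        congr 1
        ring


end abs

open Pool.Agent.Helper18.UC (T2 rep toT nn)
open Pool.Agent.Helper18.FD (NN rr pr cl uu lm Bump k1 k2 NN_pos NN_ge)
open Pool.Agent.Helper95.PV (Ix Om PP lv rp tc inn out cel upd mv mu Pt rv cel_lt inn_cel meas_cel out_of_far2 update_eq)

/-- the random standard map as an abstract system with kicks -/
noncomputable def Ks (d : Dat) : Pool.Agent.Helper18.PV.Sy Ix where
  F := fun ω x => cc d ω x - (x + x)
  idx := fun l c => (l, c, false)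
  amp := fun l => d.a * d.κ * (d.k l / NN l)
  cel := cel

theorem Ks_ok {d : Dat} (hd : d.Ok) : (Ks d).Ok (2 / d.κ) 1 where
  meas := (meas_cc hd).sub (measurable_snd.add measurable_snd)
  mcel := meas_cel
  cel_lt := cel_lt
  hB := by
    rw [le_div_iff₀ hd.hκ]
    linarith [hd.hκ1]
  amp_ne := fun l => by
    have h1 : (0 : ℝ) < NN l := by exact_mod_cast NN_pos l
    have h3 : d.a ≠ 0 := by
      intro h
      have := hd.ha
      rw [h, abs_zero] at this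
      linarith
    exact mul_ne_zero (mul_ne_zero h3 hd.hκ.ne') (div_pos (hd.hk0 l) h1).ne'
  amp_bd := fun l => by
    have h1 : (0 : ℝ) < NN l := by exact_mod_cast NN_pos l
    have h1' : (1 : ℝ) ≤ NN l := by linarith [NN_ge l]
    have ha := hd.ha
    have hκ := hd.hκ
    have hκ1 := hd.hκ1
    have hk := hd.hk l
    have hk0 := hd.hk0 l
    have e : |(Ks d).amp l| = |d.a| * d.κ * (d.k l / NN l) := by
      show |d.a * d.κ * (d.k l / NN l)| = _
      rw [abs_mul, abs_mul, abs_of_pos hκ, abs_of_pos (div_pos hk0 h1)]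
    have e2 : (NN l : ℝ) ^ ((1 : ℝ) + 1) = (NN l : ℝ) ^ 2 := by
      rw [show (1 : ℝ) + 1 = ((2 : ℕ) : ℝ) by norm_num, Real.rpow_natCast]
    have h4 : 1 / (NN l : ℝ) ^ 2 ≤ d.k l / NN l := by
      rw [div_le_div_iff₀ (by positivity) h1]
      rw [div_le_iff₀ h1] at hk
      nlinarith
    have h5 : d.κ / (NN l : ℝ) ^ 2 ≤ 2 * |(Ks d).amp l| := by
      rw [e]
      have h6 : d.κ * (1 / (NN l : ℝ) ^ 2) ≤ d.κ * (d.k l / NN l) := mul_le_mul_of_nonneg_left h4 hκ.le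
      have h7 : 0 < d.κ * (d.k l / NN l) := mul_pos hκ (div_pos hk0 h1)
      calc d.κ / (NN l : ℝ) ^ 2 = d.κ * (1 / (NN l : ℝ) ^ 2) := by ring
        _ ≤ d.κ * (d.k l / NN l) := h6
        _ ≤ (2 * |d.a|) * (d.κ * (d.k l / NN l)) := by nlinarith
        _ = _ := by ring
    have h8 : 1 / (2 * |(Ks d).amp l|) ≤ (NN l : ℝ) ^ 2 / d.κ := by
      rw [show (NN l : ℝ) ^ 2 / d.κ = 1 / (d.κ / (NN l : ℝ) ^ 2) by field_simp]
      exact one_div_le_one_div_of_le (by positivity) h5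
    have h9 : 1 ≤ (NN l : ℝ) ^ 2 / d.κ := by
      rw [le_div_iff₀ hκ]
      nlinarith
    rw [e2]
    calc 1 + 1 / (2 * |(Ks d).amp l|) ≤ (NN l : ℝ) ^ 2 / d.κ + (NN l : ℝ) ^ 2 / d.κ := by linarith
      _ = 2 / d.κ * (NN l : ℝ) ^ 2 := by ring
  ne := fun l x y hxy h => by
    have h1 : cel l x = cel l y := by
      have := congrArg (fun i : Ix => i.2.1) h
      exact this
    have hN : (0 : ℝ) < NN l := by exact_mod_cast NN_pos l
    have h2 := out_of_far2 (inn_cel l x) (y := y) (by rwa [dist_comm])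
    have h3 := inn_cel l y
    rw [h1] at h2
    unfold Pool.Agent.Helper95.PV.out at h2
    unfold Pool.Agent.Helper95.PV.inn at h3
    linarith
  off := fun l ω u x y hxy => by
    have h2 := out_of_far2 (inn_cel l x) (y := y) (by rwa [dist_comm])
    show cc d (Function.update ω (l, cel l x, false) u) y - (y + y) = cc d ω y - (y + y)
    rw [update_eq, (cc_out hd (cel_lt l x) _ _ h2).1]
  on := fun l ω u x => by
    show cc d (Function.update ω (l, cel l x, false) u) x - (x + x) =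
      cc d (Function.update ω (l, cel l x, false) 0) x - (x + x) +
        ((d.a * d.κ * (d.k l / NN l) * cl u : ℝ) : UnitAddCircle)
    rw [update_eq, update_eq, (cc_inn hd (cel_lt l x) _ _ (inn_cel l x)).1,
      (cc_inn hd (cel_lt l x) _ _ (inn_cel l x)).1]
    have e : d.a * d.κ * (d.k l / NN l) * ((cl u - cl (ω (l, cel l x, false))) +
        (cl (ω (l, cel l x, true)) - cl (ω (l, cel l x, true))) * tc l (cel l x) x) =
        d.a * d.κ * (d.k l / NN l) * ((cl 0 - cl (ω (l, cel l x, false))) +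
        (cl (ω (l, cel l x, true)) - cl (ω (l, cel l x, true))) * tc l (cel l x) x) +
        d.a * d.κ * (d.k l / NN l) * cl u := by
      have : cl 0 = 0 := by unfold cl; norm_num
      rw [this]
      ring
    rw [e, AddCircle.coe_add]
    abel

theorem tw_eq (d : Dat) (ω : Om) (z : T2) : Pool.Agent.Helper18.PV.tw (Ks d) ω z = Tw d ω z := by
  refine Prod.ext ?_ rfl
  show z.1 + z.1 - z.2 + (cc d ω z.1 - (z.1 + z.1)) = cc d ω z.1 - z.2
  abel

theorem wd_eq (d : Dat) (j : ℕ) (p : Pt) : Pool.Agent.Helper18.PV.wd (Ks d) p.1 p.2 (j + 1) = px d j p := by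
  obtain ⟨ω, z⟩ := p
  have h1 : Pool.Agent.Helper18.PV.tw (Ks d) ω = Tw d ω := funext fun z => tw_eq d ω z
  have h2 := Pool.Agent.Helper18.PV.iter_eq (K := Ks d) ω z j
  unfold px
  rw [sk_iter, ← h1, h2]

/-- the probability that two positions at the distance `k` in time are close -/
noncomputable def qd (d : Dat) (k : ℕ) (ρ : ℝ) : ℝ := Pool.Agent.Helper18.PV.qq (Ks d) k ρ

/-- the density of the kicks -/
noncomputable def De (d : Dat) (l : ℕ) : ℝ := 1 + 1 / (2 * (|d.a| * d.κ * (d.k l / NN l)))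

theorem qd_mono (d : Dat) (k : ℕ) : Monotone (qd d k) := Pool.Agent.Helper18.PV.qq_mono k

theorem qd_nonneg (d : Dat) (k : ℕ) (ρ : ℝ) : 0 ≤ qd d k ρ := Pool.Agent.Helper18.PV.qq_nonneg k ρ

theorem qd_one {d : Dat} (hd : d.Ok) {ρ : ℝ} (hρ : 0 < ρ) : qd d 1 ρ ≤ 3 * ρ :=
  Pool.Agent.Helper18.PV.qq_one (Ks_ok hd) hρ

theorem qd_two {d : Dat} (hd : d.Ok) {ρ : ℝ} (hρ : 0 < ρ) : qd d 2 ρ ≤ 3 * ρ :=
  Pool.Agent.Helper18.PV.qq_two (Ks_ok hd) hρ

theorem qd_rec {d : Dat} (hd : d.Ok) {k : ℕ} (hk : 3 ≤ k) (l : ℕ) {ρ : ℝ} (hρ : 0 < ρ) :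
    ∃ g g' : ℕ, 1 ≤ g ∧ g ≤ k / 2 + 1 ∧ 1 ≤ g' ∧ g' ≤ k / 2 + 1 ∧
      qd d k ρ ≤ 2 * ρ * De d l + 8 * k * ρ * De d l ^ 2 / NN l +
        k * qd d g (2 / NN l) + 2 * k * qd d g' (2 / NN l) := by
  have e : |(Ks d).amp l| = |d.a| * d.κ * (d.k l / NN l) := by
    have h1 : (0 : ℝ) < NN l := by exact_mod_cast NN_pos l
    show |d.a * d.κ * (d.k l / NN l)| = _
    rw [abs_mul, abs_mul, abs_of_pos hd.hκ, abs_of_pos (div_pos (hd.hk0 l) h1)]
  have h := qrec (Ks_ok hd) hk l l hρ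
  rw [e] at h
  exact h

/-- closeness of two positions -/
theorem qd_px {d : Dat} (hd : d.Ok) {i j : ℕ} (h : i ≠ j) (ρ : ℝ) :
    mu {p | dist (px d i p) (px d j p) < ρ} = ENNReal.ofReal (qd d ((i - j) + (j - i)) ρ) := by
  have key : ∀ i j : ℕ, i < j → mu {p | dist (px d i p) (px d j p) < ρ} = ENNReal.ofReal (qd d (j - i) ρ) := by
    intro i j hij
    have h1 := Pool.Agent.Helper18.PV.stat2 (Ks_ok hd) (i := i + 1) (j := j + 1) (by omega) ρ
    rw [show j + 1 - (i + 1) = j - i by omega] at h1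
    rw [qd, ← h1]
    refine congrArg mu ?_
    ext p
    simp only [mem_ofPred_eq, wd_eq]
  rcases Nat.lt_or_gt_of_ne h with h1 | h1
  · rw [key i j h1]
    congr 2
    omega
  · have h2 : {p : Pt | dist (px d i p) (px d j p) < ρ} = {p | dist (px d j p) (px d i p) < ρ} := by
      ext p
      simp only [mem_ofPred_eq]
      rw [dist_comm]
    rw [h2, key j i h1]
    congr 2
    omega

end Pool.Agent.Helper18.HY
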