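import Pool.Agent.Helper18.HY.Meas

/-! Block HY-BAS: basic bounds for the derivative matrices. Port of `PV/Bas.lean`. -/

set_option autoImplicit false
open MeasureTheory Real Set
open scoped ENNReal

namespace Pool.Agent.Helper18.HY

open Pool.Agent.Helper18.UC (T2 rep toT nn nn_nonneg nn_mul nn_one abs_entry_le)
open Pool.Agent.Helper18.FD (NN rr pr cl uu lm Bump k1 k2 NN_pos NN_ge)
open Pool.Agent.Helper95.PV (Ix Om PP lv rp tc inn out cel upd mv mu Pt rv rn1 cn1 det_mv nn_mv nn_ge_two rn1_pos cn1_pos)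

private theorem row0_82 (v : ℝ) (L : Matrix (Fin 2) (Fin 2) ℝ) (j : Fin 2) :
    (mv v * L) 0 j = v * L 0 j - L 1 j := by
  simp [mv, Matrix.mul_apply, Fin.sum_univ_two]
  ring

private theorem row1_82 (v : ℝ) (L : Matrix (Fin 2) (Fin 2) ℝ) (j : Fin 2) :
    (mv v * L) 1 j = L 0 j := by
  simp [mv, Matrix.mul_apply, Fin.sum_univ_two]

variable {d : Dat}

theorem det_Mm (n : ℕ) (p : Pt) : (Mm d n p).det = 1 := by
  induction n with
  | zero => rw [Mm_zero, Matrix.det_one]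
  | succ n ih => rw [Mm_succ, Matrix.det_mul, ih, det_mv, mul_one]

theorem Mm_congr {p p' : Pt} {n : ℕ} (h : ∀ j < n, vv d ((sk d)^[j] p') = vv d ((sk d)^[j] p)) :
    Mm d n p' = Mm d n p := by
  induction n with
  | zero => rw [Mm_zero, Mm_zero]
  | succ n ih =>
    rw [Mm_succ, Mm_succ, h n (Nat.lt_succ_self n), ih fun j hj => h j (hj.trans (Nat.lt_succ_self n))]

theorem nn_mv_le (hd : d.Ok) (p : Pt) : nn (mv (vv d p)) ≤ |d.a| ^ 3 := by
  rw [nn_mv]
  have h1 := vv_le hd p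
  have h2 := hd.ha
  have h3 : |d.a| * d.R ≤ |d.a| * |d.a| := mul_le_mul_of_nonneg_left hd.hRa (abs_nonneg _)
  have h4 : 100 * (|d.a| * |d.a|) ≤ |d.a| ^ 3 := by
    have : |d.a| ^ 3 = |d.a| * (|d.a| * |d.a|) := by ring
    rw [this]
    exact mul_le_mul_of_nonneg_right h2 (by positivity)
  have h5 : 100 * 100 ≤ |d.a| * |d.a| := mul_le_mul h2 h2 (by norm_num) (abs_nonneg _)
  linarith

private theorem nn_Mm_le82 (hd : d.Ok) (n : ℕ) (p : Pt) : nn (Mm d n p) ≤ 2 * (|d.a| ^ 3) ^ n := by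
  induction n with
  | zero => rw [Mm_zero, nn_one, pow_zero, mul_one]
  | succ n ih =>
    rw [Mm_succ, pow_succ]
    refine (nn_mul _ _).trans ?_
    have h1 := nn_mv_le hd ((sk d)^[n] p)
    have h2 := nn_nonneg (Mm d n p)
    have h3 : 0 ≤ |d.a| ^ 3 := by positivity
    calc nn (mv (vv d ((sk d)^[n] p))) * nn (Mm d n p) ≤ |d.a| ^ 3 * (2 * (|d.a| ^ 3) ^ n) :=
          mul_le_mul h1 ih h2 h3
      _ = 2 * ((|d.a| ^ 3) ^ n * |d.a| ^ 3) := by ring

private lemma mabs82 (hd : d.Ok) (n : ℕ) (i j : Fin 2) : Measurable fun p => |Mm d n p i j| :=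
  continuous_abs.measurable.comp (meas_Mm hd n i j)

theorem meas_nn (hd : d.Ok) (n : ℕ) : Measurable fun p => nn (Mm d n p) :=
  (((mabs82 hd n 0 0).add (mabs82 hd n 0 1)).add (mabs82 hd n 1 0)).add (mabs82 hd n 1 1)

theorem meas_rn1 (hd : d.Ok) (n : ℕ) : Measurable fun p => rn1 (Mm d n p) :=
  (mabs82 hd n 0 0).add (mabs82 hd n 0 1)

theorem meas_cn1 (hd : d.Ok) (n : ℕ) : Measurable fun p => cn1 (Mm d n p) :=
  (mabs82 hd n 0 0).add (mabs82 hd n 1 0)

theorem log_nn_bd (hd : d.Ok) (n : ℕ) (p : Pt) :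
    0 ≤ Real.log (nn (Mm d n p)) ∧ Real.log (nn (Mm d n p)) ≤ Real.log 2 + n * (3 * Real.log |d.a|) := by
  have h2 := nn_ge_two (det_Mm (d := d) n p)
  have hA := hd.ha
  have h7 : 0 < |d.a| := by linarith
  refine ⟨Real.log_nonneg (by linarith), ?_⟩
  calc Real.log (nn (Mm d n p)) ≤ Real.log (2 * (|d.a| ^ 3) ^ n) :=
        Real.log_le_log (by linarith) (nn_Mm_le82 hd n p)
    _ = Real.log 2 + n * (3 * Real.log |d.a|) := by
        rw [Real.log_mul (by norm_num) (pow_pos (pow_pos h7 3) n).ne', Real.log_pow, Real.log_pow]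
        norm_num

theorem int_log_nn (hd : d.Ok) (n : ℕ) : Integrable (fun p => Real.log (nn (Mm d n p))) mu := by
  refine Integrable.of_bound (Real.measurable_log.comp (meas_nn hd n)).aestronglyMeasurable
    (Real.log 2 + n * (3 * Real.log |d.a|)) (Filter.Eventually.of_forall fun p => ?_)
  obtain ⟨h1, h2⟩ := log_nn_bd hd n p
  rw [Real.norm_eq_abs, abs_of_nonneg h1]
  exact h2

end Pool.Agent.Helper18.HY
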