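import Pool.Agent.Helper18.HY.Field
import Pool.Agent.Helper18.FD.Geo

/-! Block HY-CELL: the circle map under a change of the two noise coordinates of a cell, orbits. Port of `PV/Cell.lean`. -/

set_option autoImplicit false
open MeasureTheory Real Set
open scoped ENNReal

namespace Pool.Agent.Helper18.HY

open Pool.Agent.Helper18.UC (T2 rep toT nn)
open Pool.Agent.Helper18.FD (NN rr pr cl uu lm Bump k1 k2 NN_pos NN_ge abs_rr_le rr_add_int abs_rr_add_le rr_of_small)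
open Pool.Agent.Helper95.PV (Ix Om PP lv rp tc inn out cel upd mv mu Pt rv rp_mem coe_rp rp_coe meas_rp dist_coe tc_coe cel_lt inn_cel meas_cel out_of_far out_of_far2)

variable {d : Dat}

private theorem coe_int_add93 (x : ℝ) (u : ℤ) :
    ((x + u : ℝ) : UnitAddCircle) = (x : UnitAddCircle) := by
  have h : ((u : ℝ) : UnitAddCircle) = 0 :=
    (AddCircle.coe_eq_zero_iff (1 : ℝ)).mpr ⟨u, by simp⟩
  rw [AddCircle.coe_add, h, add_zero]

theorem Dat.Ok.hk0 (hd : d.Ok) (l : ℕ) : 0 < d.k l := by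
  have h1 : (0 : ℝ) < NN l := by exact_mod_cast NN_pos l
  exact lt_of_lt_of_le (by positivity) (hd.hk l)

theorem Dat.Ok.hk0' (hd : d.Ok) (l : ℕ) : 0 ≤ d.k l := (hd.hk0 l).le

/-- periodicity and the plane map -/
theorem p_int (hd : d.Ok) (ω : Om) (x : ℝ) (k : ℤ) : d.p1 ω (x + k) = d.p1 ω x ∧ d.p2 ω (x + k) = d.p2 ω x := by
  obtain ⟨C, -, hC⟩ := h_ok hd.hχ hd.hk0' hd.hs
  obtain ⟨-, -, -, -, q1, q2, -⟩ := hC ω
  have per : ∀ f : ℝ → ℝ, (∀ x, f (x + 1) = f x) → f (x + k) = f x := by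
    intro f hf
    have h1 : Function.Periodic f 1 := hf
    have h2 := h1.int_mul k x
    rwa [mul_one] at h2
  constructor
  · unfold Dat.p1
    rw [per _ hd.e1, per _ q1]
  · unfold Dat.p2
    rw [per _ hd.e2, per _ q2]

theorem cc_coe (hd : d.Ok) (ω : Om) (x : ℝ) :
    cc d ω (x : UnitAddCircle) = ((2 * x + d.a * d.p1 ω x : ℝ) : UnitAddCircle) := by
  obtain ⟨k, h⟩ := rp_coe x
  unfold cc
  rw [h, (p_int hd ω x k).1]
  have h2 := coe_int_add93 (2 * x + d.a * d.p1 ω x) (2 * k)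
  rw [← h2]
  congr 1
  push_cast
  ring

theorem va_coe (hd : d.Ok) (ω : Om) (x : ℝ) : va d ω (x : UnitAddCircle) = 2 + d.a * d.p2 ω x := by
  obtain ⟨k, h⟩ := rp_coe x
  unfold va
  rw [h, (p_int hd ω x k).2]

theorem Tw_toT (hd : d.Ok) (ω : Om) (q : ℝ × ℝ) : Tw d ω (toT q) = toT (Fl d ω q) := by
  show (cc d ω ((q.1 : ℝ) : UnitAddCircle) - ((q.2 : ℝ) : UnitAddCircle), ((q.1 : ℝ) : UnitAddCircle)) =
    (((2 * q.1 - q.2 + d.a * d.p1 ω q.1 : ℝ) : UnitAddCircle), ((q.1 : ℝ) : UnitAddCircle))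
  rw [cc_coe hd, ← AddCircle.coe_sub]
  congr 2
  ring

theorem cc_out (hd : d.Ok) {l i : ℕ} (hi : i < NN l) (u v : ℝ) {ω : Om} {x : UnitAddCircle}
    (h : out l i x) : cc d (upd l i u v ω) x = cc d ω x ∧ va d (upd l i u v ω) x = va d ω x := by
  obtain ⟨h1, h2⟩ := h_out hd.hχ hd.hk0' hd.hs hi u v ω (x := rp x) h
  constructor
  · unfold cc Dat.p1
    rw [h1]
  · unfold va Dat.p2
    rw [h2]

theorem cc_inn (hd : d.Ok) {l i : ℕ} (hi : i < NN l) (u v : ℝ) {ω : Om} {x : UnitAddCircle}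
    (h : inn l i x) :
    cc d (upd l i u v ω) x = cc d ω x + ((d.a * d.κ * (d.k l / NN l) *
      ((cl u - cl (ω (l, i, false))) + (cl v - cl (ω (l, i, true))) * tc l i x) : ℝ) : UnitAddCircle) ∧
    va d (upd l i u v ω) x = va d ω x + d.a * (d.κ * d.k l * (cl v - cl (ω (l, i, true)))) := by
  obtain ⟨h1, h2⟩ := h_inn hd.hχ hd.hk0' hd.hs hi u v ω (x := rp x) h
  constructor
  · unfold cc Dat.p1
    rw [h1, ← AddCircle.coe_add]
    congr 1
    unfold tc
    ring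
  · unfold va Dat.p2
    rw [h2]
    ring

private theorem E1_93 (d : Dat) (ω : Om) (z : T2) (j : ℕ) :
    (sk d)^[j] (ω, z) = (ω, ((sk d)^[j] (ω, z)).2) := Prod.ext (sk_iter_fst d j (ω, z)) rfl

private theorem E2_93 {d : Dat} {ω ω' : Om} {z : T2} {j : ℕ}
    (h : ((sk d)^[j] (ω', z)).2 = ((sk d)^[j] (ω, z)).2) :
    (sk d)^[j] (ω', z) = (ω', ((sk d)^[j] (ω, z)).2) := Prod.ext (sk_iter_fst d j (ω', z)) h

private theorem step_93 {d : Dat} {ω ω' : Om} {z : T2} {j : ℕ}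
    (h : ((sk d)^[j] (ω', z)).2 = ((sk d)^[j] (ω, z)).2)
    (hc : cc d ω' (px d j (ω, z)) = cc d ω (px d j (ω, z))) :
    ((sk d)^[j + 1] (ω', z)).2 = ((sk d)^[j + 1] (ω, z)).2 := by
  rw [Function.iterate_succ_apply', Function.iterate_succ_apply', E2_93 h]
  conv_rhs => rw [E1_93]
  show Tw d ω' ((sk d)^[j] (ω, z)).2 = Tw d ω ((sk d)^[j] (ω, z)).2
  unfold px at hc
  unfold Tw
  rw [hc]

/-- the points at the times `j ≤ k` do not change if the positions `j < k` are outside the cell -/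
theorem iter_out (hd : d.Ok) {l i : ℕ} (hi : i < NN l) (u v : ℝ) {ω : Om} {z : T2} {k : ℕ}
    (h : ∀ j < k, out l i (px d j (ω, z))) :
    (∀ j ≤ k, ((sk d)^[j] (upd l i u v ω, z)).2 = ((sk d)^[j] (ω, z)).2) ∧
    (∀ j ≤ k, px d j (upd l i u v ω, z) = px d j (ω, z)) ∧
    ∀ j < k, vv d ((sk d)^[j] (upd l i u v ω, z)) = vv d ((sk d)^[j] (ω, z)) := by
  have P : ∀ j ≤ k, ((sk d)^[j] (upd l i u v ω, z)).2 = ((sk d)^[j] (ω, z)).2 := by
    intro j
    induction j with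
    | zero => exact fun _ => rfl
    | succ j ih =>
      intro hj
      exact step_93 (ih (by omega)) (cc_out hd hi u v (h j (by omega))).1
  refine ⟨P, fun j hj => ?_, fun j hj => ?_⟩
  · unfold px
    rw [P j hj]
  · rw [E2_93 (P j hj.le)]
    conv_rhs => rw [E1_93]
    exact (cc_out hd hi u v (h j hj)).2

/-- the whole orbit segment is constant along a line in the two noise coordinates -/
theorem line (hd : d.Ok) {l k n : ℕ} (hk : k ≤ n) {ω : Om} {z : T2} (hf : far d l k n (ω, z))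
    {c : ℕ} (hc : c = cel l (px d k (ω, z))) {u v : ℝ} (hu : u ∈ Icc (-1 : ℝ) 1)
    (hv : v ∈ Icc (-1 : ℝ) 1)
    (hl : u + v * tc l c (px d k (ω, z)) =
      cl (ω (l, c, false)) + cl (ω (l, c, true)) * tc l c (px d k (ω, z))) :
    (∀ j ≤ n + 1, ((sk d)^[j] (upd l c u v ω, z)).2 = ((sk d)^[j] (ω, z)).2) ∧
    (∀ j ≤ n, px d j (upd l c u v ω, z) = px d j (ω, z)) ∧
    (∀ j ≤ n, j ≠ k → vv d ((sk d)^[j] (upd l c u v ω, z)) = vv d ((sk d)^[j] (ω, z))) ∧
    vv d ((sk d)^[k] (upd l c u v ω, z)) = vv d ((sk d)^[k] (ω, z)) +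
      d.a * (d.κ * d.k l * (v - cl (ω (l, c, true)))) := by
  have hcl : c < NN l := by
    rw [hc]
    exact cel_lt l _
  have hin : inn l c (px d k (ω, z)) := by
    rw [hc]
    exact inn_cel l _
  have hout : ∀ j ≤ n, j ≠ k → out l c (px d j (ω, z)) := by
    intro j hj hjk
    exact out_of_far2 hin (hf j hj hjk)
  have clm : ∀ t ∈ Icc (-1 : ℝ) 1, cl t = t := by
    intro t ht
    unfold cl
    rw [min_eq_right ht.2, max_eq_right ht.1]
  obtain ⟨s1, s2⟩ := cc_inn hd hcl u v (ω := ω) hin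
  rw [clm u hu, clm v hv] at s1
  rw [clm v hv] at s2
  have s0 : (u - cl (ω (l, c, false))) + (v - cl (ω (l, c, true))) * tc l c (px d k (ω, z)) = 0 := by
    linear_combination hl
  rw [s0, mul_zero, AddCircle.coe_zero, add_zero] at s1
  have P : ∀ j ≤ n + 1, ((sk d)^[j] (upd l c u v ω, z)).2 = ((sk d)^[j] (ω, z)).2 := by
    intro j
    induction j with
    | zero => exact fun _ => rfl
    | succ j ih =>
      intro hj
      have h2 := ih (by omega)
      by_cases hjk : j = k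
      · subst hjk
        exact step_93 h2 s1
      · exact step_93 h2 (cc_out hd hcl u v (hout j (by omega) hjk)).1
  refine ⟨P, fun j hj => ?_, fun j hj hjk => ?_, ?_⟩
  · unfold px
    rw [P j (by omega)]
  · rw [E2_93 (P j (by omega))]
    conv_rhs => rw [E1_93]
    exact (cc_out hd hcl u v (hout j hj hjk)).2
  · rw [E2_93 (P k (by omega))]
    conv_rhs => rw [E1_93]
    exact s2

end Pool.Agent.Helper18.HY
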