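import Pool.Agent.Helper95.PV.Bas

/-! Project HY (MP_9ee088_an): hyperbolicity on the whole torus for random potentials of class `C^2`. Definitions. Proof in words: README.md in this folder.

Standard maps `(x, y) ↦ (2 x - y + a V'(x), x)` with the potential `V = G + κ h_ω`, `h_ω` a random function of one variable of class `C^2`, chosen once, with amplitudes `k l * N^(-2)` at the level `N = 2^(l+3)`.
Port of project PV (`Pool/Agent/Helper95/PV`, amplitudes `N^(-(2+s))`), from which the notions which do not depend on the data are taken. -/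

set_option autoImplicit false
open MeasureTheory Real Set
open scoped ENNReal

namespace Pool.Agent.Helper18.HY

open Pool.Agent.Helper18.UC (T2 rep toT nn)
open Pool.Agent.Helper18.FD (NN rr pr cl uu lm Bump k1 k2)
open Pool.Agent.Helper95.PV (Ix Om PP lv rp tc inn out cel upd mv mu Pt rv)

/-! ### the noise -/

/-- the random series with amplitudes `c l` -/
noncomputable def fs (g₁ g₂ : ℝ → ℝ) (c : ℕ → ℝ) (ω : Om) (x : ℝ) : ℝ :=
  ∑' l : ℕ, c l * lv g₁ g₂ ω l x

/-- the random potential -/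
noncomputable def h0 (χ : ℝ → ℝ) (k : ℕ → ℝ) (ω : Om) (x : ℝ) : ℝ :=
  fs (k1 χ) (k2 χ) (fun l => k l / (NN l : ℝ) ^ 2) ω x

/-- its derivative -/
noncomputable def h1 (χ : ℝ → ℝ) (k : ℕ → ℝ) (ω : Om) (x : ℝ) : ℝ :=
  fs (deriv (k1 χ)) (deriv (k2 χ)) (fun l => k l / (NN l : ℝ)) ω x

/-- its second derivative -/
noncomputable def h2 (χ : ℝ → ℝ) (k : ℕ → ℝ) (ω : Om) (x : ℝ) : ℝ :=
  fs (deriv (deriv (k1 χ))) (deriv (deriv (k2 χ))) k ω x

/-- the fixed data: parameter, coupling, amplitudes, bound, bump, first and second derivative of the background -/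
structure Dat where
  a : ℝ
  κ : ℝ
  k : ℕ → ℝ
  R : ℝ
  χ : ℝ → ℝ
  g1 : ℝ → ℝ
  g2 : ℝ → ℝ

/-- the derivative of the potential -/
noncomputable def Dat.p1 (d : Dat) (ω : Om) (x : ℝ) : ℝ := d.g1 x + d.κ * h1 d.χ d.k ω x

/-- the second derivative of the potential -/
noncomputable def Dat.p2 (d : Dat) (ω : Om) (x : ℝ) : ℝ := d.g2 x + d.κ * h2 d.χ d.k ω x

structure Dat.Ok (d : Dat) : Prop where
  ha : 100 ≤ |d.a|
  hR : 1 ≤ d.R
  hRa : d.R ≤ |d.a|
  hκ : 0 < d.κ
  hκ1 : d.κ ≤ 1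
  hk : ∀ l, 1 / (NN l : ℝ) ≤ d.k l
  hk1 : ∀ l, d.κ * d.k l ≤ 1
  hs : Summable d.k
  hχ : Bump d.χ
  c1 : Continuous d.g1
  c2 : Continuous d.g2
  e1 : ∀ x, d.g1 (x + 1) = d.g1 x
  e2 : ∀ x, d.g2 (x + 1) = d.g2 x
  der : ∀ x, HasDerivAt d.g1 (d.g2 x) x
  b1 : ∀ ω x, |d.p1 ω x| ≤ d.R
  b2 : ∀ ω x, |d.p2 ω x| ≤ d.R

/-- the amplitudes are not small: `log (1 / k l) = o(l^(1/3))` -/
def Dat.Low (d : Dat) : Prop := ∀ δ : ℝ, 0 < δ → ∀ᶠ l : ℕ in Filter.atTop,
  Real.exp (-(δ * (l : ℝ) ^ (1 / 3 : ℝ))) ≤ d.k l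

/-! ### the skew product -/

/-- the circle map `x ↦ 2 x + a V'(x)` -/
noncomputable def cc (d : Dat) (ω : Om) (x : UnitAddCircle) : UnitAddCircle :=
  ((2 * rp x + d.a * d.p1 ω (rp x) : ℝ) : UnitAddCircle)

/-- its derivative `2 + a V''(x)` -/
noncomputable def va (d : Dat) (ω : Om) (x : UnitAddCircle) : ℝ := 2 + d.a * d.p2 ω (rp x)

/-- the map of the plane -/
noncomputable def Fl (d : Dat) (ω : Om) (q : ℝ × ℝ) : ℝ × ℝ :=
  (2 * q.1 - q.2 + d.a * d.p1 ω q.1, q.1)

/-- the map of the torus for a fixed noise -/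
noncomputable def Tw (d : Dat) (ω : Om) (z : T2) : T2 := (cc d ω z.1 - z.2, z.1)

/-- one step, the noise is frozen -/
noncomputable def sk (d : Dat) (p : Pt) : Pt := (p.1, Tw d p.1 p.2)

/-- the position at time `j` -/
noncomputable def px (d : Dat) (j : ℕ) (p : Pt) : UnitAddCircle := ((sk d)^[j] p).2.1

/-- the derivative of the circle map at the point -/
noncomputable def vv (d : Dat) (p : Pt) : ℝ := va d p.1 p.2.1

/-- the derivative matrix of the `n`-th iterate -/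
noncomputable def Mm (d : Dat) : ℕ → Pt → Matrix (Fin 2) (Fin 2) ℝ
  | 0, _ => 1
  | n + 1, p => mv (vv d ((sk d)^[n] p)) * Mm d n p

/-- distance of the position number `k` from the other positions up to time `n` -/
noncomputable def sepd (d : Dat) (k n : ℕ) (p : Pt) : ℝ :=
  (Finset.range (n + 1)).inf' ⟨0, by simp⟩ fun j => if j = k then 1 else dist (px d j p) (px d k p)

/-- the positions other than the `k`-th are far from it at level `l` -/
def far (d : Dat) (l k n : ℕ) (p : Pt) : Prop :=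
  ∀ j ≤ n, j ≠ k → 2 / (NN l : ℝ) ≤ dist (px d j p) (px d k p)

/-- the first `n` positions are pairwise far at level `l` -/
def iso (d : Dat) (l n : ℕ) (p : Pt) : Prop :=
  ∀ i < n, ∀ j < n, i ≠ j → 2 / (NN l : ℝ) ≤ dist (px d i p) (px d j p)

/-! ### trivial lemmas -/

lemma Mm_zero (d : Dat) (p : Pt) : Mm d 0 p = 1 := by rw [Mm]

lemma Mm_succ (d : Dat) (n : ℕ) (p : Pt) : Mm d (n + 1) p = mv (vv d ((sk d)^[n] p)) * Mm d n p := by
  rw [Mm]

lemma Mm_add (d : Dat) (m n : ℕ) (p : Pt) :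
    Mm d (m + n) p = Mm d m ((sk d)^[n] p) * Mm d n p := by
  induction m with
  | zero => simp [Mm_zero]
  | succ m ih =>
    rw [show m + 1 + n = (m + n) + 1 by ring, Mm_succ, Mm_succ, ih, Matrix.mul_assoc,
      Function.iterate_add_apply]

lemma Mm_one (d : Dat) (p : Pt) : Mm d 1 p = mv (vv d p) := by
  rw [show (1 : ℕ) = 0 + 1 from rfl, Mm_succ, Mm_zero, Matrix.mul_one]
  rfl

lemma px_zero (d : Dat) (p : Pt) : px d 0 p = p.2.1 := rfl

lemma px_sk (d : Dat) (i j : ℕ) (p : Pt) : px d j ((sk d)^[i] p) = px d (j + i) p := by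
  unfold px; rw [Function.iterate_add_apply]

lemma sk_fst (d : Dat) (p : Pt) : (sk d p).1 = p.1 := rfl

lemma sk_iter_fst (d : Dat) (n : ℕ) (p : Pt) : ((sk d)^[n] p).1 = p.1 := by
  induction n with
  | zero => rfl
  | succ n ih => rw [Function.iterate_succ_apply', sk_fst, ih]

lemma sk_iter (d : Dat) (ω : Om) (z : T2) (n : ℕ) :
    (sk d)^[n] (ω, z) = (ω, (Tw d ω)^[n] z) := by
  induction n with
  | zero => rfl
  | succ n ih => rw [Function.iterate_succ_apply', ih, Function.iterate_succ_apply']; rfl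

lemma sk_iter_snd_succ (d : Dat) (n : ℕ) (p : Pt) : ((sk d)^[n + 1] p).2.2 = px d n p := by
  rw [Function.iterate_succ_apply']; rfl

lemma px_succ (d : Dat) (n : ℕ) (p : Pt) :
    px d (n + 1) p = cc d p.1 (px d n p) - ((sk d)^[n] p).2.2 := by
  unfold px
  rw [Function.iterate_succ_apply']
  show cc d ((sk d)^[n] p).1 ((sk d)^[n] p).2.1 - ((sk d)^[n] p).2.2 = _
  rw [sk_iter_fst]

/-- reversibility -/
lemma sk_rv_sk (d : Dat) (p : Pt) : sk d (rv (sk d p)) = rv p := by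
  obtain ⟨ω, x, y⟩ := p
  show (ω, (cc d ω x - (cc d ω x - y), x)) = (ω, (y, x))
  rw [sub_sub_cancel]

end Pool.Agent.Helper18.HY
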