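import Pool.Agent.Helper18.HY.L2
import Pool.Agent.Helper95.PV.Bas

/-! Block HY-L2P: the average of `1/|product|` over independent binary choices decays.

`Av p q n M` is the average of `(nn (M * mv v_(n-1) * ... * mv v_0))⁻¹` over the `2^n` choices `v_i ∈ {p i, q i}`.
Let `hM M x = (|M 0 0 x + M 0 1| + |M 1 0 x + M 1 1|)⁻¹`. For `x ≠ 0`: `Tv v (hM M) x = hM (M * mv v) x` (also if the denominator vanishes: `0⁻¹ = 0`). `f0 x = (|x| + 1)⁻¹ = hM 1 x`, `0 < Nq f0 < ∞` (`∫ (1+|x|)^(-2) = 2`),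
`hM M x ≥ (nn M)⁻¹ f0 x` if `det M ≠ 0` (denominator `> 0`) since `|M 0 0 x + M 0 1| + |M 1 0 x + M 1 1| ≤ nn M (|x| + 1)`.
Operator product: `Pr p q 0 f = f`, `Pr p q (n+1) f = Pr p q n (Qv (p n) (q n) f)`. By induction on `n` (all `M` with `det M ≠ 0`): `(Av p q n M) * f0 x ≤ Pr p q n (hM M) x` for almost every `x` (linearity of `Pr` up to null sets;
`Tv v` and `Qv v w` map almost everywhere equal functions to almost everywhere equal functions because `x ↦ v - x⁻¹` pulls null sets back to null sets; alternatively define the average `Hf p q n M x` of `hM` by the recursion of `Av` and prove `Hf p q (n+1) M = Qv (p 0) (q 0) (...)` by peeling the other end).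
Norm: with the product written from the outer end, `Pr p q (2 n + 2) f = Qv (p 0) (q 0) (Qv (p 1) (q 1) (Pr (p (· + 2)) (q (· + 2)) (2 n) f))`, `loss` and `Nq_Qv_le` give `Nq (Pr p q (2 n) f) ≤ (∏ i < n, if both sites 2i, 2i+1 are good then 1 - σ^2/25000 else 1) Nq f`.
So `(Av p q (2 n) 1)^2 Nq f0 ≤ (∏ ...) Nq f0`; take the square root: `sqrt (1 - σ^2/25000) ≤ 1 - σ^2/50000`. -/

set_option autoImplicit false
open MeasureTheory Real Set
open scoped ENNReal

namespace Pool.Agent.Helper18.HY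

open Pool.Agent.Helper18.UC (nn)
open Pool.Agent.Helper95.PV (mv)

/-- the average of `1 / nn` over the binary choices `v i ∈ {p i, q i}`, `i < n` -/
noncomputable def Av (p q : ℕ → ℝ) : ℕ → Matrix (Fin 2) (Fin 2) ℝ → ℝ
  | 0, M => (nn M)⁻¹
  | n + 1, M => (Av p q n (M * mv (p n)) + Av p q n (M * mv (q n))) / 2

/-! ### the averaged functions -/

private noncomputable def hM34 (M : Matrix (Fin 2) (Fin 2) ℝ) (x : ℝ) : ℝ :=
  (|M 0 0 * x + M 0 1| + |M 1 0 * x + M 1 1|)⁻¹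

private noncomputable def Hf34 (p q : ℕ → ℝ) : ℕ → Matrix (Fin 2) (Fin 2) ℝ → ℝ → ℝ
  | 0, M => hM34 M
  | n + 1, M => fun x => (Hf34 p q n (M * mv (p n)) x + Hf34 p q n (M * mv (q n)) x) / 2

private theorem mm00_34 (M : Matrix (Fin 2) (Fin 2) ℝ) (v : ℝ) (i : Fin 2) :
    (M * mv v) i 0 = M i 0 * v + M i 1 := by
  simp [mv, Matrix.mul_apply, Fin.sum_univ_two]

private theorem mm01_34 (M : Matrix (Fin 2) (Fin 2) ℝ) (v : ℝ) (i : Fin 2) :
    (M * mv v) i 1 = -M i 0 := by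
  simp [mv, Matrix.mul_apply, Fin.sum_univ_two]

private theorem Tv_hM34 (M : Matrix (Fin 2) (Fin 2) ℝ) (v : ℝ) {x : ℝ} (hx : x ≠ 0) :
    Tv v (hM34 M) x = hM34 (M * mv v) x := by
  unfold Tv hM34
  rw [mm00_34, mm00_34, mm01_34, mm01_34, ← mul_inv]
  congr 1
  rw [mul_add, ← abs_mul, ← abs_mul]
  congr 2
  · field_simp
    ring
  · field_simp
    ring

private theorem Hf_succ34 (p q : ℕ → ℝ) (n : ℕ) : ∀ (M : Matrix (Fin 2) (Fin 2) ℝ) (x : ℝ), x ≠ 0 →
    Hf34 p q (n + 1) M x = Qv (p 0) (q 0) (Hf34 (fun i => p (i + 1)) (fun i => q (i + 1)) n M) x := by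
  induction n with
  | zero =>
    intro M x hx
    show (hM34 (M * mv (p 0)) x + hM34 (M * mv (q 0)) x) / 2
      = (Tv (p 0) (hM34 M) x + Tv (q 0) (hM34 M) x) / 2
    rw [Tv_hM34 M _ hx, Tv_hM34 M _ hx]
  | succ n ih =>
    intro M x hx
    show (Hf34 p q (n + 1) (M * mv (p (n + 1))) x + Hf34 p q (n + 1) (M * mv (q (n + 1))) x) / 2 = _
    rw [ih _ x hx, ih _ x hx]
    unfold Qv Tv
    show _ = (|x|⁻¹ * ((Hf34 (fun i => p (i + 1)) (fun i => q (i + 1)) n (M * mv (p (n + 1))) (p 0 - x⁻¹)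
        + Hf34 (fun i => p (i + 1)) (fun i => q (i + 1)) n (M * mv (q (n + 1))) (p 0 - x⁻¹)) / 2)
      + |x|⁻¹ * ((Hf34 (fun i => p (i + 1)) (fun i => q (i + 1)) n (M * mv (p (n + 1))) (q 0 - x⁻¹)
        + Hf34 (fun i => p (i + 1)) (fun i => q (i + 1)) n (M * mv (q (n + 1))) (q 0 - x⁻¹)) / 2)) / 2
    ring

private theorem meas_Hf34 (p q : ℕ → ℝ) (n : ℕ) : ∀ M : Matrix (Fin 2) (Fin 2) ℝ,
    Measurable (Hf34 p q n M) := by
  induction n with
  | zero =>
    intro M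
    show Measurable (hM34 M)
    unfold hM34
    fun_prop
  | succ n ih =>
    intro M
    show Measurable (fun x => (Hf34 p q n (M * mv (p n)) x + Hf34 p q n (M * mv (q n)) x) / 2)
    have h1 := ih (M * mv (p n))
    have h2 := ih (M * mv (q n))
    fun_prop

private theorem det_mv34 (M : Matrix (Fin 2) (Fin 2) ℝ) (hM : M.det ≠ 0) (v : ℝ) :
    (M * mv v).det ≠ 0 := by
  rw [Matrix.det_mul]
  refine mul_ne_zero hM ?_
  simp [mv, Matrix.det_fin_two]

private theorem lower34 (p q : ℕ → ℝ) (n : ℕ) : ∀ M : Matrix (Fin 2) (Fin 2) ℝ, M.det ≠ 0 → ∀ x : ℝ,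
    Av p q n M * (|x| + 1)⁻¹ ≤ Hf34 p q n M x := by
  induction n with
  | zero =>
    intro M hM x
    show (nn M)⁻¹ * (|x| + 1)⁻¹ ≤ hM34 M x
    unfold hM34
    rw [← mul_inv]
    have h1 : |M 0 0 * x + M 0 1| ≤ |M 0 0| * |x| + |M 0 1| := by
      rw [← abs_mul]
      exact abs_add_le _ _
    have h2 : |M 1 0 * x + M 1 1| ≤ |M 1 0| * |x| + |M 1 1| := by
      rw [← abs_mul]
      exact abs_add_le _ _
    have h3 : 0 < |M 0 0 * x + M 0 1| + |M 1 0 * x + M 1 1| := by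
      by_contra hcon
      push Not at hcon
      have ha := abs_nonneg (M 0 0 * x + M 0 1)
      have hb := abs_nonneg (M 1 0 * x + M 1 1)
      have ha0 : M 0 0 * x + M 0 1 = 0 := by
        rw [← abs_eq_zero]
        linarith
      have hb0 : M 1 0 * x + M 1 1 = 0 := by
        rw [← abs_eq_zero]
        linarith
      apply hM
      rw [Matrix.det_fin_two]
      linear_combination M 0 0 * hb0 - M 1 0 * ha0
    refine inv_anti₀ h3 ?_
    unfold nn
    have hx := abs_nonneg x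
    have e1 := abs_nonneg (M 0 0)
    have e2 := mul_nonneg (abs_nonneg (M 0 1)) hx
    have e3 := abs_nonneg (M 1 0)
    have e4 := mul_nonneg (abs_nonneg (M 1 1)) hx
    nlinarith
  | succ n ih =>
    intro M hM x
    have h1 := ih (M * mv (p n)) (det_mv34 M hM _) x
    have h2 := ih (M * mv (q n)) (det_mv34 M hM _) x
    show (Av p q n (M * mv (p n)) + Av p q n (M * mv (q n))) / 2 * (|x| + 1)⁻¹
      ≤ (Hf34 p q n (M * mv (p n)) x + Hf34 p q n (M * mv (q n)) x) / 2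
    linarith

private theorem av_nonneg34 (p q : ℕ → ℝ) (n : ℕ) : ∀ M : Matrix (Fin 2) (Fin 2) ℝ, 0 ≤ Av p q n M := by
  induction n with
  | zero =>
    intro M
    show 0 ≤ (nn M)⁻¹
    unfold nn
    positivity
  | succ n ih =>
    intro M
    have h1 := ih (M * mv (p n))
    have h2 := ih (M * mv (q n))
    show 0 ≤ (Av p q n (M * mv (p n)) + Av p q n (M * mv (q n))) / 2
    linarith

private noncomputable def f34 (x : ℝ) : ℝ := (|x| + 1)⁻¹

private theorem meas_f34 : Measurable f34 := by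
  unfold f34
  fun_prop

private theorem Nq_f34_ne_top : Nq f34 ≠ ⊤ := by
  have h1 : Nq f34 ≤ ∫⁻ x : ℝ, ENNReal.ofReal ((1 + x ^ 2)⁻¹) := by
    unfold Nq f34
    refine lintegral_mono fun x => ENNReal.ofReal_le_ofReal ?_
    rw [inv_pow]
    refine inv_anti₀ (by positivity) ?_
    have hx := abs_nonneg x
    nlinarith [sq_abs x]
  have h2 : (∫⁻ x : ℝ, ENNReal.ofReal ((1 + x ^ 2)⁻¹)) < ⊤ :=
    (integrable_inv_one_add_sq).lintegral_lt_top
  exact (h1.trans_lt h2).ne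

private theorem Nq_f34_ne_zero : Nq f34 ≠ 0 := by
  intro h
  unfold Nq at h
  rw [lintegral_eq_zero_iff (by
    have := meas_f34
    fun_prop)] at h
  obtain ⟨x, hx⟩ := h.exists
  have h2 : 0 < f34 x := by
    unfold f34
    positivity
  have h3 : 0 < ENNReal.ofReal (f34 x ^ 2) := ENNReal.ofReal_pos.2 (by positivity)
  simp only [Pi.zero_apply] at hx
  exact h3.ne' hx

private theorem Hf_zero34 (p q : ℕ → ℝ) : Hf34 p q 0 1 = f34 := by
  funext x
  show hM34 1 x = f34 x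
  unfold hM34 f34
  simp

private theorem Nq_congr34 {f g : ℝ → ℝ} (h : ∀ᵐ x, f x = g x) : Nq f = Nq g := by
  unfold Nq
  refine lintegral_congr_ae ?_
  filter_upwards [h] with x hx
  rw [hx]

private theorem Nq_Hf34 {σ : ℝ} (hσ : 0 < σ) (hσ1 : σ ≤ 1) (n : ℕ) : ∀ p q : ℕ → ℝ,
    Nq (Hf34 p q (2 * n) 1) ≤ ENNReal.ofReal (∏ i ∈ Finset.range n,
      (if |p (2 * i) - q (2 * i)| = σ ∧ |p (2 * i + 1) - q (2 * i + 1)| = σ then 1 - σ ^ 2 / 25000 else 1)) * Nq f34 := by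
  have hc : 0 ≤ 1 - σ ^ 2 / 25000 := by nlinarith
  induction n with
  | zero =>
    intro p q
    rw [show 2 * 0 = 0 from rfl, Hf_zero34]
    simp
  | succ n ih =>
    intro p q
    have hih := ih (fun i => p (i + 1 + 1)) (fun i => q (i + 1 + 1))
    set F := Hf34 (fun i => p (i + 1 + 1)) (fun i => q (i + 1 + 1)) (2 * n) 1 with hF
    have hFm : Measurable F := meas_Hf34 _ _ _ _
    have hFtop : Nq F ≠ ⊤ := by
      refine ne_top_of_le_ne_top ?_ hih
      exact ENNReal.mul_ne_top ENNReal.ofReal_ne_top Nq_f34_ne_top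
    have hae : ∀ᵐ x : ℝ, x ∉ ({0, (p 0)⁻¹, (q 0)⁻¹} : Set ℝ) := by
      rw [← measure_eq_zero_iff_ae_notMem]
      exact Set.Finite.measure_zero (Set.toFinite _) _
    have h1 : Nq (Hf34 p q (2 * (n + 1)) 1) = Nq (Qv (p 0) (q 0) (Qv (p 1) (q 1) F)) := by
      refine Nq_congr34 ?_
      filter_upwards [hae] with x hx
      simp only [Set.mem_insert_iff, Set.mem_singleton_iff, not_or] at hx
      obtain ⟨hx0, hxp, hxq⟩ := hx
      have hp : p 0 - x⁻¹ ≠ 0 := by
        intro h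
        apply hxp
        rw [sub_eq_zero.1 h, inv_inv]
      have hq : q 0 - x⁻¹ ≠ 0 := by
        intro h
        apply hxq
        rw [sub_eq_zero.1 h, inv_inv]
      rw [show 2 * (n + 1) = (2 * n + 1) + 1 by ring, Hf_succ34 p q (2 * n + 1) 1 x hx0]
      unfold Qv
      unfold Tv
      rw [Hf_succ34 (fun i => p (i + 1)) (fun i => q (i + 1)) (2 * n) 1 _ hp,
        Hf_succ34 (fun i => p (i + 1)) (fun i => q (i + 1)) (2 * n) 1 _ hq]
      rfl
    rw [h1, Finset.prod_range_succ']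
    have hprod : (∏ k ∈ Finset.range n, (if |p (2 * (k + 1)) - q (2 * (k + 1))| = σ ∧
        |p (2 * (k + 1) + 1) - q (2 * (k + 1) + 1)| = σ then 1 - σ ^ 2 / 25000 else 1))
        = ∏ i ∈ Finset.range n, (if |(fun i => p (i + 1 + 1)) (2 * i) - (fun i => q (i + 1 + 1)) (2 * i)| = σ ∧
          |(fun i => p (i + 1 + 1)) (2 * i + 1) - (fun i => q (i + 1 + 1)) (2 * i + 1)| = σ
          then 1 - σ ^ 2 / 25000 else 1) := by
      refine Finset.prod_congr rfl fun k _ => ?_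
      have e1 : 2 * (k + 1) = 2 * k + 1 + 1 := by ring
      simp only [e1]
    rw [hprod]
    set W := ∏ i ∈ Finset.range n, (if |(fun i => p (i + 1 + 1)) (2 * i) - (fun i => q (i + 1 + 1)) (2 * i)| = σ ∧
          |(fun i => p (i + 1 + 1)) (2 * i + 1) - (fun i => q (i + 1 + 1)) (2 * i + 1)| = σ
          then 1 - σ ^ 2 / 25000 else 1) with hW
    have hW0 : 0 ≤ W := by
      refine Finset.prod_nonneg fun i _ => ?_
      split_ifs
      · exact hc
      · exact zero_le_one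
    by_cases hg : |p (2 * 0) - q (2 * 0)| = σ ∧ |p (2 * 0 + 1) - q (2 * 0 + 1)| = σ
    · rw [if_pos hg]
      simp only [mul_zero, zero_add] at hg
      refine (loss hσ hσ1 hg.1 hg.2 hFm hFtop).trans ?_
      rw [mul_comm W, ENNReal.ofReal_mul hc, mul_assoc]
      exact mul_le_mul_right hih _
    · rw [if_neg hg, mul_one]
      refine (Nq_Qv_le _ _ (meas_Qv _ _ hFm)).trans ?_
      exact (Nq_Qv_le _ _ hFm).trans hih

theorem av_le {σ : ℝ} (hσ : 0 < σ) (hσ1 : σ ≤ 1) (p q : ℕ → ℝ) (n : ℕ) :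
    Av p q (2 * n) 1 ≤ ∏ i ∈ Finset.range n,
      (if |p (2 * i) - q (2 * i)| = σ ∧ |p (2 * i + 1) - q (2 * i + 1)| = σ then 1 - σ ^ 2 / 50000 else 1) := by
  have hc : 0 ≤ 1 - σ ^ 2 / 25000 := by nlinarith
  have hc' : 0 ≤ 1 - σ ^ 2 / 50000 := by nlinarith
  set A := Av p q (2 * n) 1 with hA
  have hA0 : 0 ≤ A := av_nonneg34 _ _ _ _
  set W := ∏ i ∈ Finset.range n,
      (if |p (2 * i) - q (2 * i)| = σ ∧ |p (2 * i + 1) - q (2 * i + 1)| = σ then 1 - σ ^ 2 / 25000 else 1) with hW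
  set W' := ∏ i ∈ Finset.range n,
      (if |p (2 * i) - q (2 * i)| = σ ∧ |p (2 * i + 1) - q (2 * i + 1)| = σ then 1 - σ ^ 2 / 50000 else 1) with hW'
  have hW0 : 0 ≤ W := by
    refine Finset.prod_nonneg fun i _ => ?_
    split_ifs
    · exact hc
    · exact zero_le_one
  have hW'0 : 0 ≤ W' := by
    refine Finset.prod_nonneg fun i _ => ?_
    split_ifs
    · exact hc'
    · exact zero_le_one
  have hWW : W ≤ W' ^ 2 := by
    rw [hW, hW', ← Finset.prod_pow]
    refine Finset.prod_le_prod (fun i _ => ?_) (fun i _ => ?_)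
    · split_ifs
      · exact hc
      · exact zero_le_one
    · split_ifs
      · nlinarith [sq_nonneg (σ ^ 2)]
      · norm_num
  have h1 : ENNReal.ofReal (A ^ 2) * Nq f34 ≤ Nq (Hf34 p q (2 * n) 1) := by
    have e1 : ENNReal.ofReal (A ^ 2) * Nq f34 = ∫⁻ x, ENNReal.ofReal ((A * (|x| + 1)⁻¹) ^ 2) := by
      unfold Nq
      rw [← lintegral_const_mul' _ _ ENNReal.ofReal_ne_top]
      refine lintegral_congr fun x => ?_
      rw [← ENNReal.ofReal_mul (by positivity), mul_pow]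
      rfl
    rw [e1]
    unfold Nq
    refine lintegral_mono fun x => ENNReal.ofReal_le_ofReal ?_
    have hl := lower34 p q (2 * n) 1 (by simp) x
    exact pow_le_pow_left₀ (mul_nonneg hA0 (by positivity)) hl 2
  have h2 := h1.trans (Nq_Hf34 hσ hσ1 n p q)
  have h3 : ENNReal.ofReal (A ^ 2) ≤ ENNReal.ofReal W :=
    (ENNReal.mul_le_mul_iff_left Nq_f34_ne_zero Nq_f34_ne_top).1 h2
  have h4 : A ^ 2 ≤ W := (ENNReal.ofReal_le_ofReal_iff hW0).1 h3
  exact (pow_le_pow_iff_left₀ hA0 hW'0 two_ne_zero).1 (h4.trans hWW)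

end Pool.Agent.Helper18.HY
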