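import Pool.Agent.Helper18.HY.Bas
import Pool.Agent.Helper18.HY.L2P

/-! Project HY: definitions for the flips. -/

set_option autoImplicit false
open MeasureTheory Real Set
open scoped ENNReal

namespace Pool.Agent.Helper18.HY

open Pool.Agent.Helper18.UC (T2 rep toT nn)
open Pool.Agent.Helper18.FD (NN rr pr cl uu lm Bump k1 k2 NN_pos NN_ge)
open Pool.Agent.Helper95.PV (Ix Om PP lv rp tc inn out cel upd mv mu Pt rv)

/-- the cell of level `l` at time `j` -/
noncomputable def cj (d : Dat) (l j : ℕ) (p : Pt) : ℕ := cel l (px d j p)

/-- the local coordinate at time `j` -/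
noncomputable def tj (d : Dat) (l j : ℕ) (p : Pt) : ℝ := tc l (cj d l j p) (px d j p)

/-- the first noise coordinate of the cell at time `j` -/
noncomputable def uj (d : Dat) (l j : ℕ) (p : Pt) : ℝ := cl (p.1 (l, cj d l j p, false))

/-- the second noise coordinate of the cell at time `j` -/
noncomputable def wj (d : Dat) (l j : ℕ) (p : Pt) : ℝ := cl (p.1 (l, cj d l j p, true))

/-- the kick at time `j` is at most half of the largest (and the noise is not at the end point `1`, for convenience) -/
def good (d : Dat) (l j : ℕ) (p : Pt) : Prop :=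
  |uj d l j p + wj d l j p * tj d l j p| ≤ 1 / 2 ∧ wj d l j p < 1

/-- the flip of a number in `[-1, 1]` -/
noncomputable def fl (w : ℝ) : ℝ := if 0 ≤ w then w - 1 else w + 1

/-- the derivative of the circle map at time `j` -/
noncomputable def vj (d : Dat) (j : ℕ) (p : Pt) : ℝ := vv d ((sk d)^[j] p)

/-- the derivative of the circle map at time `j` after the flip -/
noncomputable def vs (d : Dat) (l j : ℕ) (p : Pt) : ℝ :=
  open Classical in
  if good d l j p then vj d j p + d.a * (d.κ * d.k l * (fl (wj d l j p) - wj d l j p)) else vj d j p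

/-- the size of the flips -/
noncomputable def sg (d : Dat) (l : ℕ) : ℝ := |d.a| * d.κ * d.k l

/-- the point with the flipped noise -/
noncomputable def Fp (d : Dat) (l j : ℕ) (p : Pt) : Pt :=
  (upd l (cj d l j p) (uj d l j p + (wj d l j p - fl (wj d l j p)) * tj d l j p) (fl (wj d l j p)) p.1, p.2)

end Pool.Agent.Helper18.HY
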