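import Pool.Agent.Helper18.HY.Defs
import Pool.Agent.Helper18.FD.Loc

/-! Block HY-FIELD: the random potential is of class `C^2`, with bounds uniform in the noise. -/

set_option autoImplicit false
open MeasureTheory Real Set
open scoped ENNReal

namespace Pool.Agent.Helper18.HY

open Pool.Agent.Helper18.UC (T2 rep toT nn)
open Pool.Agent.Helper18.FD (NN rr pr cl uu lm Bump k1 k2 CB NN_pos NN_ge bump_cb bump_cd bump_in)
open Pool.Agent.Helper95.PV (Ix Om PP lv rp tc inn out cel upd mv mu Pt rv)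

/-! ### one level -/

private theorem cb_bd63 {f : ℝ → ℝ} (hf : CB f) : ∃ B : ℝ, 0 ≤ B ∧ ∀ t, |f t| ≤ B := by
  obtain ⟨C, hC⟩ := (isCompact_Icc (a := (-1 : ℝ)) (b := 1)).exists_bound_of_continuousOn hf.cont.continuousOn
  refine ⟨max C 0, le_max_right _ _, fun t => ?_⟩
  rcases le_total 1 |t| with h | h
  · rw [hf.zero t h, abs_zero]
    exact le_max_right _ _
  · exact (hC t (abs_le.1 h)).trans (le_max_left _ _)

private theorem NN_four63 (l : ℕ) : 4 ≤ NN l := by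
  unfold NN
  calc 4 ≤ 2 ^ 3 := by norm_num
    _ ≤ 2 ^ (l + 3) := Nat.pow_le_pow_right (by norm_num) (by omega)

private theorem lv_bd63 {g₁ g₂ : ℝ → ℝ} (h1 : CB g₁) (h2 : CB g₂) {B₁ B₂ : ℝ}
    (hB1 : ∀ t, |g₁ t| ≤ B₁) (hB2 : ∀ t, |g₂ t| ≤ B₂) (ω : Om) (l : ℕ) (x : ℝ) :
    |lv g₁ g₂ ω l x| ≤ 2 * B₁ + 2 * B₂ := by
  have s2 := Pool.Agent.Helper18.FD.pr_sum (NN_four63 l) hB1 h1.zero x
  have s3 := Pool.Agent.Helper18.FD.pr_sum (NN_four63 l) hB2 h2.zero x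
  unfold lv
  calc _ ≤ ∑ i ∈ Finset.range (NN l), (|pr (NN l) g₁ (x - i / NN l)| + |pr (NN l) g₂ (x - i / NN l)|) := by
        refine (Finset.abs_sum_le_sum_abs _ _).trans (Finset.sum_le_sum fun c _ => ?_)
        refine (abs_add_le _ _).trans (add_le_add ?_ ?_)
        · rw [abs_mul]
          exact mul_le_of_le_one_left (abs_nonneg _) (Pool.Agent.Helper18.FD.abs_cl_le _)
        · rw [abs_mul]
          exact mul_le_of_le_one_left (abs_nonneg _) (Pool.Agent.Helper18.FD.abs_cl_le _)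
    _ ≤ _ := by
        rw [Finset.sum_add_distrib]
        exact add_le_add s2 s3

private theorem lv_per63 (g₁ g₂ : ℝ → ℝ) (ω : Om) (l : ℕ) (x : ℝ) : lv g₁ g₂ ω l (x + 1) = lv g₁ g₂ ω l x := by
  have h : ∀ (g : ℝ → ℝ) (N i : ℕ), pr N g (x + 1 - i / N) = pr N g (x - i / N) := by
    intro g N i
    have h1 := Pool.Agent.Helper18.FD.rr_add_int (x - i / N) 1
    rw [Int.cast_one] at h1
    rw [show x + 1 - (i : ℝ) / N = x - i / N + 1 by ring]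
    unfold pr
    rw [h1]
  unfold lv
  simp only [h]

private theorem lv_cont63 {g₁ g₂ : ℝ → ℝ} (h1 : CB g₁) (h2 : CB g₂) (ω : Om) (l : ℕ) : Continuous (lv g₁ g₂ ω l) := by
  have e : lv g₁ g₂ ω l = fun x : ℝ => ∑ i ∈ Finset.range (NN l), (cl (ω (l, i, false)) * pr (NN l) g₁ (x - i / NN l) +
    cl (ω (l, i, true)) * pr (NN l) g₂ (x - i / NN l)) := rfl
  rw [e]
  refine continuous_finsetSum _ fun i _ => ?_
  exact (continuous_const.mul ((Pool.Agent.Helper18.FD.pr_cont (NN_four63 l) h1.cont h1.zero).comp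
    (continuous_id.sub continuous_const))).add
    (continuous_const.mul ((Pool.Agent.Helper18.FD.pr_cont (NN_four63 l) h2.cont h2.zero).comp
    (continuous_id.sub continuous_const)))

private theorem cl_cont63 : Continuous cl := by
  unfold cl
  fun_prop

private theorem lv_meas63 {g₁ g₂ : ℝ → ℝ} (h1 : CB g₁) (h2 : CB g₂) (l : ℕ) :
    Measurable fun q : Om × ℝ => lv g₁ g₂ q.1 l q.2 := by
  unfold lv
  refine Finset.measurable_fun_sum _ fun i _ => ?_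
  have hx : Measurable fun p : Om × ℝ => p.2 - (i : ℝ) / NN l := measurable_snd.sub_const _
  have hc : ∀ j : Ix, Measurable fun p : Om × ℝ => cl (p.1 j) := fun j =>
    cl_cont63.measurable.comp ((measurable_pi_apply j).comp measurable_fst)
  exact ((hc _).mul ((Pool.Agent.Helper18.FD.pr_cont (NN_four63 l) h1.cont h1.zero).measurable.comp hx)).add
    ((hc _).mul ((Pool.Agent.Helper18.FD.pr_cont (NN_four63 l) h2.cont h2.zero).measurable.comp hx))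

private theorem lv_der63 {g₁ g₂ : ℝ → ℝ} (h1 : CB g₁) (h2 : CB g₂) (h11 : ContDiff ℝ 1 g₁)
    (h21 : ContDiff ℝ 1 g₂) (ω : Om) (l : ℕ) (x : ℝ) :
    HasDerivAt (lv g₁ g₂ ω l) (NN l * lv (deriv g₁) (deriv g₂) ω l x) x := by
  have hN := NN_four63 l
  have e : lv g₁ g₂ ω l = fun x : ℝ => ∑ i ∈ Finset.range (NN l), (cl (ω (l, i, false)) * pr (NN l) g₁ (x - i / NN l) +
    cl (ω (l, i, true)) * pr (NN l) g₂ (x - i / NN l)) := rfl
  rw [e]
  unfold lv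
  rw [Finset.mul_sum]
  refine HasDerivAt.fun_sum fun i _ => ?_
  have ha := (Pool.Agent.Helper18.FD.pr_deriv hN (h11.differentiable one_ne_zero) h1.zero
    (x - i / NN l)).comp_sub_const x (i / NN l)
  have hb := (Pool.Agent.Helper18.FD.pr_deriv hN (h21.differentiable one_ne_zero) h2.zero
    (x - i / NN l)).comp_sub_const x (i / NN l)
  have h' := (ha.const_mul (cl (ω (l, i, false)))).add (hb.const_mul (cl (ω (l, i, true))))
  refine h'.congr_deriv ?_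
  ring

private theorem upd_false63 (l i : ℕ) (u v : ℝ) (ω : Om) (l' i' : ℕ) :
    upd l i u v ω (l', i', false) = if l' = l ∧ i' = i then u else ω (l', i', false) := by
  unfold upd
  rw [Function.update_of_ne (by simp)]
  by_cases h : l' = l ∧ i' = i
  · rw [if_pos h, h.1, h.2, Function.update_self]
  · rw [if_neg h, Function.update_of_ne]
    intro e
    simp only [Prod.mk.injEq, and_true] at e
    exact h ⟨e.1, e.2⟩

private theorem upd_true63 (l i : ℕ) (u v : ℝ) (ω : Om) (l' i' : ℕ) :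
    upd l i u v ω (l', i', true) = if l' = l ∧ i' = i then v else ω (l', i', true) := by
  unfold upd
  by_cases h : l' = l ∧ i' = i
  · rw [if_pos h, h.1, h.2, Function.update_self]
  · rw [if_neg h, Function.update_of_ne, Function.update_of_ne (by simp)]
    intro e
    simp only [Prod.mk.injEq, and_true] at e
    exact h ⟨e.1, e.2⟩

private theorem lv_upd63 (g₁ g₂ : ℝ → ℝ) {l i : ℕ} (hi : i < NN l) (u v : ℝ) (ω : Om) (l' : ℕ) (x : ℝ) :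
    lv g₁ g₂ (upd l i u v ω) l' x = lv g₁ g₂ ω l' x +
      if l' = l then ((cl u - cl (ω (l, i, false))) * pr (NN l) g₁ (x - i / NN l) +
          (cl v - cl (ω (l, i, true))) * pr (NN l) g₂ (x - i / NN l)) else 0 := by
  unfold lv
  by_cases hl : l' = l
  · subst hl
    rw [if_pos rfl, ← sub_eq_iff_eq_add', ← Finset.sum_sub_distrib, Finset.sum_eq_single i]
    · rw [upd_false63, upd_true63, if_pos ⟨rfl, rfl⟩, if_pos ⟨rfl, rfl⟩]
      ring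
    · intro c' _ hc'
      rw [upd_false63, upd_true63, if_neg (fun h => hc' h.2), if_neg (fun h => hc' h.2)]
      ring
    · intro h
      exact absurd (Finset.mem_range.2 hi) h
  · rw [if_neg hl, add_zero]
    refine Finset.sum_congr rfl fun c' _ => ?_
    rw [upd_false63, upd_true63, if_neg (fun h => hl h.1), if_neg (fun h => hl h.1)]

/-! ### the series -/

private theorem fs_dom63 {g₁ g₂ : ℝ → ℝ} (h1 : CB g₁) (h2 : CB g₂) {c : ℕ → ℝ} (hc : ∀ l, 0 ≤ c l) (hs : Summable c) :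
    ∃ w : ℕ → ℝ, Summable w ∧ (∀ l, 0 ≤ w l) ∧ ∀ (ω : Om) (l : ℕ) (x : ℝ), ‖c l * lv g₁ g₂ ω l x‖ ≤ w l := by
  obtain ⟨B₁, hB10, hB1⟩ := cb_bd63 h1
  obtain ⟨B₂, hB20, hB2⟩ := cb_bd63 h2
  refine ⟨fun l => c l * (2 * B₁ + 2 * B₂), hs.mul_right _, fun l => mul_nonneg (hc l) (by positivity), fun ω l x => ?_⟩
  rw [norm_mul, Real.norm_eq_abs, Real.norm_eq_abs, abs_of_nonneg (hc l)]
  exact mul_le_mul_of_nonneg_left (lv_bd63 h1 h2 hB1 hB2 ω l x) (hc l)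

private theorem fs_summable63 {g₁ g₂ : ℝ → ℝ} (h1 : CB g₁) (h2 : CB g₂) {c : ℕ → ℝ} (hc : ∀ l, 0 ≤ c l)
    (hs : Summable c) (ω : Om) (x : ℝ) : Summable fun l : ℕ => c l * lv g₁ g₂ ω l x := by
  obtain ⟨w, hw, _, hb⟩ := fs_dom63 h1 h2 hc hs
  exact Summable.of_norm_bounded hw fun l => hb ω l x

private theorem fs_bd63 {g₁ g₂ : ℝ → ℝ} (h1 : CB g₁) (h2 : CB g₂) {c : ℕ → ℝ} (hc : ∀ l, 0 ≤ c l)
    (hs : Summable c) : ∃ C : ℝ, 0 ≤ C ∧ ∀ (ω : Om) (x : ℝ), |fs g₁ g₂ c ω x| ≤ C := by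
  obtain ⟨w, hw, hw0, hb⟩ := fs_dom63 h1 h2 hc hs
  exact ⟨∑' l, w l, tsum_nonneg hw0, fun ω x => tsum_of_norm_bounded hw.hasSum fun l => hb ω l x⟩

private theorem fs_cont63 {g₁ g₂ : ℝ → ℝ} (h1 : CB g₁) (h2 : CB g₂) {c : ℕ → ℝ} (hc : ∀ l, 0 ≤ c l)
    (hs : Summable c) (ω : Om) : Continuous (fs g₁ g₂ c ω) := by
  obtain ⟨w, hw, _, hb⟩ := fs_dom63 h1 h2 hc hs
  exact continuous_tsum (fun l => continuous_const.mul (lv_cont63 h1 h2 ω l)) hw fun l x => hb ω l x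

private theorem fs_per63 (g₁ g₂ : ℝ → ℝ) (c : ℕ → ℝ) (ω : Om) (x : ℝ) : fs g₁ g₂ c ω (x + 1) = fs g₁ g₂ c ω x := by
  unfold fs
  simp only [lv_per63]

private theorem fs_meas63 {g₁ g₂ : ℝ → ℝ} (h1 : CB g₁) (h2 : CB g₂) {c : ℕ → ℝ} (hc : ∀ l, 0 ≤ c l)
    (hs : Summable c) : Measurable fun q : Om × ℝ => fs g₁ g₂ c q.1 q.2 := by
  refine measurable_of_tendsto_metrizable (f := fun m : ℕ => fun p : Om × ℝ =>
    ∑ l ∈ Finset.range m, c l * lv g₁ g₂ p.1 l p.2) ?_ ?_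
  · intro m
    exact Finset.measurable_fun_sum _ fun l _ => (lv_meas63 h1 h2 l).const_mul _
  · rw [tendsto_pi_nhds]
    intro p
    exact (fs_summable63 h1 h2 hc hs p.1 p.2).hasSum.tendsto_sum_nat

private theorem fs_der63 {g₁ g₂ : ℝ → ℝ} (h1 : CB g₁) (h2 : CB g₂) (h1' : CB (deriv g₁)) (h2' : CB (deriv g₂))
    (h11 : ContDiff ℝ 1 g₁) (h21 : ContDiff ℝ 1 g₂) {c c' : ℕ → ℝ} (hc : ∀ l, 0 ≤ c l) (hs : Summable c)
    (hcc : ∀ l, c' l = c l * NN l) (hs' : Summable c') (ω : Om) (x : ℝ) :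
    HasDerivAt (fs g₁ g₂ c ω) (fs (deriv g₁) (deriv g₂) c' ω x) x := by
  have hc' : ∀ l, 0 ≤ c' l := fun l => by
    rw [hcc]
    exact mul_nonneg (hc l) (Nat.cast_nonneg _)
  obtain ⟨w, hw, _, hb⟩ := fs_dom63 h1' h2' hc' hs'
  have e : fs g₁ g₂ c ω = fun t => ∑' l : ℕ, c l * lv g₁ g₂ ω l t := rfl
  rw [e]
  unfold fs
  refine hasDerivAt_tsum (g := fun l t => c l * lv g₁ g₂ ω l t)
    (g' := fun l t => c' l * lv (deriv g₁) (deriv g₂) ω l t) (y₀ := x) hw ?_ (fun l t => hb ω l t)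
    (fs_summable63 h1 h2 hc hs ω x) x
  intro l t
  have h := (lv_der63 h1 h2 h11 h21 ω l t).const_mul (c l)
  rwa [← mul_assoc, ← hcc] at h

private theorem fs_upd63 {g₁ g₂ : ℝ → ℝ} (h1 : CB g₁) (h2 : CB g₂) {c : ℕ → ℝ} (hc : ∀ l, 0 ≤ c l)
    (hs : Summable c) {l i : ℕ} (hi : i < NN l) (u v : ℝ) (ω : Om) (x : ℝ) :
    fs g₁ g₂ c (upd l i u v ω) x = fs g₁ g₂ c ω x + c l *
      ((cl u - cl (ω (l, i, false))) * pr (NN l) g₁ (x - i / NN l) +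
        (cl v - cl (ω (l, i, true))) * pr (NN l) g₂ (x - i / NN l)) := by
  have h3 := (fs_summable63 h1 h2 hc hs ω x).hasSum.add (hasSum_ite_eq l
    (c l * ((cl u - cl (ω (l, i, false))) * pr (NN l) g₁ (x - i / NN l) +
        (cl v - cl (ω (l, i, true))) * pr (NN l) g₂ (x - i / NN l))))
  have h4 : (fun l' : ℕ => c l' * lv g₁ g₂ (upd l i u v ω) l' x) =
      fun l' : ℕ => c l' * lv g₁ g₂ ω l' x + if l' = l then
        (c l * ((cl u - cl (ω (l, i, false))) * pr (NN l) g₁ (x - i / NN l) +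
        (cl v - cl (ω (l, i, true))) * pr (NN l) g₂ (x - i / NN l))) else 0 := by
    funext l'
    rw [lv_upd63 g₁ g₂ hi, mul_add]
    by_cases hl : l' = l
    · rw [if_pos hl, if_pos hl, hl]
    · rw [if_neg hl, if_neg hl, mul_zero]
  have h5 : fs g₁ g₂ c (upd l i u v ω) x = ∑' l' : ℕ, c l' * lv g₁ g₂ (upd l i u v ω) l' x := rfl
  rw [h5, h4, h3.tsum_eq]
  rfl

/-! ### the amplitudes -/

private theorem k0_63 {k : ℕ → ℝ} (hk : ∀ l, 0 ≤ k l) (hs : Summable k) :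
    (∀ l, 0 ≤ k l / (NN l : ℝ) ^ 2) ∧ Summable fun l => k l / (NN l : ℝ) ^ 2 := by
  have h0 : ∀ l, 0 ≤ k l / (NN l : ℝ) ^ 2 := fun l => div_nonneg (hk l) (by positivity)
  refine ⟨h0, Summable.of_nonneg_of_le h0 (fun l => ?_) hs⟩
  have h1 := NN_ge l
  exact div_le_self (hk l) (by nlinarith)

private theorem k1_63 {k : ℕ → ℝ} (hk : ∀ l, 0 ≤ k l) (hs : Summable k) :
    (∀ l, 0 ≤ k l / (NN l : ℝ)) ∧ Summable fun l => k l / (NN l : ℝ) := by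
  have h0 : ∀ l, 0 ≤ k l / (NN l : ℝ) := fun l => div_nonneg (hk l) (by positivity)
  refine ⟨h0, Summable.of_nonneg_of_le h0 (fun l => ?_) hs⟩
  have h1 := NN_ge l
  exact div_le_self (hk l) (by linarith)

/-- the random potential is of class `C^2` -/
theorem h_ok {χ : ℝ → ℝ} (hχ : Bump χ) {k : ℕ → ℝ} (hk : ∀ l, 0 ≤ k l) (hs : Summable k) :
    ∃ C : ℝ, 1 ≤ C ∧ ∀ ω : Om,
      Continuous (h0 χ k ω) ∧ Continuous (h1 χ k ω) ∧ Continuous (h2 χ k ω) ∧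
      (∀ x, h0 χ k ω (x + 1) = h0 χ k ω x) ∧ (∀ x, h1 χ k ω (x + 1) = h1 χ k ω x) ∧
      (∀ x, h2 χ k ω (x + 1) = h2 χ k ω x) ∧
      (∀ x, |h0 χ k ω x| ≤ C) ∧ (∀ x, |h1 χ k ω x| ≤ C) ∧ (∀ x, |h2 χ k ω x| ≤ C) ∧
      (∀ x, HasDerivAt (h0 χ k ω) (h1 χ k ω x) x) ∧ (∀ x, HasDerivAt (h1 χ k ω) (h2 χ k ω x) x) := by
  obtain ⟨-, b2, b3, -, b5, b6, -, b8, b9⟩ := bump_cb hχ
  obtain ⟨-, d2, d3, -, d5, d6, -, -, -⟩ := bump_cd hχ
  obtain ⟨p0, s0⟩ := k0_63 hk hs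
  obtain ⟨p1, s1⟩ := k1_63 hk hs
  obtain ⟨C0, hC0, H0⟩ := fs_bd63 b2 b3 p0 s0
  obtain ⟨C1, hC1, H1⟩ := fs_bd63 b5 b6 p1 s1
  obtain ⟨C2, hC2, H2⟩ := fs_bd63 b8 b9 hk hs
  refine ⟨1 + C0 + C1 + C2, by linarith, fun ω => ⟨fs_cont63 b2 b3 p0 s0 ω, fs_cont63 b5 b6 p1 s1 ω,
    fs_cont63 b8 b9 hk hs ω, fun x => fs_per63 _ _ _ _ _, fun x => fs_per63 _ _ _ _ _, fun x => fs_per63 _ _ _ _ _,
    fun x => (H0 ω x).trans (by linarith), fun x => (H1 ω x).trans (by linarith), fun x => (H2 ω x).trans (by linarith),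
    fun x => ?_, fun x => ?_⟩⟩
  · refine fs_der63 b2 b3 b5 b6 d2 d3 p0 s0 (fun l => ?_) s1 ω x
    have := (NN_pos l).ne'
    field_simp
  · refine fs_der63 b5 b6 b8 b9 d5 d6 p1 s1 (fun l => ?_) hs ω x
    have := (NN_pos l).ne'
    field_simp

theorem h_meas {χ : ℝ → ℝ} (hχ : Bump χ) {k : ℕ → ℝ} (hk : ∀ l, 0 ≤ k l) (hs : Summable k) :
    (Measurable fun q : Om × ℝ => h0 χ k q.1 q.2) ∧ (Measurable fun q : Om × ℝ => h1 χ k q.1 q.2) ∧
      Measurable fun q : Om × ℝ => h2 χ k q.1 q.2 := by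
  obtain ⟨-, b2, b3, -, b5, b6, -, b8, b9⟩ := bump_cb hχ
  obtain ⟨p0, s0⟩ := k0_63 hk hs
  obtain ⟨p1, s1⟩ := k1_63 hk hs
  exact ⟨fs_meas63 b2 b3 p0 s0, fs_meas63 b5 b6 p1 s1, fs_meas63 b8 b9 hk hs⟩

/-- off the cell nothing changes -/
theorem h_out {χ : ℝ → ℝ} (hχ : Bump χ) {k : ℕ → ℝ} (hk : ∀ l, 0 ≤ k l) (hs : Summable k) {l i : ℕ}
    (hi : i < NN l) (u v : ℝ) (ω : Om) {x : ℝ} (h : 1 ≤ |(NN l : ℝ) * rr (x - i / NN l)|) :
    h1 χ k (upd l i u v ω) x = h1 χ k ω x ∧ h2 χ k (upd l i u v ω) x = h2 χ k ω x := by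
  obtain ⟨-, b2, b3, -, b5, b6, -, b8, b9⟩ := bump_cb hχ
  obtain ⟨p1, s1⟩ := k1_63 hk hs
  have z : ∀ g : ℝ → ℝ, CB g → pr (NN l) g (x - i / NN l) = 0 := fun g hg => hg.zero _ h
  constructor
  · change fs _ _ _ _ _ = fs _ _ _ _ _
    rw [fs_upd63 b5 b6 p1 s1 hi, z _ b5, z _ b6]
    ring
  · change fs _ _ _ _ _ = fs _ _ _ _ _
    rw [fs_upd63 b8 b9 hk hs hi, z _ b8, z _ b9]
    ring

/-- in the inner part of the cell the potential changes by a quadratic polynomial -/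
theorem h_inn {χ : ℝ → ℝ} (hχ : Bump χ) {k : ℕ → ℝ} (hk : ∀ l, 0 ≤ k l) (hs : Summable k) {l i : ℕ}
    (hi : i < NN l) (u v : ℝ) (ω : Om) {x : ℝ} (h : |(NN l : ℝ) * rr (x - i / NN l)| ≤ 1 / 2) :
    h1 χ k (upd l i u v ω) x = h1 χ k ω x + k l / NN l *
      ((cl u - cl (ω (l, i, false))) + (cl v - cl (ω (l, i, true))) * ((NN l : ℝ) * rr (x - i / NN l))) ∧
    h2 χ k (upd l i u v ω) x = h2 χ k ω x + k l * (cl v - cl (ω (l, i, true))) := by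
  obtain ⟨-, b2, b3, -, b5, b6, -, b8, b9⟩ := bump_cb hχ
  obtain ⟨p1, s1⟩ := k1_63 hk hs
  obtain ⟨-, -, -, x4, x5, x6, x7⟩ := bump_in hχ h
  have q4 : pr (NN l) (deriv (k1 χ)) (x - i / NN l) = 1 := x4
  have q5 : pr (NN l) (deriv (k2 χ)) (x - i / NN l) = (NN l : ℝ) * rr (x - i / NN l) := x5
  have q6 : pr (NN l) (deriv (deriv (k1 χ))) (x - i / NN l) = 0 := x6
  have q7 : pr (NN l) (deriv (deriv (k2 χ))) (x - i / NN l) = 1 := x7
  constructor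
  · change fs _ _ _ _ _ = fs _ _ _ _ _ + _
    rw [fs_upd63 b5 b6 p1 s1 hi, q4, q5]
    ring
  · change fs _ _ _ _ _ = fs _ _ _ _ _ + _
    rw [fs_upd63 b8 b9 hk hs hi, q6, q7]
    ring

end Pool.Agent.Helper18.HY
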