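import Pool.Agent.Helper18.HY.FDefs
import Pool.Agent.Helper95.PV.Dec

/-! Block HY-FLIPA: measurability, and the effect of a flip (deterministic).

`flip_pt`: from `line` (`HY/Cell.lean`, with `k = j`, window `n - 1`, `c = cj d l j p`, `u = uj + (wj - fl wj) tj`, `v = fl wj`; `|u| ≤ 1` because `u = kick - v t`, `|kick| ≤ 1/2`, `|t| ≤ 1/2` (`inn_cel`), `|v| ≤ 1`).
The cells of level `l` at different times `< n` are different (`out_of_far2`, `inn_cel`), so the noise of the other cells does not change. `cl x = x` for `x ∈ [-1, 1]` (`cl_of_mem`), `-1 ≤ cl x ≤ 1`.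
`cell_ne`: cells at two isolated positions are different. `good_congr`: `good d l i` depends on the position `i` and the noise of its cell only.
`upd_congr`: changing the noise of the cell of the position `k`, isolated from the positions before, changes neither the positions `≤ k` (`iter_out`) nor the goodness of the sites `< k`. -/

set_option autoImplicit false
open MeasureTheory Real Set
open scoped ENNReal

namespace Pool.Agent.Helper18.HY

open Pool.Agent.Helper18.UC (T2 rep toT nn)
open Pool.Agent.Helper18.FD (NN rr pr cl uu lm Bump k1 k2 NN_pos NN_ge)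
open Pool.Agent.Helper95.PV (Ix Om PP lv rp tc inn out cel upd mv mu Pt rv)

variable {d : Dat}

/-! ### measurability -/

private theorem cl_meas67 : Measurable cl := by
  unfold cl
  exact measurable_const.max (measurable_const.min measurable_id)

private theorem rr_meas67 : Measurable rr := by
  have h : (rr : ℝ → ℝ) = fun u => u - ((⌊u + 1 / 2⌋ : ℤ) : ℝ) := by
    funext u
    unfold rr
    rw [round_eq]
  rw [h]
  have h1 : Measurable fun u : ℝ => ⌊u + 1 / 2⌋ := Int.measurable_floor.comp (measurable_id.add_const _)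
  have h2 : Measurable fun u : ℝ => ((⌊u + 1 / 2⌋ : ℤ) : ℝ) := (measurable_from_top (f := fun m : ℤ => (m : ℝ))).comp h1
  exact measurable_id.sub h2

private theorem cj_meas67 (hd : d.Ok) (l j : ℕ) : Measurable (cj d l j) := by
  unfold cj
  exact (Pool.Agent.Helper95.PV.meas_cel l).comp (meas_px hd j)

private theorem noise_meas67 (hd : d.Ok) (l j : ℕ) (b : Bool) :
    Measurable fun p : Pt => p.1 (l, cj d l j p, b) := by
  have h1 : Measurable fun q : Om × ℕ => q.1 ((l, q.2, b) : Ix) :=
    measurable_from_prod_countable_left fun y => measurable_pi_apply ((l, y, b) : Ix)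
  exact h1.comp (measurable_fst.prodMk (cj_meas67 hd l j))

private theorem uj_meas67 (hd : d.Ok) (l j : ℕ) : Measurable (uj d l j) := by
  unfold uj
  exact cl_meas67.comp (noise_meas67 hd l j false)

private theorem wj_meas67 (hd : d.Ok) (l j : ℕ) : Measurable (wj d l j) := by
  unfold wj
  exact cl_meas67.comp (noise_meas67 hd l j true)

private theorem tj_meas67 (hd : d.Ok) (l j : ℕ) : Measurable (tj d l j) := by
  unfold tj tc
  have h1 : Measurable fun p : Pt => rp (px d j p) := Pool.Agent.Helper95.PV.meas_rp.comp (meas_px hd j)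
  have h2 : Measurable fun p : Pt => ((cj d l j p : ℕ) : ℝ) :=
    (measurable_from_top (f := fun m : ℕ => (m : ℝ))).comp (cj_meas67 hd l j)
  exact (rr_meas67.comp (h1.sub (h2.div_const _))).const_mul _

private theorem fl_meas67 : Measurable fl := by
  unfold fl
  exact Measurable.ite (measurableSet_le measurable_const measurable_id)
    (measurable_id.sub_const 1) (measurable_id.add_const 1)

theorem meas_iso (hd : d.Ok) (l n : ℕ) : MeasurableSet {p | iso d l n p} := by
  have h3 : {p | iso d l n p} = ⋂ i, ⋂ (_ : i < n), ⋂ j, ⋂ (_ : j < n), ⋂ (_ : i ≠ j),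
      {p | 2 / (NN l : ℝ) ≤ dist (px d i p) (px d j p)} := by
    ext p
    simp only [iso, mem_iInter, mem_ofPred_eq]
  rw [h3]
  exact MeasurableSet.iInter fun i => MeasurableSet.iInter fun _ => MeasurableSet.iInter fun j =>
    MeasurableSet.iInter fun _ => MeasurableSet.iInter fun _ =>
      measurableSet_le measurable_const ((meas_px hd _).dist (meas_px hd _))

theorem meas_good (hd : d.Ok) (l j : ℕ) : MeasurableSet {p | good d l j p} := by
  have hk : Measurable fun p => uj d l j p + wj d l j p * tj d l j p :=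
    (uj_meas67 hd l j).add ((wj_meas67 hd l j).mul (tj_meas67 hd l j))
  have h1 : MeasurableSet {p | |uj d l j p + wj d l j p * tj d l j p| ≤ 1 / 2} :=
    measurableSet_le (continuous_abs.measurable.comp hk) measurable_const
  have h2 : MeasurableSet {p | wj d l j p < 1} := measurableSet_lt (wj_meas67 hd l j) measurable_const
  exact h1.inter h2

theorem meas_vj (hd : d.Ok) (j : ℕ) : Measurable (vj d j) := by
  unfold vj
  exact (meas_vv hd).comp ((meas_sk hd).iterate j)

theorem meas_vs (hd : d.Ok) (l j : ℕ) : Measurable (vs d l j) := by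
  classical
  unfold vs
  refine Measurable.ite (meas_good hd l j) ?_ (meas_vj hd j)
  exact (meas_vj hd j).add
    ((((fl_meas67.comp (wj_meas67 hd l j)).sub (wj_meas67 hd l j)).const_mul _).const_mul _)

theorem meas_Fp (hd : d.Ok) (l j : ℕ) : Measurable (Fp d l j) := by
  have h1 : Measurable fun q : (Om × (ℝ × ℝ)) × ℕ => upd l q.2 q.1.2.1 q.1.2.2 q.1.1 :=
    measurable_from_prod_countable_left fun y => Pool.Agent.Helper95.PV.measurable_upd l y
  have hw := wj_meas67 hd l j
  have hf : Measurable fun p => fl (wj d l j p) := fl_meas67.comp hw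
  have h2 : Measurable fun p : Pt =>
      (((p.1, (uj d l j p + (wj d l j p - fl (wj d l j p)) * tj d l j p, fl (wj d l j p))),
        cj d l j p) : (Om × (ℝ × ℝ)) × ℕ) :=
    (measurable_fst.prodMk (((uj_meas67 hd l j).add ((hw.sub hf).mul (tj_meas67 hd l j))).prodMk hf)).prodMk
      (cj_meas67 hd l j)
  unfold Fp
  exact (h1.comp h2).prodMk measurable_snd

/-! ### cells -/

theorem cell_ne {l i j n : ℕ} {p : Pt} (hi : iso d l n p) (h1 : i < n) (h2 : j < n) (h : i ≠ j) :
    cj d l i p ≠ cj d l j p := by
  intro he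
  have hin := Pool.Agent.Helper95.PV.inn_cel l (px d i p)
  have hin2 := Pool.Agent.Helper95.PV.inn_cel l (px d j p)
  have hout := Pool.Agent.Helper95.PV.out_of_far2 hin (hi j h2 i h1 (Ne.symm h))
  have he' : cel l (px d i p) = cel l (px d j p) := he
  rw [he'] at hout
  have a1 : |tc l (cel l (px d j p)) (px d j p)| ≤ 1 / 2 := hin2
  have a2 : 1 ≤ |tc l (cel l (px d j p)) (px d j p)| := hout
  linarith

private theorem upd_other67 {l c c' : ℕ} (h : c' ≠ c) (u v : ℝ) (ω : Om) (b : Bool) :
    upd l c u v ω (l, c', b) = ω (l, c', b) := by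
  unfold upd
  rw [Function.update_of_ne (by simp [h]), Function.update_of_ne (by simp [h])]

private theorem upd_false67 (l c : ℕ) (u v : ℝ) (ω : Om) : upd l c u v ω (l, c, false) = u := by
  unfold upd
  rw [Function.update_of_ne (by simp), Function.update_self]

private theorem upd_true67 (l c : ℕ) (u v : ℝ) (ω : Om) : upd l c u v ω (l, c, true) = v := by
  unfold upd
  rw [Function.update_self]

/-- goodness, the noise, and the local coordinate depend on the position and the noise of its cell -/
private theorem data_congr67 {l i : ℕ} {p p' : Pt} (hx : px d i p' = px d i p)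
    (h0 : p'.1 (l, cj d l i p, false) = p.1 (l, cj d l i p, false))
    (h1 : p'.1 (l, cj d l i p, true) = p.1 (l, cj d l i p, true)) :
    uj d l i p' = uj d l i p ∧ wj d l i p' = wj d l i p ∧ tj d l i p' = tj d l i p ∧
      (good d l i p' ↔ good d l i p) := by
  have hc : cj d l i p' = cj d l i p := by
    unfold cj
    rw [hx]
  have e1 : uj d l i p' = uj d l i p := by
    unfold uj
    rw [hc, h0]
  have e2 : wj d l i p' = wj d l i p := by
    unfold wj
    rw [hc, h1]
  have e3 : tj d l i p' = tj d l i p := by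
    unfold tj
    rw [hc, hx]
  refine ⟨e1, e2, e3, ?_⟩
  unfold good
  rw [e1, e2, e3]

/-- the noise of the cell at time `k` does not influence the past -/
theorem upd_congr (hd : d.Ok) {l k : ℕ} {p : Pt} (hi : iso d l (k + 1) p) (u v : ℝ) :
    (∀ i ≤ k, px d i (upd l (cj d l k p) u v p.1, p.2) = px d i p) ∧
      ∀ i < k, (good d l i (upd l (cj d l k p) u v p.1, p.2) ↔ good d l i p) := by
  have hout : ∀ j < k, out l (cj d l k p) (px d j p) := fun j hj =>
    Pool.Agent.Helper95.PV.out_of_far2 (Pool.Agent.Helper95.PV.inn_cel l (px d k p))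
      (hi j (by omega) k (by omega) (by omega))
  have h1 : ∀ i ≤ k, px d i (upd l (cj d l k p) u v p.1, p.2) = px d i p :=
    (iter_out hd (Pool.Agent.Helper95.PV.cel_lt l (px d k p)) u v (ω := p.1) (z := p.2) hout).2.1
  refine ⟨h1, fun i hik => ?_⟩
  have hne : cj d l i p ≠ cj d l k p := cell_ne hi (by omega) (by omega) (by omega)
  exact (data_congr67 (h1 i hik.le) (upd_other67 hne u v p.1 false) (upd_other67 hne u v p.1 true)).2.2.2

private theorem cl_mem67 (t : ℝ) : -1 ≤ cl t ∧ cl t ≤ 1 := by
  unfold cl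
  exact ⟨le_max_left _ _, max_le (by norm_num) (min_le_left _ _)⟩

private theorem fl_mem67 {w : ℝ} (h1 : -1 ≤ w) (h2 : w < 1) : -1 ≤ fl w ∧ fl w < 1 := by
  unfold fl
  split_ifs with h
  · constructor <;> linarith
  · push Not at h
    constructor <;> linarith

/-- the effect of a flip -/
theorem flip_pt (hd : d.Ok) {l j n : ℕ} (hj : j < n) {p : Pt} (hi : iso d l n p) (hg : good d l j p) :
    iso d l n (Fp d l j p) ∧ (∀ i < n, (good d l i (Fp d l j p) ↔ good d l i p)) ∧
      (∀ i < n, px d i (Fp d l j p) = px d i p) ∧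
      (∀ i < n, i ≠ j → vj d i (Fp d l j p) = vj d i p ∧ vs d l i (Fp d l j p) = vs d l i p) ∧
      vj d j (Fp d l j p) = vs d l j p := by
  obtain ⟨ω, z⟩ := p
  set p : Pt := (ω, z) with hp
  set u : ℝ := uj d l j p + (wj d l j p - fl (wj d l j p)) * tj d l j p with hu
  set v : ℝ := fl (wj d l j p) with hv
  have hFp : Fp d l j p = (upd l (cj d l j p) u v ω, z) := rfl
  have hw : -1 ≤ wj d l j p := (cl_mem67 _).1
  obtain ⟨hv1, hv2⟩ := fl_mem67 hw hg.2
  rw [← hv] at hv1 hv2
  have ht : |tj d l j p| ≤ 1 / 2 := Pool.Agent.Helper95.PV.inn_cel l (px d j p)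
  have hvt : |v * tj d l j p| ≤ 1 / 2 := by
    rw [abs_mul]
    have h1 : |v| ≤ 1 := abs_le.2 ⟨hv1, hv2.le⟩
    calc |v| * |tj d l j p| ≤ 1 * (1 / 2) := mul_le_mul h1 ht (abs_nonneg _) zero_le_one
      _ = 1 / 2 := one_mul _
  have hkick : u + v * tj d l j p = uj d l j p + wj d l j p * tj d l j p := by
    rw [hu]
    ring
  have hu1 : u ∈ Icc (-1 : ℝ) 1 := by
    have h1 := abs_le.1 hg.1
    have h2 := abs_le.1 hvt
    rw [← hkick] at h1
    constructor
    · linarith [h1.1, h2.2]
    · linarith [h1.2, h2.1]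
  have hfar : far d l j (n - 1) (ω, z) := fun i hi' hij => hi i (by omega) j hj hij
  obtain ⟨-, L2, L3, L4⟩ := line hd (by omega : j ≤ n - 1) hfar (c := cj d l j p) rfl hu1 ⟨hv1, hv2.le⟩ hkick
  have P : ∀ i < n, px d i (Fp d l j p) = px d i p := fun i hin => L2 i (by omega)
  have D : ∀ i < n, i ≠ j → uj d l i (Fp d l j p) = uj d l i p ∧ wj d l i (Fp d l j p) = wj d l i p ∧
      tj d l i (Fp d l j p) = tj d l i p ∧ (good d l i (Fp d l j p) ↔ good d l i p) := by
    intro i hin hij
    have hne : cj d l i p ≠ cj d l j p := cell_ne hi hin hj hij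
    exact data_congr67 (P i hin) (upd_other67 hne u v ω false) (upd_other67 hne u v ω true)
  have hcj : cj d l j (Fp d l j p) = cj d l j p := by
    unfold cj
    rw [P j hj]
  have htj : tj d l j (Fp d l j p) = tj d l j p := by
    unfold tj
    rw [hcj, P j hj]
  have huj : uj d l j (Fp d l j p) = u := by
    show cl ((Fp d l j p).1 (l, cj d l j (Fp d l j p), false)) = u
    rw [hcj, hFp]
    show cl (upd l (cj d l j p) u v ω (l, cj d l j p, false)) = u
    rw [upd_false67, Pool.Agent.Helper18.FD.cl_of_mem hu1]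
  have hwj : wj d l j (Fp d l j p) = v := by
    show cl ((Fp d l j p).1 (l, cj d l j (Fp d l j p), true)) = v
    rw [hcj, hFp]
    show cl (upd l (cj d l j p) u v ω (l, cj d l j p, true)) = v
    rw [upd_true67, Pool.Agent.Helper18.FD.cl_of_mem ⟨hv1, hv2.le⟩]
  have hgj : good d l j (Fp d l j p) := by
    unfold good
    rw [huj, hwj, htj, hkick]
    exact ⟨hg.1, hv2⟩
  refine ⟨fun i hin k hkn hik => ?_, fun i hin => ?_, P, fun i hin hij => ?_, ?_⟩
  · rw [P i hin, P k hkn]
    exact hi i hin k hkn hik
  · by_cases hij : i = j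
    · subst hij
      exact ⟨fun _ => hg, fun _ => hgj⟩
    · exact (D i hin hij).2.2.2
  · have e : vj d i (Fp d l j p) = vj d i p := L3 i (by omega) hij
    refine ⟨e, ?_⟩
    obtain ⟨-, d2, -, d4⟩ := D i hin hij
    unfold vs
    rw [e, d2]
    by_cases hgi : good d l i p
    · rw [if_pos hgi, if_pos (d4.2 hgi)]
    · rw [if_neg hgi, if_neg (fun h => hgi (d4.1 h))]
  · have e : vs d l j p = vj d j p + d.a * (d.κ * d.k l * (fl (wj d l j p) - wj d l j p)) := by
      unfold vs
      rw [if_pos hg]
    rw [e]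
    exact L4

end Pool.Agent.Helper18.HY
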