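import Mathlib

/-! Block HY-L2: the unitary representation of `SL(2, R)` on `L^2(R)` and the loss of norm under averaging. Independent of the rest.

`M(v) = !![v, -1; 1, 0]` acts on the line by `x ↦ v - 1/x`; `Tv v f x = |x|⁻¹ f (v - x⁻¹)` is an isometry of `L^2(R)`: `Nq (Tv v f) = Nq f` (change of variables `MeasureTheory.lintegral_image_eq_lintegral_abs_deriv_mul` on `{x ≠ 0}`,
image `{y ≠ v}`, derivative `1/x^2`; points are null).
`Qv v w f = (Tv v f + Tv w f)/2 = Tv v g` with `g = (f + f (· + (w - v)))/2` (`x ≠ 0`), so, with `s = w - v`, `Df s f = ∫ (f x - f (x + s))^2`: `Nq (Qv v w f) + Df s f / 4 = Nq g + Df s f / 4 = Nq f` (pointwise parallelogram identity, translation invariance).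
`mass`: for `0 < σ ≤ 1`, `|s| = σ`, every interval `I = (b, b + 2]` (any interval of length `2`): `∫_I h^2 ≤ Nq h / 8 + (4050/σ^2) Df s h`. Proof: `K = ⌈2/σ⌉ ≤ 3/σ`, the translates `I + m K s`, `m = 0, ..., 15`, are disjoint; `h(x)^2 ≤ 2 h(x + m K s)^2 + 2 (h(x) - h(x + m K s))^2`,
`∫ (h(x) - h(x + m K s))^2 ≤ (m K)^2 Df s h` (Cauchy-Schwarz `sq_sum_le_card_mul_sum_sq` and translation invariance), `m K ≤ 45/σ`; average over `m`.
`loss`: `F = Qv v' w' f`. `∫_{|x| ≤ 1} F^2 ≤ Nq F/8 + A Df F`; `∫_{|x| > 1} F^2 = ∫_J g^2`, `J = (v'-1, v'+1)`, `g = (f + f(· + s'))/2`, `g^2 ≤ (f^2 + f(· + s')^2)/2`, so `≤ Nq f/8 + A Df f`; with `Nq F + Df s' f/4 = Nq f`: `3/4 Nq f ≤ (A + 1)(Df s' f + Df s F)`, `A = 4050/σ^2`, and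
`Nq (Qv v w F) + (Df s F + Df s' f)/4 = Nq f`. Hence `Nq (Qv v w (Qv v' w' f)) ≤ (1 - σ^2/25000) Nq f` (`(3/16)/(A + 1) ≥ σ^2 * 3/(16 * 4051) ≥ σ^2/25000`). -/

set_option autoImplicit false
open MeasureTheory Real Set
open scoped ENNReal

namespace Pool.Agent.Helper18.HY

/-- the isometry attached to the matrix `!![v, -1; 1, 0]` -/
noncomputable def Tv (v : ℝ) (f : ℝ → ℝ) (x : ℝ) : ℝ := |x|⁻¹ * f (v - x⁻¹)

/-- the average of two isometries -/
noncomputable def Qv (v w : ℝ) (f : ℝ → ℝ) (x : ℝ) : ℝ := (Tv v f x + Tv w f x) / 2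

/-- the square of the norm -/
noncomputable def Nq (f : ℝ → ℝ) : ℝ≥0∞ := ∫⁻ x, ENNReal.ofReal (f x ^ 2)

theorem meas_Tv (v : ℝ) {f : ℝ → ℝ} (hf : Measurable f) : Measurable (Tv v f) := by
  unfold Tv
  exact (measurable_norm.inv).mul (hf.comp (measurable_const.sub measurable_inv))

theorem meas_Qv (v w : ℝ) {f : ℝ → ℝ} (hf : Measurable f) : Measurable (Qv v w f) := by
  unfold Qv
  exact ((meas_Tv v hf).add (meas_Tv w hf)).div_const 2

theorem Nq_Tv (v : ℝ) {f : ℝ → ℝ} (hf : Measurable f) : Nq (Tv v f) = Nq f := by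
  have hs : MeasurableSet {x : ℝ | x ≠ 0} := (measurableSet_singleton (0 : ℝ)).compl
  have hd : ∀ x ∈ {x : ℝ | x ≠ 0}, HasDerivWithinAt (fun x : ℝ => v - x⁻¹) ((x ^ 2)⁻¹) {x : ℝ | x ≠ 0} x := by
    intro x hx
    have h1 := (hasDerivAt_inv hx).const_sub v
    rw [neg_neg] at h1
    exact h1.hasDerivWithinAt
  have hinj : InjOn (fun x : ℝ => v - x⁻¹) {x : ℝ | x ≠ 0} := by
    intro x _ y _ hxy
    have h1 : x⁻¹ = y⁻¹ := by
      have h2 : v - x⁻¹ = v - y⁻¹ := hxy
      linarith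
    exact inv_injective h1
  have himg : (fun x : ℝ => v - x⁻¹) '' {x : ℝ | x ≠ 0} = {y : ℝ | y ≠ v} := by
    ext y
    constructor
    · rintro ⟨x, hx, rfl⟩
      show v - x⁻¹ ≠ v
      have h1 : x⁻¹ ≠ 0 := inv_ne_zero hx
      intro h2
      exact h1 (by linarith)
    · intro hy
      have hy' : v - y ≠ 0 := sub_ne_zero.2 (Ne.symm hy)
      refine ⟨(v - y)⁻¹, inv_ne_zero hy', ?_⟩
      show v - ((v - y)⁻¹)⁻¹ = y
      rw [inv_inv]
      ring
  have h1 := lintegral_image_eq_lintegral_abs_deriv_mul hs hd hinj (fun y => ENNReal.ofReal (f y ^ 2))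
  rw [himg] at h1
  have h2 : ∫⁻ y in {y : ℝ | y ≠ v}, ENNReal.ofReal (f y ^ 2) = Nq f := by
    unfold Nq
    have h4 : ({y : ℝ | y ≠ v} : Set ℝ) =ᵐ[volume] univ := by
      rw [ae_eq_univ]
      have h3 : ({y : ℝ | y ≠ v} : Set ℝ)ᶜ = {v} := by
        ext y
        simp
      rw [h3]
      exact Real.volume_singleton
    rw [setLIntegral_congr h4, setLIntegral_univ]
  have h3 : ∫⁻ x in {x : ℝ | x ≠ 0}, ENNReal.ofReal |((x ^ 2)⁻¹ : ℝ)| * ENNReal.ofReal (f (v - x⁻¹) ^ 2) = Nq (Tv v f) := by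
    unfold Nq
    rw [← setLIntegral_univ (fun x => ENNReal.ofReal (Tv v f x ^ 2))]
    have h4 : ({x : ℝ | x ≠ 0} : Set ℝ) =ᵐ[volume] univ := by
      rw [ae_eq_univ]
      have h3 : ({x : ℝ | x ≠ 0} : Set ℝ)ᶜ = {0} := by
        ext y
        simp
      rw [h3]
      exact Real.volume_singleton
    rw [setLIntegral_congr h4]
    refine lintegral_congr fun x => ?_
    rw [← ENNReal.ofReal_mul (abs_nonneg _)]
    congr 1
    unfold Tv
    rw [mul_pow, inv_pow, sq_abs, abs_of_nonneg (by positivity)]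
  rw [← h3, ← h1, h2]

theorem Nq_Qv_le (v w : ℝ) {f : ℝ → ℝ} (hf : Measurable f) : Nq (Qv v w f) ≤ Nq f := by
  have h1 : Nq (Qv v w f) ≤ ∫⁻ x, (ENNReal.ofReal (1 / 2) * ENNReal.ofReal (Tv v f x ^ 2) + ENNReal.ofReal (1 / 2) * ENNReal.ofReal (Tv w f x ^ 2)) := by
    refine lintegral_mono fun x => ?_
    rw [← ENNReal.ofReal_mul (by norm_num), ← ENNReal.ofReal_mul (by norm_num), ← ENNReal.ofReal_add (by positivity) (by positivity)]
    refine ENNReal.ofReal_le_ofReal ?_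
    unfold Qv
    nlinarith [sq_nonneg (Tv v f x - Tv w f x)]
  refine h1.trans (le_of_eq ?_)
  have hm : ∀ u : ℝ, Measurable fun x => ENNReal.ofReal (Tv u f x ^ 2) := fun u => ((meas_Tv u hf).pow_const 2).ennreal_ofReal
  rw [lintegral_add_left ((hm v).const_mul _), lintegral_const_mul _ (hm v), lintegral_const_mul _ (hm w)]
  have e1 : ∫⁻ x, ENNReal.ofReal (Tv v f x ^ 2) = Nq f := Nq_Tv v hf
  have e2 : ∫⁻ x, ENNReal.ofReal (Tv w f x ^ 2) = Nq f := Nq_Tv w hf
  rw [e1, e2, ← add_mul, ← ENNReal.ofReal_add (by norm_num) (by norm_num)]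
  norm_num

private noncomputable def m54 (f : ℝ → ℝ) : ℝ := ∫ x, f x ^ 2

private noncomputable def D54 (s : ℝ) (f : ℝ → ℝ) : ℝ := ∫ x, (f x - f (x + s)) ^ 2

private theorem memLp54 {f : ℝ → ℝ} (hf : Measurable f) (h : Nq f ≠ ⊤) : MemLp f 2 volume := by
  rw [memLp_two_iff_integrable_sq hf.aestronglyMeasurable]
  exact (lintegral_ofReal_ne_top_iff_integrable (hf.pow_const 2).aestronglyMeasurable
    (Filter.Eventually.of_forall fun _ => sq_nonneg _)).1 h

private theorem Nq_eq54 {f : ℝ → ℝ} (hf : MemLp f 2 volume) : Nq f = ENNReal.ofReal (m54 f) := by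
  unfold Nq m54
  rw [ofReal_integral_eq_lintegral_ofReal hf.integrable_sq (Filter.Eventually.of_forall fun _ => sq_nonneg _)]

private theorem m54_nonneg (f : ℝ → ℝ) : 0 ≤ m54 f := integral_nonneg fun _ => sq_nonneg _

private theorem D54_nonneg (s : ℝ) (f : ℝ → ℝ) : 0 ≤ D54 s f := integral_nonneg fun _ => sq_nonneg _

private theorem shift54 {f : ℝ → ℝ} (hf : MemLp f 2 volume) (s : ℝ) : MemLp (fun x => f (x + s)) 2 volume :=
  hf.comp_measurePreserving (measurePreserving_add_right volume s)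

private theorem half54 {f : ℝ → ℝ} (hf : MemLp f 2 volume) (s : ℝ) : MemLp (fun x => (f x + f (x + s)) / 2) 2 volume := by
  have h1 := (hf.add (shift54 hf s)).const_mul (2⁻¹)
  have e : (fun x => (f x + f (x + s)) / 2) = fun x => 2⁻¹ * ((f + fun x => f (x + s)) x) := by
    funext x
    simp only [Pi.add_apply]
    ring
  rw [e]
  exact h1

private theorem m54_shift (f : ℝ → ℝ) (s : ℝ) : m54 (fun x => f (x + s)) = m54 f :=
  integral_add_right_eq_self (fun x => f x ^ 2) s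

private theorem par54 {f : ℝ → ℝ} (hf : MemLp f 2 volume) (s : ℝ) :
    m54 (fun x => (f x + f (x + s)) / 2) + D54 s f / 4 = m54 f := by
  have i1 := hf.integrable_sq
  have i2 := (shift54 hf s).integrable_sq
  have i3 := (half54 hf s).integrable_sq
  have i4 : Integrable (fun x => (f x - f (x + s)) ^ 2) := (hf.sub (shift54 hf s)).integrable_sq
  have e2 : ∫ x, f (x + s) ^ 2 = ∫ x, f x ^ 2 := m54_shift f s
  unfold m54 D54
  rw [← integral_div, ← integral_add i3 (i4.div_const 4)]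
  have e : ∀ x, ((f x + f (x + s)) / 2) ^ 2 + (f x - f (x + s)) ^ 2 / 4 = f x ^ 2 / 2 + f (x + s) ^ 2 / 2 := by
    intro x
    ring
  simp only [e]
  rw [integral_add (i1.div_const 2) (i2.div_const 2), integral_div, integral_div, e2]
  ring

private theorem tele54 {h : ℝ → ℝ} (hh : MemLp h 2 volume) (s : ℝ) (N : ℕ) :
    ∫ x, (h x - h (x + N * s)) ^ 2 ≤ (N : ℝ) ^ 2 * D54 s h := by
  have hi : ∀ i : ℕ, Integrable (fun x => (h (x + i * s) - h (x + i * s + s)) ^ 2) := fun i =>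
    (shift54 (hh.sub (shift54 hh s)) (i * s)).integrable_sq
  have ht : ∀ i : ℕ, ∫ x, (h (x + i * s) - h (x + i * s + s)) ^ 2 = D54 s h := fun i =>
    integral_add_right_eq_self (fun x => (h x - h (x + s)) ^ 2) (i * s)
  have e : ∀ x, h x - h (x + N * s) = ∑ i ∈ Finset.range N, (h (x + i * s) - h (x + i * s + s)) := by
    intro x
    have h1 := Finset.sum_range_sub' (fun i : ℕ => h (x + i * s)) N
    simp only [Nat.cast_zero, zero_mul, add_zero] at h1
    rw [← h1]
    refine Finset.sum_congr rfl fun i _ => ?_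
    congr 2
    push_cast
    ring
  calc ∫ x, (h x - h (x + N * s)) ^ 2
      ≤ ∫ x, (N : ℝ) * ∑ i ∈ Finset.range N, (h (x + i * s) - h (x + i * s + s)) ^ 2 := by
        refine integral_mono (hh.sub (shift54 hh _)).integrable_sq
          ((integrable_finsetSum _ fun i _ => hi i).const_mul _) fun x => ?_
        show (h x - h (x + N * s)) ^ 2 ≤ (N : ℝ) * ∑ i ∈ Finset.range N, (h (x + i * s) - h (x + i * s + s)) ^ 2
        rw [e x]
        have h1 := sq_sum_le_card_mul_sum_sq (s := Finset.range N) (f := fun i : ℕ => h (x + i * s) - h (x + i * s + s))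
        rwa [Finset.card_range] at h1
    _ = (N : ℝ) * ∑ i ∈ Finset.range N, D54 s h := by
        rw [integral_const_mul, integral_finsetSum _ fun i _ => hi i]
        congr 1
        exact Finset.sum_congr rfl fun i _ => ht i
    _ = (N : ℝ) ^ 2 * D54 s h := by
        rw [Finset.sum_const, Finset.card_range, nsmul_eq_mul]
        ring

private theorem mass54 {h : ℝ → ℝ} (hh : MemLp h 2 volume) {σ s : ℝ} (hσ : 0 < σ) (hσ1 : σ ≤ 1) (hs : |s| = σ) (b : ℝ) :
    ∫ x in Ioc b (b + 2), h x ^ 2 ≤ m54 h / 8 + (4050 / σ ^ 2) * D54 s h := by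
  obtain ⟨K, hK⟩ : ∃ K : ℕ, K = ⌈2 / σ⌉₊ := ⟨_, rfl⟩
  have hK1 : 2 ≤ K * σ := by
    have h1 : 2 / σ ≤ K := by rw [hK]; exact Nat.le_ceil _
    rwa [div_le_iff₀ hσ] at h1
  have hK2 : (K : ℝ) * σ ≤ 3 := by
    have h1 : (K : ℝ) < 2 / σ + 1 := by rw [hK]; exact Nat.ceil_lt_add_one (by positivity)
    have h2 : (K : ℝ) * σ < (2 / σ + 1) * σ := mul_lt_mul_of_pos_right h1 hσ
    have h3 : (2 / σ + 1) * σ = 2 + σ := by field_simp
    linarith
  obtain ⟨c, hc⟩ : ∃ c : ℕ → ℝ, c = fun m => ((m * K : ℕ) : ℝ) * s := ⟨_, rfl⟩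
  have hi := hh.integrable_sq
  have hint : ∀ m, Integrable (fun x => h (x + c m) ^ 2) := fun m => (shift54 hh (c m)).integrable_sq
  have hint2 : ∀ m, Integrable (fun x => (h x - h (x + c m)) ^ 2) := fun m => (hh.sub (shift54 hh (c m))).integrable_sq
  have hD := D54_nonneg s h
  -- each translate
  have hone : ∀ m ∈ Finset.range 16, ∫ x in Ioc b (b + 2), h x ^ 2 ≤
      2 * (∫ x in Ioc (b + c m) (b + 2 + c m), h x ^ 2) + 2 * (2025 / σ ^ 2 * D54 s h) := by
    intro m hm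
    have hm' := Finset.mem_range.1 hm
    have h1 : ∫ x in Ioc b (b + 2), h x ^ 2 ≤ ∫ x in Ioc b (b + 2), (2 * h (x + c m) ^ 2 + 2 * (h x - h (x + c m)) ^ 2) := by
      refine integral_mono hi.integrableOn (((hint m).const_mul 2).add ((hint2 m).const_mul 2)).integrableOn fun x => ?_
      show h x ^ 2 ≤ 2 * h (x + c m) ^ 2 + 2 * (h x - h (x + c m)) ^ 2
      nlinarith [sq_nonneg (h (x + c m) - (h x - h (x + c m)))]
    rw [integral_add ((hint m).const_mul 2).integrableOn ((hint2 m).const_mul 2).integrableOn, integral_const_mul, integral_const_mul] at h1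
    have h2 : ∫ x in Ioc b (b + 2), h (x + c m) ^ 2 = ∫ x in Ioc (b + c m) (b + 2 + c m), h x ^ 2 := by
      rw [← intervalIntegral.integral_of_le (by linarith), ← intervalIntegral.integral_of_le (by linarith),
        intervalIntegral.integral_comp_add_right (fun x => h x ^ 2)]
    have h3 : ∫ x in Ioc b (b + 2), (h x - h (x + c m)) ^ 2 ≤ ∫ x, (h x - h (x + c m)) ^ 2 :=
      setIntegral_le_integral (hint2 m) (Filter.Eventually.of_forall fun _ => sq_nonneg _)
    have h4 : ∫ x, (h x - h (x + c m)) ^ 2 ≤ 2025 / σ ^ 2 * D54 s h := by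
      have h5 := tele54 hh s (m * K)
      have h6 : ((m * K : ℕ) : ℝ) ≤ 45 / σ := by
        rw [le_div_iff₀ hσ]
        push_cast
        have h7 : (m : ℝ) ≤ 15 := by exact_mod_cast (by omega : m ≤ 15)
        have h8 : (m : ℝ) * (K * σ) ≤ 15 * 3 := mul_le_mul h7 hK2 (by positivity) (by norm_num)
        linarith
      have h7 : ((m * K : ℕ) : ℝ) ^ 2 ≤ 2025 / σ ^ 2 := by
        have h8 : ((m * K : ℕ) : ℝ) ^ 2 ≤ (45 / σ) ^ 2 := pow_le_pow_left₀ (by positivity) h6 2
        rw [div_pow] at h8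
        norm_num at h8 ⊢
        exact h8
      rw [hc]
      exact h5.trans (mul_le_mul_of_nonneg_right h7 hD)
    rw [h2] at h1
    linarith
  -- disjointness
  have hdis : Set.Pairwise (↑(Finset.range 16) : Set ℕ) (Function.onFun Disjoint fun m => Ioc (b + c m) (b + 2 + c m)) := by
    intro m _ m' _ hmm
    show Disjoint (Ioc (b + c m) (b + 2 + c m)) (Ioc (b + c m') (b + 2 + c m'))
    rw [Set.disjoint_left]
    intro y hy hy'
    have h1 : |c m - c m'| < 2 := by
      rw [abs_lt]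
      constructor <;> linarith [hy.1, hy.2, hy'.1, hy'.2]
    have h2 : c m - c m' = ((m : ℝ) - m') * (K * s) := by
      rw [hc]
      push_cast
      ring
    rw [h2, abs_mul, abs_mul, hs, Nat.abs_cast K] at h1
    have h3 : (1 : ℝ) ≤ |(m : ℝ) - m'| := by
      have h4 : (1 : ℤ) ≤ |(m : ℤ) - m'| := by
        have : (m : ℤ) ≠ m' := by exact_mod_cast hmm
        have h5 : (m : ℤ) - m' ≠ 0 := sub_ne_zero.2 this
        exact Int.one_le_abs h5
      exact_mod_cast h4
    have h5 : 1 * 2 ≤ |(m : ℝ) - m'| * (K * σ) := mul_le_mul h3 hK1 (by norm_num) (abs_nonneg _)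
    linarith
  have hsum : ∑ m ∈ Finset.range 16, ∫ x in Ioc (b + c m) (b + 2 + c m), h x ^ 2 ≤ m54 h := by
    rw [← integral_biUnion_finset (Finset.range 16) (fun m _ => measurableSet_Ioc) hdis (fun m _ => hi.integrableOn)]
    exact setIntegral_le_integral hi (Filter.Eventually.of_forall fun _ => sq_nonneg _)
  have htot := Finset.sum_le_sum hone
  rw [Finset.sum_const, Finset.card_range, Finset.sum_add_distrib, ← Finset.mul_sum, Finset.sum_const, Finset.card_range, nsmul_eq_mul, nsmul_eq_mul] at htot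
  push_cast at htot
  have h9 : 4050 / σ ^ 2 * D54 s h = 2 * (2025 / σ ^ 2 * D54 s h) := by ring
  rw [h9]
  linarith

private theorem Tv_memLp54 (v : ℝ) {f : ℝ → ℝ} (hm : Measurable f) (hf : MemLp f 2 volume) : MemLp (Tv v f) 2 volume := by
  refine memLp54 (meas_Tv v hm) ?_
  rw [Nq_Tv v hm, Nq_eq54 hf]
  exact ENNReal.ofReal_ne_top

private theorem m54_Tv (v : ℝ) {f : ℝ → ℝ} (hm : Measurable f) (hf : MemLp f 2 volume) : m54 (Tv v f) = m54 f := by
  have h1 := Nq_Tv v hm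
  rw [Nq_eq54 hf, Nq_eq54 (Tv_memLp54 v hm hf)] at h1
  exact (ENNReal.ofReal_eq_ofReal_iff (m54_nonneg _) (m54_nonneg _)).1 h1

private theorem Qv_eq54 (v w : ℝ) (f : ℝ → ℝ) : Qv v w f = Tv v (fun x => (f x + f (x + (w - v))) / 2) := by
  funext x
  show (|x|⁻¹ * f (v - x⁻¹) + |x|⁻¹ * f (w - x⁻¹)) / 2 = |x|⁻¹ * ((f (v - x⁻¹) + f (v - x⁻¹ + (w - v))) / 2)
  have : v - x⁻¹ + (w - v) = w - x⁻¹ := by ring
  rw [this]
  ring

theorem loss {σ : ℝ} (hσ : 0 < σ) (hσ1 : σ ≤ 1) {v w v' w' : ℝ} (h : |v - w| = σ) (h' : |v' - w'| = σ)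
    {f : ℝ → ℝ} (hf : Measurable f) (hN : Nq f ≠ ⊤) :
    Nq (Qv v w (Qv v' w' f)) ≤ ENNReal.ofReal (1 - σ ^ 2 / 25000) * Nq f := by
  have hL := memLp54 hf hN
  obtain ⟨g, hg⟩ : ∃ g : ℝ → ℝ, g = fun x => (f x + f (x + (w' - v'))) / 2 := ⟨_, rfl⟩
  have hgm : Measurable g := by
    rw [hg]
    exact (hf.add (hf.comp (measurable_id.add_const _))).div_const 2
  have hgL : MemLp g 2 volume := by rw [hg]; exact half54 hL _
  obtain ⟨F, hF⟩ : ∃ F : ℝ → ℝ, F = Tv v' g := ⟨_, rfl⟩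
  have hQ : Qv v' w' f = F := by rw [Qv_eq54, hF, hg]
  have hFm : Measurable F := by rw [hF]; exact meas_Tv v' hgm
  have hFL : MemLp F 2 volume := by rw [hF]; exact Tv_memLp54 v' hgm hgL
  have hs' : |w' - v'| = σ := by rw [abs_sub_comm]; exact h'
  have hs : |w - v| = σ := by rw [abs_sub_comm]; exact h
  have e1 : m54 F + D54 (w' - v') f / 4 = m54 f := by
    rw [hF, m54_Tv v' hgm hgL, hg]
    exact par54 hL _
  obtain ⟨G, hG⟩ : ∃ G : ℝ → ℝ, G = fun x => (F x + F (x + (w - v))) / 2 := ⟨_, rfl⟩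
  have hGm : Measurable G := by
    rw [hG]
    exact (hFm.add (hFm.comp (measurable_id.add_const _))).div_const 2
  have hGL : MemLp G 2 volume := by rw [hG]; exact half54 hFL _
  have hQ2 : Qv v w F = Tv v G := by rw [Qv_eq54, hG]
  have e2 : m54 (Tv v G) + D54 (w - v) F / 4 = m54 F := by
    rw [m54_Tv v hGm hGL, hG]
    exact par54 hFL _
  rw [hQ, hQ2, Nq_eq54 (Tv_memLp54 v hGm hGL), Nq_eq54 hL, ← ENNReal.ofReal_mul (by nlinarith)]
  refine ENNReal.ofReal_le_ofReal ?_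
  -- the mass of `F` near the origin
  have m1 := mass54 hFL hσ hσ1 hs (-1)
  have hsplit : m54 F = (∫ x in Ioc (-1 : ℝ) (-1 + 2), F x ^ 2) + ∫ x in (Ioc (-1 : ℝ) (-1 + 2))ᶜ, F x ^ 2 :=
    (integral_add_compl measurableSet_Ioc hFL.integrable_sq).symm
  -- the rest is the mass of `g` on an interval
  have hrest : ∫ x in (Ioc (-1 : ℝ) (-1 + 2))ᶜ, F x ^ 2 ≤ ∫ x in Ioc (v' - 1) (v' - 1 + 2), g x ^ 2 := by
    obtain ⟨k, hk⟩ : ∃ k : ℝ → ℝ, k = (Ioc (v' - 1) (v' - 1 + 2)).indicator g := ⟨_, rfl⟩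
    have hkm : Measurable k := by rw [hk]; exact hgm.indicator measurableSet_Ioc
    have hkL : MemLp k 2 volume := by rw [hk]; exact hgL.indicator measurableSet_Ioc
    have h1 : m54 (Tv v' k) = ∫ x in Ioc (v' - 1) (v' - 1 + 2), g x ^ 2 := by
      rw [m54_Tv v' hkm hkL, ← integral_indicator measurableSet_Ioc]
      unfold m54
      refine integral_congr_ae (Filter.Eventually.of_forall fun x => ?_)
      show k x ^ 2 = _
      rw [hk]
      by_cases hx : x ∈ Ioc (v' - 1) (v' - 1 + 2)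
      · rw [indicator_of_mem hx, indicator_of_mem hx]
      · rw [indicator_of_notMem hx, indicator_of_notMem hx]
        norm_num
    rw [← h1, ← integral_indicator measurableSet_Ioc.compl]
    unfold m54
    refine integral_mono (hFL.integrable_sq.indicator measurableSet_Ioc.compl) (Tv_memLp54 v' hkm hkL).integrable_sq fun x => ?_
    show (Ioc (-1 : ℝ) (-1 + 2))ᶜ.indicator (fun x => F x ^ 2) x ≤ Tv v' k x ^ 2
    by_cases hx : x ∈ (Ioc (-1 : ℝ) (-1 + 2))ᶜ
    · rw [indicator_of_mem hx]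
      have h2 : 1 ≤ |x| := by
        by_contra hcon
        push Not at hcon
        apply hx
        obtain ⟨h3, h4⟩ := abs_lt.1 hcon
        exact ⟨h3, by linarith⟩
      have hxx : x ≠ 0 := by
        intro h0
        rw [h0, abs_zero] at h2
        linarith
      have hx1 : x ≠ 1 := by
        intro h0
        apply hx
        rw [h0]
        constructor <;> norm_num
      have h3 : |x⁻¹| ≤ 1 := by
        rw [abs_inv]
        exact inv_le_one_of_one_le₀ h2
      obtain ⟨h4, h5⟩ := abs_le.1 h3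
      have h6 : x⁻¹ ≠ 1 := by
        intro h0
        exact hx1 (by rw [← inv_inv x, h0, inv_one])
      have h7 : x⁻¹ < 1 := lt_of_le_of_ne h5 h6
      have h8 : v' - x⁻¹ ∈ Ioc (v' - 1) (v' - 1 + 2) := ⟨by linarith, by linarith⟩
      have h9 : Tv v' k x = F x := by
        rw [hF, hk]
        unfold Tv
        rw [indicator_of_mem h8]
      rw [h9]
    · rw [indicator_of_notMem hx]
      positivity
  have hgle : ∫ x in Ioc (v' - 1) (v' - 1 + 2), g x ^ 2 ≤ m54 f / 8 + (4050 / σ ^ 2) * D54 (w' - v') f := by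
    have m2 := mass54 hL hσ hσ1 hs' (v' - 1)
    have m3 := mass54 hL hσ hσ1 hs' (v' - 1 + (w' - v'))
    have h1 : ∫ x in Ioc (v' - 1) (v' - 1 + 2), g x ^ 2 ≤ ∫ x in Ioc (v' - 1) (v' - 1 + 2), (f x ^ 2 / 2 + f (x + (w' - v')) ^ 2 / 2) := by
      refine integral_mono hgL.integrable_sq.integrableOn ((hL.integrable_sq.div_const 2).add ((shift54 hL (w' - v')).integrable_sq.div_const 2)).integrableOn fun x => ?_
      show g x ^ 2 ≤ f x ^ 2 / 2 + f (x + (w' - v')) ^ 2 / 2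
      rw [hg]
      simp only
      nlinarith [sq_nonneg (f x - f (x + (w' - v')))]
    rw [integral_add (hL.integrable_sq.div_const 2).integrableOn ((shift54 hL (w' - v')).integrable_sq.div_const 2).integrableOn, integral_div, integral_div] at h1
    have h2 : ∫ x in Ioc (v' - 1) (v' - 1 + 2), f (x + (w' - v')) ^ 2 = ∫ x in Ioc (v' - 1 + (w' - v')) (v' - 1 + (w' - v') + 2), f x ^ 2 := by
      have e : v' - 1 + (w' - v') + 2 = v' - 1 + 2 + (w' - v') := by ring
      rw [e, ← intervalIntegral.integral_of_le (by linarith), ← intervalIntegral.integral_of_le (by linarith),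
        intervalIntegral.integral_comp_add_right (fun x => f x ^ 2)]
    rw [h2] at h1
    linarith
  have hDF := D54_nonneg (w - v) F
  have hDf := D54_nonneg (w' - v') f
  have hmf := m54_nonneg f
  have hσ2 : 0 < σ ^ 2 := by positivity
  have hσ3 : σ ^ 2 ≤ 1 := by nlinarith
  -- the numbers
  obtain ⟨S, hS⟩ : ∃ S : ℝ, S = D54 (w - v) F + D54 (w' - v') f := ⟨_, rfl⟩
  have hS0 : 0 ≤ S := by rw [hS]; linarith
  have k1 : 3 / 4 * m54 f ≤ 4050 / σ ^ 2 * S + S := by
    have k2 : 4050 / σ ^ 2 * S = 4050 / σ ^ 2 * D54 (w - v) F + 4050 / σ ^ 2 * D54 (w' - v') f := by rw [hS]; ring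
    rw [k2]
    have a1 := hrest.trans hgle
    have a2 : m54 F ≤ (m54 F / 8 + 4050 / σ ^ 2 * D54 (w - v) F) + (m54 f / 8 + 4050 / σ ^ 2 * D54 (w' - v') f) := by
      calc m54 F = _ := hsplit
        _ ≤ _ := add_le_add m1 a1
    have a3 : m54 F = m54 f - D54 (w' - v') f / 4 := by linarith
    rw [a3] at a2
    linarith
  have k3 : 3 / 4 * m54 f * σ ^ 2 ≤ 4051 * S := by
    have k4 := mul_le_mul_of_nonneg_right k1 hσ2.le
    have k5 : (4050 / σ ^ 2 * S + S) * σ ^ 2 = 4050 * S + S * σ ^ 2 := by field_simp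
    rw [k5] at k4
    have k6 : S * σ ^ 2 ≤ S * 1 := mul_le_mul_of_nonneg_left hσ3 hS0
    linarith
  have k7 : 0 ≤ m54 f * σ ^ 2 := by positivity
  have k8 : m54 (Tv v G) = m54 f - S / 4 := by rw [hS]; linarith
  rw [k8]
  linarith

end Pool.Agent.Helper18.HY
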