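import Pool.Agent.Helper18.HY.Cell
import Pool.Agent.Helper18.FD.Unif

/-! Block HY-MEAS: measurability in (noise, point), the skew product preserves `mu`, reversibility. Port of `PV/Meas.lean`. -/

set_option autoImplicit false
open MeasureTheory Real Set
open scoped ENNReal

namespace Pool.Agent.Helper18.HY

open Pool.Agent.Helper18.UC (T2 rep toT nn)
open Pool.Agent.Helper18.FD (NN rr pr cl uu lm Bump k1 k2 NN_pos NN_ge)
open Pool.Agent.Helper95.PV (Ix Om PP lv rp tc inn out cel upd mv mu Pt rv meas_rp rv_mp law_rp vol_ball)

variable {d : Dat}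

theorem p_meas (hd : d.Ok) : (Measurable fun q : Om × ℝ => d.p1 q.1 q.2) ∧
    Measurable fun q : Om × ℝ => d.p2 q.1 q.2 := by
  obtain ⟨-, m1, m2⟩ := h_meas hd.hχ hd.hk0' hd.hs
  refine ⟨?_, ?_⟩
  · unfold Dat.p1
    exact (hd.c1.measurable.comp measurable_snd).add (m1.const_mul d.κ)
  · unfold Dat.p2
    exact (hd.c2.measurable.comp measurable_snd).add (m2.const_mul d.κ)

theorem meas_cc (hd : d.Ok) : Measurable fun q : Om × UnitAddCircle => cc d q.1 q.2 := by
  have hb : Measurable fun q : Om × UnitAddCircle => ((q.1, rp q.2) : Om × ℝ) :=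
    measurable_fst.prodMk (meas_rp.comp measurable_snd)
  have h1 := (p_meas hd).1.comp hb
  simp only [Function.comp_def] at h1
  have h2 : Measurable fun q : Om × UnitAddCircle => rp q.2 := meas_rp.comp measurable_snd
  have h3 := (h2.const_mul 2).add (h1.const_mul d.a)
  have h4 : Measurable fun x : ℝ => (x : UnitAddCircle) := (AddCircle.continuous_mk' (1 : ℝ)).measurable
  have h5 := h4.comp h3
  unfold cc
  exact h5

theorem meas_va (hd : d.Ok) : Measurable fun q : Om × UnitAddCircle => va d q.1 q.2 := by
  have hb : Measurable fun q : Om × UnitAddCircle => ((q.1, rp q.2) : Om × ℝ) :=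
    measurable_fst.prodMk (meas_rp.comp measurable_snd)
  have h1 := (p_meas hd).2.comp hb
  simp only [Function.comp_def] at h1
  unfold va
  exact (h1.const_mul d.a).const_add 2

theorem meas_sk (hd : d.Ok) : Measurable (sk d) := by
  have hb : Measurable fun p : Pt => ((p.1, p.2.1) : Om × UnitAddCircle) :=
    measurable_fst.prodMk (measurable_fst.comp measurable_snd)
  have h1 := (meas_cc hd).comp hb
  simp only [Function.comp_def] at h1
  have hx : Measurable fun p : Pt => p.2.1 := measurable_fst.comp measurable_snd
  have hy : Measurable fun p : Pt => p.2.2 := measurable_snd.comp measurable_snd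
  unfold sk Tw
  exact measurable_fst.prodMk ((h1.sub hy).prodMk hx)

theorem meas_px (hd : d.Ok) (j : ℕ) : Measurable (px d j) := by
  unfold px
  exact (measurable_fst.comp measurable_snd).comp ((meas_sk hd).iterate j)

theorem meas_vv (hd : d.Ok) : Measurable (vv d) := by
  have hb : Measurable fun p : Pt => ((p.1, p.2.1) : Om × UnitAddCircle) :=
    measurable_fst.prodMk (measurable_fst.comp measurable_snd)
  have h1 := (meas_va hd).comp hb
  simp only [Function.comp_def] at h1
  unfold vv
  exact h1

theorem meas_Mm (hd : d.Ok) (n : ℕ) (i j : Fin 2) : Measurable fun p => Mm d n p i j := by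
  induction n generalizing i j with
  | zero =>
    simp only [Mm_zero]
    exact measurable_const
  | succ n ih =>
    have hD : ∀ i j : Fin 2, Measurable fun p : Pt => mv (vv d p) i j := by
      intro i j
      have ha := meas_vv hd
      unfold mv
      fin_cases i <;> fin_cases j
      · exact ha
      · exact measurable_const
      · exact measurable_const
      · exact measurable_const
    have hs := (meas_sk hd).iterate n
    have e0 := (hD i 0).comp hs
    have e1 := (hD i 1).comp hs
    simp only [Function.comp_def] at e0 e1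
    simp only [Mm_succ, Matrix.mul_apply, Fin.sum_univ_two]
    exact (e0.mul (ih 0 j)).add (e1.mul (ih 1 j))

private theorem measurable_congr97 {α β : Type*} [MeasurableSpace α] [MeasurableSpace β] {f g : α → β}
    (h : ∀ x, f x = g x) : Measurable f ↔ Measurable g := by
  rw [show f = g from funext h]

theorem meas_sepd (hd : d.Ok) (k n : ℕ) : Measurable (sepd d k n) := by
  have h : ∀ j ∈ Finset.range (n + 1), Measurable fun p : Pt =>
      (if j = k then (1 : ℝ) else dist (px d j p) (px d k p)) := by
    intro j _
    split_ifs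
    · exact measurable_const
    · exact (meas_px hd j).dist (meas_px hd k)
  have h2 := Finset.inf'_induction (s := Finset.range (n + 1)) ⟨0, by simp⟩
    (fun j => fun p : Pt => (if j = k then (1 : ℝ) else dist (px d j p) (px d k p)))
    (p := fun f => Measurable f) (fun f hf g hg => hf.inf hg) h
  unfold sepd
  refine (measurable_congr97 ?_).1 h2
  intro p
  exact Finset.inf'_apply _ _ _

theorem far_meas (hd : d.Ok) (l k n : ℕ) : MeasurableSet {p | far d l k n p} := by
  have h3 : {p | far d l k n p} = ⋂ j, ⋂ (_ : j ≤ n), ⋂ (_ : j ≠ k),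
      {p | 2 / (NN l : ℝ) ≤ dist (px d j p) (px d k p)} := by
    ext p
    simp only [far, mem_iInter, mem_ofPred_eq]
  rw [h3]
  exact MeasurableSet.iInter fun j => MeasurableSet.iInter fun _ => MeasurableSet.iInter fun _ =>
    measurableSet_le measurable_const ((meas_px hd _).dist (meas_px hd _))

theorem Tw_mp (hd : d.Ok) (ω : Om) : MeasurePreserving (Tw d ω) volume volume := by
  have hc : Measurable fun x : UnitAddCircle => cc d ω x := by
    have h1 : Measurable fun x : UnitAddCircle => ((ω, x) : Om × UnitAddCircle) :=
      measurable_const.prodMk measurable_id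
    exact (meas_cc hd).comp h1
  have hg : Measurable (Function.uncurry fun x y : UnitAddCircle => cc d ω x - y) :=
    (hc.comp measurable_fst).sub measurable_snd
  have h := (MeasurePreserving.id (volume : Measure UnitAddCircle)).skew_product
    (μc := (volume : Measure UnitAddCircle)) (μd := (volume : Measure UnitAddCircle))
    (g := fun x y : UnitAddCircle => cc d ω x - y) hg
    (Filter.Eventually.of_forall fun x => (Measure.measurePreserving_sub_left volume (cc d ω x)).map_eq)
  have h2 := (Measure.measurePreserving_swap (μ := (volume : Measure UnitAddCircle))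
    (ν := (volume : Measure UnitAddCircle))).comp h
  exact h2

theorem sk_mp (hd : d.Ok) : MeasurePreserving (sk d) mu mu := by
  have hm : Measurable (Function.uncurry fun (ω : Om) (z : T2) => Tw d ω z) :=
    measurable_snd.comp (meas_sk hd)
  have h := (MeasurePreserving.id PP).skew_product (μc := (volume : Measure T2)) (μd := (volume : Measure T2))
    (g := fun ω z => Tw d ω z) hm
    (Filter.Eventually.of_forall fun ω => (Tw_mp hd ω).map_eq)
  unfold mu sk
  exact h

theorem sk_iter_mp (hd : d.Ok) (n : ℕ) : MeasurePreserving ((sk d)^[n]) mu mu := (sk_mp hd).iterate n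

theorem px_rv (d : Dat) {n j : ℕ} (hj : j ≤ n) (p : Pt) :
    px d j (rv ((sk d)^[n + 1] p)) = px d (n - j) p := by
  have key : ∀ i : ℕ, i ≤ n + 1 → (sk d)^[i] (rv ((sk d)^[n + 1] p)) = rv ((sk d)^[n + 1 - i] p) := by
    intro i
    induction i with
    | zero => intro _; rfl
    | succ i ih =>
      intro hi
      rw [Function.iterate_succ_apply', ih (by omega), show n + 1 - i = (n + 1 - (i + 1)) + 1 by omega,
        Function.iterate_succ_apply', sk_rv_sk]
  show ((sk d)^[j] (rv ((sk d)^[n + 1] p))).2.1 = _
  rw [key j (by omega), show n + 1 - j = (n - j) + 1 by omega]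
  exact sk_iter_snd_succ d (n - j) p

/-- the law of a position -/
theorem law_px (hd : d.Ok) (j : ℕ) : Measure.map (px d j) mu = volume := by
  have h1 : MeasurePreserving (Prod.snd : Pt → T2) mu volume := by
    unfold mu
    exact measurePreserving_snd
  have hp : IsProbabilityMeasure (volume : Measure UnitAddCircle) := by
    constructor
    rw [UnitAddCircle.measure_univ]
  have h0 : MeasurePreserving (Prod.fst : T2 → UnitAddCircle) volume volume :=
    measurePreserving_fst (μ := (volume : Measure UnitAddCircle)) (ν := (volume : Measure UnitAddCircle))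
  exact ((h0.comp h1).comp (sk_iter_mp hd j)).map_eq

/-- the law of (noise, position) -/
theorem law_vv (hd : d.Ok) (j : ℕ) : Measure.map (fun p : Pt => ((p.1, rp (px d j p)) : Om × ℝ)) mu =
    PP.prod (volume.restrict (Ico (0 : ℝ) 1)) := by
  have hp : IsProbabilityMeasure (volume : Measure UnitAddCircle) := by
    constructor
    rw [UnitAddCircle.measure_univ]
  have h0 : MeasurePreserving (Prod.fst : T2 → UnitAddCircle) volume volume :=
    measurePreserving_fst (μ := (volume : Measure UnitAddCircle)) (ν := (volume : Measure UnitAddCircle))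
  have h1 : MeasurePreserving rp volume (volume.restrict (Ico (0 : ℝ) 1)) := ⟨meas_rp, law_rp⟩
  have h2 := (MeasurePreserving.id PP).prod (h1.comp h0)
  have h3 : MeasurePreserving (Prod.map id (rp ∘ Prod.fst) : Pt → Om × ℝ) mu
      (PP.prod (volume.restrict (Ico (0 : ℝ) 1))) := h2
  have h4 : (fun p : Pt => ((p.1, rp (px d j p)) : Om × ℝ)) =
      (Prod.map id (rp ∘ Prod.fst) : Pt → Om × ℝ) ∘ (sk d)^[j] := by
    funext p
    show (p.1, rp (px d j p)) = (((sk d)^[j] p).1, rp ((sk d)^[j] p).2.1)
    rw [sk_iter_fst]
    rfl
  rw [h4]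
  exact (h3.comp (sk_iter_mp hd j)).map_eq

/-- size of the derivative -/
theorem vv_le (hd : d.Ok) (p : Pt) : |vv d p| ≤ 2 + |d.a| * d.R := by
  unfold vv va
  refine (abs_add_le _ _).trans ?_
  rw [abs_mul, abs_of_pos (by norm_num : (0 : ℝ) < 2)]
  have h := mul_le_mul_of_nonneg_left (hd.b2 p.1 (rp p.2.1)) (abs_nonneg d.a)
  linarith

end Pool.Agent.Helper18.HY
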