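import Pool.Agent.Helper95.PF.Defs

/-!
# Hyperbolicity on the whole torus (MP_9ee088_an): definitions for the final statement
-/

set_option autoImplicit false
open MeasureTheory Real Set Filter Topology
open scoped ENNReal

namespace Pool.Agent.Helper18.HY

open Pool.Agent.Helper95.PF (law loc)

/-- The random function `h_ω` on the circle: the sum over all scales `N = 2 ^ (l + 3)` and all cells
`0 ≤ i < N` of `k_l N ^ (-2) χ(u) (ω₀ u + ω₁ u ^ 2 / 2)`, `u = N (x - i / N)` (difference modulo one). -/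
noncomputable def rough (χ : ℝ → ℝ) (k : ℕ → ℝ) (ω : ℕ × ℕ × Bool → ℝ) (x : ℝ) : ℝ :=
  ∑' l : ℕ, k l / ((2 ^ (l + 3) : ℕ) : ℝ) ^ 2 *
    ∑ i ∈ Finset.range (2 ^ (l + 3)), χ (loc (2 ^ (l + 3)) i x) *
      (ω (l, i, false) * loc (2 ^ (l + 3)) i x + ω (l, i, true) * (loc (2 ^ (l + 3)) i x ^ 2 / 2))

/-- `V` is one-periodic of class `C^2`, with derivatives up to order two bounded by `C`. -/
structure Per2 (C : ℝ) (V : ℝ → ℝ) : Prop where
  smooth : ContDiff ℝ 2 V
  per : ∀ x, V (x + 1) = V x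
  b0 : ∀ x, |V x| ≤ C
  b1 : ∀ x, |deriv V x| ≤ C
  b2 : ∀ x, |deriv (deriv V) x| ≤ C

/-- The normalised area of the torus is hyperbolic for `T(x, y) = (2x - y + a V'(x), x)`: for almost every point
of the plane (the universal cover of the torus) the Lyapunov exponent
`lim (1/n) log ‖DT^n‖` exists and is positive. -/
def Hyp (a : ℝ) (V : ℝ → ℝ) : Prop :=
  ∀ᵐ q : ℝ × ℝ, ∃ L : ℝ, 0 < L ∧ Tendsto (fun n : ℕ => Real.log
    ‖fderiv ℝ ((fun r : ℝ × ℝ => (2 * r.1 - r.2 + a * deriv V r.1, r.1))^[n]) q‖ / n) atTop (𝓝 L)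

end Pool.Agent.Helper18.HY
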